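import Pool.Agent.H87.NV.Wmx

/-!
# The bad event is small

`NvTwo`: the statement of the family theorem for `c 0, c 1; c 2`. `no_bad`: there is no event on
which the derivative of the closed derivative is large, if on all its large parts there are nodes for
`c 0, c 1` near the node of the family.
-/

set_option autoImplicit false

namespace Pool.NVX

open Finset Real MvPolynomial
open Pool.Agent.H49.Ent Pool.Agent.H32.Dense Pool.STK Pool.KA Pool.KSAT Pool.K2S Pool.PB Pool.S6C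
open Pool.GEN Pool.CHT
open Pool.SHR (dir mvp RelvH Shr)
open Pool.PB.Trl (rt rt_mem t_rt)
open Pool.FLF (Fam.sub)

variable {m J : ℕ}

/-- **The statement of the family theorem** for `c 0, c 1; c 2`. -/
def NvTwo (m D : ℕ) : Prop := ∃ (C : ℕ) (C₁ : ℝ), 1 ≤ C₁ ∧
    ∀ {J : ℕ} {F : Fam m J} {c : ℕ → Fin m} {a w w₂ a₃ e E h s lam D₂ : ℕ}
    {gN g g₂ g₃ Y : ℕ → ℕ} {κ θ : ℝ} {B₀ B : F.Ω → Prop}
    {N T T₂ T₃ : PtT F → ℕ → MvPolynomial (Option (Fin m)) ℝ}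
    {NH TH T₂H T₃H : LnT F → ℕ → MvPolynomial (Option (Fin m)) ℝ},
    Set.InjOn c (Set.Iio 3) → w ≤ w₂ → w₂ ≤ a → a ≤ a₃ → a₃ ≤ J → 0 < Pe F.p B → Sub B B₀ →
    ChOK F c 3 (fun _ => D) a w E gN B N NH →
    ChOK F c 2 (fun _ => D) a a e g B₀ T TH → RelvH F c 2 a a g Y D₂ h κ B₀ T →
    ChOK F c 2 (fun _ => D) a₃ a₃ e g₃ B₀ T₃ T₃H →
    ChOK F c 2 (fun _ => D) a w₂ e g₂ B₀ T₂ T₂H → RelvF F c 2 a w₂ g₂ D₂ h κ B₀ T₂ →
    D + 2 ≤ D₂ → 0 ≤ κ → κ * 2 ^ C * Pe F.p B₀ ≤ Pe F.p B → κ * 2 ^ C ≤ 1 →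
    (∀ (B' : F.Ω → Prop) (hB' : 0 < Pe F.p B'), Sub B' B → Pe F.p B ≤ 2 ^ C * Pe F.p B' →
      (Fam.sub F B' hB').Tm θ) → 0 ≤ θ → C₁ * (θ + 1) ≤ ((J : ℝ) - a₃) * Real.log 2 →
    C₁ * (θ + 1) ≤ s → h ≤ s → (∀ l < 2, gN l ≤ g l + s) →
    (∀ j < 2, Y j ≤ J) → (∀ l < 3, e + E + gN l + C * (s + 1) ≤ J) →
    (∀ l < 2, e + E + g l + C * (s + 1) ≤ J) → (∀ l < 2, e + g₃ l + C * (s + 1) ≤ J) →
    (∀ l < 2, e + g₂ l + C * (s + 1) ≤ J) → C * (s + 1) ≤ gN 2 →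
    (∀ ω, B ω → ∀ t : ℝ, F.t ω - rt F w ω / 2 ^ w ≤ t →
      t ≤ F.t ω + (1 - rt F w ω) / 2 ^ w →
      |(hcl (c 1) (NH (slam F w ω) 2) (slam F w ω)).eval t| ≤ 2 ^ (a + lam) / 2 ^ gN 2) →
    (∀ ω, B ω → ∃ t : ℝ, F.t ω - rt F w ω / 2 ^ w ≤ t ∧ t ≤ F.t ω + (1 - rt F w ω) / 2 ^ w ∧
      2 ^ (a + lam) / 2 ^ gN 2 / 2 ^ s ≤
        |(hcl (c 1) (NH (slam F w ω) 2) (slam F w ω)).eval t|) →
    g₂ 1 + C * (s + 1) ≤ lam → g₂ 1 + a₃ + C * (s + 1) ≤ g₃ 1 + a →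
    g 1 + a₃ + C * (s + 1) ≤ g₃ 1 + a → w + C * (s + 1) ≤ w₂ →
    g₂ 0 ≤ g 0 + s → g 0 ≤ g₂ 0 + s → g₂ 1 ≤ g 1 + s → False

theorem pe_spl {Ω : Type} [Fintype Ω] (p : Ω → ℝ) (A N : Ω → Prop) :
    Pe p A = Pe p (fun ω => A ω ∧ N ω) + Pe p (fun ω => A ω ∧ ¬ N ω) := by
  classical
  simp_rw [Pe_eq]
  rw [← Finset.sum_add_distrib]
  refine Finset.sum_congr rfl fun ω _ => ?_
  by_cases h1 : A ω <;> by_cases h2 : N ω <;> simp [h1, h2]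

/-- **The pigeonhole.** -/
theorem pig {Ω : Type} [Fintype Ω] {p : Ω → ℝ} (hp : IsLaw p) {A : Ω → Prop}
    {Φ : ℕ → Ω → Prop} {N : ℕ} (hN : 0 < N) (h : ∀ ω, A ω → ∃ k < N, Φ k ω) :
    ∃ k < N, Pe p A ≤ N * Pe p (fun ω => A ω ∧ Φ k ω) := by
  classical
  by_contra hcon
  push Not at hcon
  have hN0 : (0 : ℝ) < N := by exact_mod_cast hN
  have h1 : Pe p A ≤ ∑ k ∈ range N, Pe p (fun ω => A ω ∧ Φ k ω) := by
    simp_rw [Pe_eq]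
    rw [Finset.sum_comm]
    refine Finset.sum_le_sum fun ω _ => ?_
    by_cases hω : A ω
    · rw [if_pos hω]
      obtain ⟨k, hk, h2⟩ := h ω hω
      refine le_trans (le_of_eq ?_) (Finset.single_le_sum
        (f := fun k => @ite ℝ (A ω ∧ Φ k ω) (Classical.propDecidable _) (p ω) 0)
        (fun i _ => ?_) (mem_range.2 hk))
      · rw [if_pos ⟨hω, h2⟩]
      · split_ifs
        · exact hp.nonneg ω
        · exact le_rfl
    · rw [if_neg hω]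
      refine Finset.sum_nonneg fun i _ => ?_
      split_ifs
      · exact hp.nonneg ω
      · exact le_rfl
  have h2 : ∑ k ∈ range N, (N : ℝ) * Pe p (fun ω => A ω ∧ Φ k ω) <
      ∑ k ∈ range N, Pe p A := by
    refine Finset.sum_lt_sum_of_nonempty ⟨0, mem_range.2 hN⟩ fun k hk => ?_
    exact hcon k (mem_range.1 hk)
  rw [← Finset.mul_sum, Finset.sum_const, card_range, nsmul_eq_mul] at h2
  have h3 := mul_le_mul_of_nonneg_left h1 hN0.le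
  linarith

/-- **There is no bad event.** -/
theorem no_bad {m D : ℕ} (h2 : NvTwo m D) : ∃ (C : ℕ) (C₁ : ℝ), 1 ≤ C₁ ∧
    ∀ {J : ℕ} {F : Fam m J} {c : ℕ → Fin m} {a w w₂ a₃ e E h s Q N D₂ : ℕ}
    {gN g g₂ g₃ Y : ℕ → ℕ} {κ θ : ℝ} {A : F.Ω → Prop}
    {G : PtT F → ℕ → MvPolynomial (Option (Fin m)) ℝ}
    {H : LnT F → ℕ → MvPolynomial (Option (Fin m)) ℝ} (hA : 0 < Pe F.p A),
    Set.InjOn c (Set.Iio 3) → w ≤ w₂ → w₂ ≤ a → a ≤ a₃ → a₃ ≤ J →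
    ChOK F c 3 (fun _ => D) a w E gN A G H →
    (∀ ω, A ω → 2 ^ Q / 2 ^ gN 2 <
      wmx w (slam F w ω).2.2 (hcl (c 1) (H (slam F w ω) 2) (slam F w ω))) →
    (Fam.sub F A hA).Tm θ →
    (∀ A' : F.Ω → Prop, Sub A' A → Pe F.p A ≤ 2 * N * Pe F.p A' →
      ∃ B : F.Ω → Prop, Sub B A' ∧ 0 < Pe F.p B ∧
      (∀ (B' : F.Ω → Prop) (hB' : 0 < Pe F.p B'), Sub B' B → Pe F.p B ≤ 2 ^ C * Pe F.p B' →
        (Fam.sub F B' hB').Tm θ) ∧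
      ∃ (T T₂ T₃ : PtT F → ℕ → MvPolynomial (Option (Fin m)) ℝ)
        (TH T₂H T₃H : LnT F → ℕ → MvPolynomial (Option (Fin m)) ℝ),
        ChOK F c 2 (fun _ => D) a a e g B T TH ∧ RelvH F c 2 a a g Y D₂ h κ B T ∧
        ChOK F c 2 (fun _ => D) a₃ a₃ e g₃ B T₃ T₃H ∧
        ChOK F c 2 (fun _ => D) a w₂ e g₂ B T₂ T₂H ∧ RelvF F c 2 a w₂ g₂ D₂ h κ B T₂) →
    D + 2 ≤ D₂ → 0 ≤ κ → κ * 2 ^ C ≤ 1 → 0 ≤ θ →
    C₁ * (θ + 1) ≤ ((J : ℝ) - a₃) * Real.log 2 →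
    C₁ * (θ + 1) ≤ s → h ≤ s → (∀ l < 2, gN l ≤ g l + s) →
    (∀ j < 2, Y j ≤ J) → (∀ l < 3, e + E + gN l + C * (s + 1) ≤ J) →
    (∀ l < 2, e + E + g l + C * (s + 1) ≤ J) → (∀ l < 2, e + g₃ l + C * (s + 1) ≤ J) →
    (∀ l < 2, e + g₂ l + C * (s + 1) ≤ J) → C * (s + 1) ≤ gN 2 →
    C + w + s + E + gN 1 + gN 2 ≤ Q + N * s →
    a + g₂ 1 + C * (s + 1) ≤ Q → g₂ 1 + a₃ + C * (s + 1) ≤ g₃ 1 + a →
    g 1 + a₃ + C * (s + 1) ≤ g₃ 1 + a → w + C * (s + 1) ≤ w₂ →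
    g₂ 0 ≤ g 0 + s → g 0 ≤ g₂ 0 + s → g₂ 1 ≤ g 1 + s → False := by
  obtain ⟨C, C₁, hC₁, hnv⟩ := h2
  obtain ⟨C', C₁', hC₁', hup⟩ := hcl_up m D
  refine ⟨C + C', max C₁ C₁', le_trans hC₁ (le_max_left _ _), ?_⟩
  intro J F c a w w₂ a₃ e E h s Q N D₂ gN g g₂ g₃ Y κ θ A G H hA hc hw hwa haa haJ hL hbad hTm
    hown hD hκ hκC hθ hn1 hn2 hhs hg hY hr1 hr2 hr3 hr4 hr5 hN hl1 hl2 hl3 hl4 hl5 hl6 hl7
  have hθ1 : 0 < θ + 1 := by linarith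
  have hm1 : C₁ * (θ + 1) ≤ max C₁ C₁' * (θ + 1) :=
    mul_le_mul_of_nonneg_right (le_max_left _ _) hθ1.le
  have hm2 : C₁' * (θ + 1) ≤ max C₁ C₁' * (θ + 1) :=
    mul_le_mul_of_nonneg_right (le_max_right _ _) hθ1.le
  have hln : 0 < Real.log 2 := Real.log_pos (by norm_num)
  have hCC : C * (s + 1) ≤ (C + C') * (s + 1) := Nat.mul_le_mul_right _ (by omega)
  have hwJ : w ≤ J := by omega
  -- the crude bound
  obtain ⟨A₁, k1, k2, k3⟩ := hup hA hc hwJ hL hTm hθ (hm2.trans (hn1.trans (by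
    refine mul_le_mul_of_nonneg_right ?_ hln.le
    have : (w : ℝ) ≤ a₃ := by exact_mod_cast (by omega : w ≤ a₃)
    linarith))) (hm2.trans hn2) (fun ω hω => lt_trans (by positivity) (hbad ω hω))
  -- the classes
  have hcls : ∀ ω, A₁ ω → ∃ k < N, 2 ^ (Q + k * s) / 2 ^ gN 2 <
      wmx w (slam F w ω).2.2 (hcl (c 1) (H (slam F w ω) 2) (slam F w ω)) ∧
      wmx w (slam F w ω).2.2 (hcl (c 1) (H (slam F w ω) 2) (slam F w ω)) ≤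
        2 ^ (Q + (k + 1) * s) / 2 ^ gN 2 := by
    intro ω hω
    obtain ⟨M, hM⟩ : ∃ M, M = wmx w (slam F w ω).2.2 (hcl (c 1) (H (slam F w ω) 2)
      (slam F w ω)) := ⟨_, rfl⟩
    rw [← hM]
    have h1 := hbad ω (k1 ω hω)
    have h3 := k3 ω hω
    rw [← hM] at h1 h3
    have h4 : M ≤ 2 ^ (Q + N * s) / 2 ^ gN 2 := by
      rw [le_div_iff₀ (by positivity)]
      calc M * 2 ^ gN 2 ≤ 2 ^ (C' + w + s + E + gN 1) * 2 ^ gN 2 :=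
            mul_le_mul_of_nonneg_right h3 (by positivity)
        _ = 2 ^ (C' + w + s + E + gN 1 + gN 2) := by rw [← pow_add]
        _ ≤ _ := pow_le_pow_right₀ (by norm_num) (by omega)
    clear h3 hM
    have key : ∀ n : ℕ, M ≤ 2 ^ (Q + n * s) / 2 ^ gN 2 → ∃ k < n,
        2 ^ (Q + k * s) / 2 ^ gN 2 < M ∧ M ≤ 2 ^ (Q + (k + 1) * s) / 2 ^ gN 2 := by
      intro n
      induction n with
      | zero =>
        intro h5
        rw [Nat.zero_mul, Nat.add_zero] at h5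
        linarith
      | succ n ih =>
        intro h5
        rcases le_or_gt M (2 ^ (Q + n * s) / 2 ^ gN 2) with h6 | h6
        · obtain ⟨k, hk, h7⟩ := ih h6
          exact ⟨k, by omega, h7⟩
        · exact ⟨n, by omega, h6, h5⟩
    exact key N h4
  have hA₁ : 0 < Pe F.p A₁ := by linarith
  have hN0 : 0 < N := by
    by_contra hcon
    obtain ⟨ω, hω⟩ : ∃ ω, A₁ ω := by
      by_contra hcon'
      push Not at hcon'
      have h1 : Pe F.p A₁ = 0 := by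
        unfold Pe
        exact Finset.sum_eq_zero fun ω _ => by simp [hcon' ω]
      linarith
    obtain ⟨k, hk, -⟩ := hcls ω hω
    omega
  obtain ⟨k, hk, hshare⟩ := pig F.isLaw hN0 hcls
  obtain ⟨B, l1, l2, l3, T, T₂, T₃, TH, T₂H, T₃H, t1, t2, t3, t4, t5⟩ := hown
    (fun ω => A₁ ω ∧ (2 ^ (Q + k * s) / 2 ^ gN 2 <
      wmx w (slam F w ω).2.2 (hcl (c 1) (H (slam F w ω) 2) (slam F w ω)) ∧
      wmx w (slam F w ω).2.2 (hcl (c 1) (H (slam F w ω) 2) (slam F w ω)) ≤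
        2 ^ (Q + (k + 1) * s) / 2 ^ gN 2))
    (fun ω hω => k1 ω hω.1) (by
      calc Pe F.p A = 2 * (Pe F.p A / 2) := by ring
        _ ≤ 2 * Pe F.p A₁ := mul_le_mul_of_nonneg_left k2 (by norm_num)
        _ ≤ 2 * (N * _) := mul_le_mul_of_nonneg_left hshare (by norm_num)
        _ = _ := by ring)
  have hks : a + (Q + (k + 1) * s - a) = Q + (k + 1) * s := by
    have : a ≤ Q := by omega
    omega
  have hpow : (1 : ℝ) ≤ 2 ^ C' := one_le_pow₀ (by norm_num)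
  have h2C : (2 : ℝ) ^ C ≤ 2 ^ (C + C') := pow_le_pow_right₀ (by norm_num) (by omega)
  have hκC' : κ * 2 ^ C ≤ 1 := (mul_le_mul_of_nonneg_left h2C hκ).trans hκC
  refine hnv (h := h) (s := s) (lam := Q + (k + 1) * s - a) (κ := κ) (θ := θ) (B₀ := B) (B := B)
    (N := G) (NH := H) (T := T) (T₂ := T₂) (T₃ := T₃) (TH := TH) (T₂H := T₂H) (T₃H := T₃H)
    (gN := gN) (g := g) (g₂ := g₂) (g₃ := g₃) (Y := Y) (E := E) (e := e) hc hw hwa haa haJ l2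
    (fun _ h => h) (hL.sub fun ω hω => k1 ω (l1 ω hω).1) t1 t2 t3 t4 t5 hD hκ ?_ hκC' ?_ hθ
    (hm1.trans hn1) (hm1.trans hn2) hhs hg hY (fun l hl => ?_) (fun l hl => ?_) (fun l hl => ?_)
    (fun l hl => ?_) (by omega) ?_ ?_ ?_ (by omega) (by omega) (by omega) hl5 hl6 hl7
  · have := mul_le_mul_of_nonneg_right hκC' (Pe_nonneg F.isLaw B)
    linarith
  · intro B' hB' hs hP
    exact l3 B' hB' hs (hP.trans (mul_le_mul_of_nonneg_right h2C (Pe_nonneg F.isLaw B')))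
  · have := hr1 l hl
    omega
  · have := hr2 l hl
    omega
  · have := hr3 l hl
    omega
  · have := hr4 l hl
    omega
  · intro ω hω t ht1 ht2
    rw [hks]
    exact (le_wmx ((win_iff hwJ ω t).1 ⟨ht1, ht2⟩)).trans (l1 ω hω).2.2
  · intro ω hω
    obtain ⟨t, ht, h3⟩ := wmx_mem w (slam F w ω).2.2 (hcl (c 1) (H (slam F w ω) 2) (slam F w ω))
    obtain ⟨h4, h5⟩ := (win_iff hwJ ω t).2 ht
    refine ⟨t, h4, h5, ?_⟩
    rw [← h3, hks]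
    refine le_trans (le_of_eq ?_) (l1 ω hω).2.1.le
    rw [show Q + (k + 1) * s = (Q + k * s) + s by ring, pow_add 2 (Q + k * s) s]
    field_simp
  · have : (k + 1) * s = k * s + s := by ring
    omega

end Pool.NVX
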