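import Pool.Agent.H87.NV.Naq
import Pool.Agent.H40.SLP.TrlA
import Pool.Agent.H2.GEN.AttF3

/-!
# The end for one coordinate

`nv_end`: the slope of `c 1` (against `c 0`) is the closed quotient `- P₀ / P₁` at all the times of
the ball; there is no such label at a node without relations.
-/

set_option autoImplicit false

namespace Pool.NVX

open Finset Real MvPolynomial
open Pool.Agent.H49.Ent Pool.Agent.H32.Dense Pool.STK Pool.KA Pool.KSAT Pool.K2S Pool.PB Pool.S6C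
open Pool.GEN Pool.CHT
open Pool.PB.Trl (rt rt_mem t_rt)

variable {m J : ℕ}

/-- The times of the samples of one window. -/
theorem t_win {F : Fam m J} {w : ℕ} (hw : w ≤ J) {ω ω' : F.Ω} (h : slam F w ω = slam F w ω') :
    |F.t ω - F.t ω'| ≤ 1 / 2 ^ w := by
  have h1 := t_rt F hw ω
  have h2 := t_rt F hw ω'
  obtain ⟨a1, a2⟩ := rt_mem F w ω
  obtain ⟨a3, a4⟩ := rt_mem F w ω'
  have h3 : (slam F w ω).2.2 = (slam F w ω').2.2 := by rw [h]
  rw [h1, h2, h3, ← sub_div, abs_div, abs_of_pos (show (0 : ℝ) < 2 ^ w by positivity)]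
  refine div_le_div_of_nonneg_right ?_ (by positivity)
  rw [abs_le]
  constructor <;> linarith

/-- [E'] **The end for one coordinate**: the slope of `c 1` is the closed quotient `- P₀ / P₁`, at
all the times of the ball. `X` = the visible slope, `ν` = a line through the point. -/
theorem nv_end {F : Fam m J} {c : ℕ → Fin m} {D D' D₂ a w w₂ e h : ℕ} {g : ℕ → ℕ}
    {κ M R er k₀ δ Y Yu : ℝ} {B₀ B : F.Ω → Prop}
    {G : PtT F → ℕ → MvPolynomial (Option (Fin m)) ℝ}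
    {H : LnT F → ℕ → MvPolynomial (Option (Fin m)) ℝ} (hc : Set.InjOn c (Set.Iio 2))
    (hR : RelvF F c 2 a w₂ g D₂ h κ B₀ G)
    (hL : ChOK F c 2 (fun _ => D') a w₂ e g B₀ G H) (hD : D + 2 ≤ D₂) (hB : Sub B B₀)
    (hP : κ * Pe F.p B₀ ≤ Pe F.p B) (hP0 : 0 < Pe F.p B) (hw : w ≤ w₂) (hwa : w₂ ≤ a)
    (haJ : a ≤ J) (ν : PtT F → F.Ω) (X : PtT F → ℝ) (P₀ P₁ : LnT F → Polynomial ℝ)
    (hd0 : ∀ s, (P₀ s).natDegree ≤ D) (hd1 : ∀ s, (P₁ s).natDegree ≤ D)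
    (hν : ∀ ω, B ω → ptr F J (ν (ptr F J ω)) = ptr F J ω)
    (hX : ∀ ω, B ω → |X (ptr F J ω)| ≤ R) (hM : 0 < M)
    (hv : ∀ ω, B ω → |(bd F ω (some (c 1)) - bd F (ν (ptr F J ω)) (some (c 1))) -
      X (ptr F J ω) * (bd F ω (some (c 0)) - bd F (ν (ptr F J ω)) (some (c 0)))| ≤ M * 2 ^ a)
    (hk : 0 < k₀) (hlow : ∀ ω, B ω → k₀ ≤ |(P₁ (slam F w ω)).eval (F.t ω)|)
    (hδ : 0 ≤ δ)
    (hvar : ∀ ω, B ω → ∀ t : ℝ, |t - F.t ω| ≤ 2 / 2 ^ w₂ →
      |(P₁ (slam F w ω)).eval t - (P₁ (slam F w ω)).eval (F.t ω)| ≤ δ * k₀)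
    (hrel : ∀ ω, B ω → ∀ t : ℝ, |t - F.t ω| ≤ 1 / 2 ^ a →
      |(P₀ (slam F w ω)).eval t + (P₁ (slam F w ω)).eval t * X (ptr F J ω)| ≤ er)
    (hY : 0 ≤ Y) (hbox : ∀ ω, B ω → ∀ b, NBx c (G (ptr F J ω)) g a (F.t ω) 1 b →
      |b (some (c 0)) - (F.x ω (c 0) + (b none - F.t ω) * bd F ω (some (c 0)))| ≤ Y)
    (hYu : 0 ≤ Yu) (hbx2 : ∀ ω, B ω → ∀ b, NBx c (G (ptr F J ω)) g a (F.t ω) 2 b →
      |(b (some (c 1)) - (F.x ω (c 1) + (b none - F.t ω) * bd F ω (some (c 1)))) -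
        X (ptr F J ω) *
        (b (some (c 0)) - (F.x ω (c 0) + (b none - F.t ω) * bd F ω (some (c 0))))| ≤ Yu)
    (hnum : 4 * er / k₀ * Y + 4 * δ * Yu ≤ M) (hJ : R + 1 ≤ M * 2 ^ J)
    (hh : 2 ^ h * (3 * M) < 1 / 2 ^ g 1) : False := by
  classical
  have hw₂J : w₂ ≤ J := by omega
  -- a sample
  obtain ⟨ω₀, hω₀⟩ : ∃ ω, B ω := by
    by_contra hcon
    push Not at hcon
    have h1 : Pe F.p B = 0 := by
      unfold Pe
      exact Finset.sum_eq_zero fun ω _ => by simp [hcon ω]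
    linarith
  have hR0 : 0 ≤ R := (abs_nonneg _).trans (hX ω₀ hω₀)
  -- the representatives of the windows
  have hrep : ∀ s : LnT F, ∃ ω' : F.Ω, (∃ ω, B ω ∧ slam F w₂ ω = s) → B ω' ∧ slam F w₂ ω' = s := by
    intro s
    by_cases h : ∃ ω, B ω ∧ slam F w₂ ω = s
    · obtain ⟨ω, h1⟩ := h
      exact ⟨ω, fun _ => h1⟩
    · exact ⟨ω₀, fun h' => absurd h' h⟩
  choose rp hrp using hrep
  obtain ⟨co, hco⟩ : ∃ co : LnT F → LnT F, co = fun s => (s.1, s.2.1, s.2.2 / 2 ^ (w₂ - w)) :=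
    ⟨_, rfl⟩
  have hcs : ∀ ω, co (slam F w₂ ω) = slam F w ω := fun ω => by
    rw [hco]
    exact slam_coarse' F hw hw₂J ω
  obtain ⟨p, hp⟩ : ∃ p : LnT F → ℝ, p = fun s => (P₁ (co s)).eval (F.t (rp s)) := ⟨_, rfl⟩
  obtain ⟨q', hq'⟩ : ∃ q' : LnT F → Polynomial ℝ,
    q' = fun s => Polynomial.C (1 / p s) * P₁ (co s) := ⟨_, rfl⟩
  obtain ⟨κ', hκ'⟩ : ∃ κ' : LnT F → ℕ → Polynomial ℝ,
    κ' = fun s _ => Polynomial.C (-(1 / p s)) * P₀ (co s) := ⟨_, rfl⟩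
  have hpw : ∀ ω, B ω → k₀ ≤ |p (slam F w₂ ω)| ∧ B (rp (slam F w₂ ω)) ∧
      |F.t ω - F.t (rp (slam F w₂ ω))| ≤ 1 / 2 ^ w₂ ∧
      slam F w (rp (slam F w₂ ω)) = slam F w ω := by
    intro ω hω
    obtain ⟨h1, h2⟩ := hrp (slam F w₂ ω) ⟨ω, hω, rfl⟩
    have h3 : slam F w (rp (slam F w₂ ω)) = slam F w ω := by
      rw [← hcs, ← hcs ω, h2]
    refine ⟨?_, h1, t_win hw₂J h2.symm, h3⟩
    have h4 := hlow _ h1
    rw [h3] at h4
    rw [hp]
    simp only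
    rw [hcs]
    exact h4
  refine no_affq (F := F) (c := c) (D := D₂) (D' := D') (K := D) (a := a) (w := w₂) (e := e)
    (h := h) (j := 1) (g := g) (κ := κ) (M := M) (R := R) (B₀ := B₀) (B := B) (G := G) (H := H)
    hc hR hL (by omega) hB hP hP0 ν (fun y _ => X y) q' κ' ?_ ?_ hν hR0
    (fun ω hω k _ => hX ω hω) hM ?_ ?_ (by simpa using hJ) hh
  · intro s
    rw [hq']
    exact (Polynomial.natDegree_C_mul_le _ _).trans (hd1 _)
  · intro s k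
    rw [hκ']
    exact (Polynomial.natDegree_C_mul_le _ _).trans (hd0 _)
  · intro ω hω
    simpa using hv ω hω
  · intro ω hω b hb
    obtain ⟨k1, k2, k3, k4⟩ := hpw ω hω
    have hp0 : p (slam F w₂ ω) ≠ 0 := by
      intro h0
      rw [h0, abs_zero] at k1
      linarith
    have hpp : 0 < |p (slam F w₂ ω)| := abs_pos.2 hp0
    have hb1 : |b none - F.t ω| ≤ 1 / 2 ^ a := hb.1
    have hb2 : NBx c (G (ptr F J ω)) g a (F.t ω) 1 b := ⟨hb.1, fun l hl => hb.2 l (by omega)⟩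
    have hV := hbox ω hω b hb2
    have hU := hbx2 ω hω b hb
    rw [Finset.sum_range_one]
    rw [hq', hκ']
    simp only [Polynomial.eval_mul, Polynomial.eval_C]
    rw [hcs]
    -- the values
    have ha2 : (1 : ℝ) / 2 ^ a ≤ 1 / 2 ^ w₂ :=
      one_div_le_one_div_of_le (by positivity) (pow_le_pow_right₀ (by norm_num) hwa)
    have e1 : |(P₁ (slam F w ω)).eval (b none) - p (slam F w₂ ω)| ≤ δ * k₀ := by
      have h1 := hvar _ k2 (b none) (by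
        have h2 : b none - F.t (rp (slam F w₂ ω)) = (b none - F.t ω) +
          (F.t ω - F.t (rp (slam F w₂ ω))) := by ring
        rw [h2]
        refine (abs_add_le _ _).trans ?_
        calc _ ≤ 1 / 2 ^ w₂ + 1 / 2 ^ w₂ := add_le_add (hb1.trans ha2) k3
          _ = 2 / 2 ^ w₂ := by ring)
      rw [k4] at h1
      have h2 : p (slam F w₂ ω) = (P₁ (slam F w ω)).eval (F.t (rp (slam F w₂ ω))) := by
        rw [hp]
        simp only
        rw [hcs]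
      rw [h2]
      exact h1
    have e2 := hrel ω hω (b none) hb1
    have her : 0 ≤ er := (abs_nonneg _).trans e2
    obtain ⟨V, hVd⟩ : ∃ V, V = b (some (c 0)) -
      (F.x ω (c 0) + (b none - F.t ω) * bd F ω (some (c 0))) := ⟨_, rfl⟩
    obtain ⟨U, hUd⟩ : ∃ U, U = b (some (c 1)) -
      (F.x ω (c 1) + (b none - F.t ω) * bd F ω (some (c 1))) := ⟨_, rfl⟩
    rw [← hVd] at hV hU ⊢
    rw [← hUd] at hU ⊢
    obtain ⟨A₁, hA₁⟩ : ∃ A₁, A₁ = (P₁ (slam F w ω)).eval (b none) := ⟨_, rfl⟩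
    obtain ⟨A₀, hA₀⟩ : ∃ A₀, A₀ = (P₀ (slam F w ω)).eval (b none) := ⟨_, rfl⟩
    obtain ⟨x, hx⟩ : ∃ x, x = X (ptr F J ω) := ⟨_, rfl⟩
    obtain ⟨ps, hps⟩ : ∃ ps, ps = p (slam F w₂ ω) := ⟨_, rfl⟩
    rw [← hA₁] at e1 e2 ⊢
    rw [← hA₀] at e2 ⊢
    rw [← hx] at e2 hU ⊢
    rw [← hps] at e1 k1 hp0 hpp ⊢
    have key : (1 - 1 / ps * A₁) * U - (x - -(1 / ps) * A₀) * V =
        (ps - A₁) / ps * (U - x * V) - (A₀ + A₁ * x) / ps * V := by
      field_simp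
      ring
    rw [key]
    have f1 : |(ps - A₁) / ps| ≤ δ := by
      rw [abs_div, div_le_iff₀ hpp, abs_sub_comm]
      exact e1.trans (mul_le_mul_of_nonneg_left k1 hδ)
    have f2 : |(A₀ + A₁ * x) / ps| ≤ er / k₀ := by
      rw [abs_div]
      exact div_le_div₀ her e2 hk k1
    have g1 : |(ps - A₁) / ps * (U - x * V)| ≤ δ * Yu := by
      rw [abs_mul]
      exact mul_le_mul f1 hU (abs_nonneg _) hδ
    have g2 : |(A₀ + A₁ * x) / ps * V| ≤ er / k₀ * Y := by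
      rw [abs_mul]
      exact mul_le_mul f2 hV (abs_nonneg _) (by positivity)
    have g3 : 0 ≤ er / k₀ * Y := by positivity
    have g4 : 0 ≤ δ * Yu := by positivity
    have g5 : 4 * er / k₀ * Y = 4 * (er / k₀ * Y) := by ring
    calc _ ≤ _ := abs_sub _ _
      _ ≤ δ * Yu + er / k₀ * Y := add_le_add g1 g2
      _ ≤ M := by
        rw [g5] at hnum
        linarith

end Pool.NVX
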