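import Pool.Agent.H87.NV.End
import Pool.Agent.H39.NV.Rem
import Pool.Agent.H87.GEN.Cbl

/-!
# The size of a polynomial of the line on a window

`wmx`: the maximum on the window. `gcl`: the closed derivative along the line; its derivative is
`hcl`. `gcl_var`: the variation of the closed derivative over a shorter window. `hcl_up`: a crude
bound of `hcl` at most samples.
-/

set_option autoImplicit false

namespace Pool.NVX

open Finset Real MvPolynomial
open Pool.Agent.H49.Ent Pool.Agent.H32.Dense Pool.STK Pool.KA Pool.KSAT Pool.K2S Pool.PB Pool.S6C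
open Pool.GEN Pool.CHT
open Pool.D2R (dd hs)
open Pool.SHR (dir mvp RelvH Shr)
open Pool.PB.Trl (rt rt_mem t_rt)
open Pool.FLF (Fam.sub)
open Pool.F5 (lp gp der_lp dd_gp deg_gp deg_lp eo bdS bdS_slam)

variable {m J : ℕ}

/-- The maximum of a polynomial on the window `n` of size `2 ^ (-w)`. -/
noncomputable def wmx (w n : ℕ) (P : Polynomial ℝ) : ℝ :=
  sSup ((fun t => |P.eval t|) '' Set.Icc ((n : ℝ) / 2 ^ w) (((n : ℝ) + 1) / 2 ^ w))

theorem wmx_mem (w n : ℕ) (P : Polynomial ℝ) :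
    ∃ t ∈ Set.Icc ((n : ℝ) / 2 ^ w) (((n : ℝ) + 1) / 2 ^ w), wmx w n P = |P.eval t| := by
  have hne : (Set.Icc ((n : ℝ) / 2 ^ w) (((n : ℝ) + 1) / 2 ^ w)).Nonempty :=
    Set.nonempty_Icc.2 (div_le_div_of_nonneg_right (by linarith) (by positivity))
  have h1 := (isCompact_Icc (a := (n : ℝ) / 2 ^ w) (b := ((n : ℝ) + 1) / 2 ^ w)).image
    (f := fun t => |P.eval t|) (by fun_prop)
  obtain ⟨t, h2, h3⟩ := h1.sSup_mem (hne.image _)
  exact ⟨t, h2, h3.symm⟩

theorem le_wmx {w n : ℕ} {P : Polynomial ℝ} {t : ℝ}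
    (ht : t ∈ Set.Icc ((n : ℝ) / 2 ^ w) (((n : ℝ) + 1) / 2 ^ w)) : |P.eval t| ≤ wmx w n P := by
  have h1 := (isCompact_Icc (a := (n : ℝ) / 2 ^ w) (b := ((n : ℝ) + 1) / 2 ^ w)).image
    (f := fun t => |P.eval t|) (by fun_prop)
  exact le_csSup h1.bddAbove ⟨t, ht, rfl⟩

theorem wmx_nonneg (w n : ℕ) (P : Polynomial ℝ) : 0 ≤ wmx w n P := by
  obtain ⟨t, -, h⟩ := wmx_mem w n P
  rw [h]
  exact abs_nonneg _

/-- The window of a sample. -/
theorem win_iff {F : Fam m J} {w : ℕ} (hw : w ≤ J) (ω : F.Ω) (t : ℝ) :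
    (F.t ω - rt F w ω / 2 ^ w ≤ t ∧ t ≤ F.t ω + (1 - rt F w ω) / 2 ^ w) ↔
      t ∈ Set.Icc (((slam F w ω).2.2 : ℝ) / 2 ^ w) ((((slam F w ω).2.2 : ℝ) + 1) / 2 ^ w) := by
  have h1 := t_rt F hw ω
  have e3 : F.t ω - rt F w ω / 2 ^ w = ((slam F w ω).2.2 : ℝ) / 2 ^ w := by
    rw [h1]
    ring
  have e4 : F.t ω + (1 - rt F w ω) / 2 ^ w = (((slam F w ω).2.2 : ℝ) + 1) / 2 ^ w := by
    rw [h1]
    ring
  rw [e3, e4]
  exact Iff.rfl

theorem win_selfW {F : Fam m J} {w : ℕ} (hw : w ≤ J) (ω : F.Ω) :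
    F.t ω ∈ Set.Icc (((slam F w ω).2.2 : ℝ) / 2 ^ w) ((((slam F w ω).2.2 : ℝ) + 1) / 2 ^ w) := by
  rw [← win_iff hw]
  obtain ⟨h1, h2⟩ := rt_mem F w ω
  have h3 : 0 ≤ rt F w ω / 2 ^ w := by positivity
  have h4 : 0 ≤ (1 - rt F w ω) / 2 ^ w := div_nonneg (by linarith) (by positivity)
  constructor <;> linarith

/-- **The derivative on the window.** -/
theorem mkv_der (D : ℕ) : ∃ C : ℕ, ∀ {w n : ℕ} {K : ℝ} {P : Polynomial ℝ}, P.natDegree ≤ D →
    (∀ t ∈ Set.Icc ((n : ℝ) / 2 ^ w) (((n : ℝ) + 1) / 2 ^ w), |P.eval t| ≤ K) →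
    ∀ t ∈ Set.Icc ((n : ℝ) / 2 ^ w) (((n : ℝ) + 1) / 2 ^ w),
      |(Polynomial.derivative P).eval t| ≤ 2 ^ (C + w) * K := by
  obtain ⟨C₀, hC₀, hlip⟩ := lip_four D
  obtain ⟨C, hC⟩ := pow_unbounded_of_one_lt C₀ (one_lt_two (α := ℝ))
  refine ⟨C, ?_⟩
  intro w n K P hP hK t ht
  have hw0 : (0 : ℝ) < 2 ^ w := by positivity
  have hK0 : 0 ≤ K := (abs_nonneg _).trans (hK t ht)
  have hb : ∀ x ∈ Set.Icc (0 : ℝ) 1, |(rlt w n P).eval x| ≤ K := by
    intro x hx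
    rw [rlt_eval]
    refine hK _ ⟨?_, ?_⟩
    · exact div_le_div_of_nonneg_right (by linarith [hx.1]) hw0.le
    · exact div_le_div_of_nonneg_right (by linarith [hx.2]) hw0.le
  have h1 := hlip (rlt w n P) K (rlt_deg w n hP) hb
  rw [← Polynomial.deriv, ← Real.norm_eq_abs]
  refine norm_deriv_le_of_lip' (by positivity) ?_
  have h2 : ∀ᶠ x in nhds t, |x - t| < 1 / 2 ^ w := by
    have := Metric.ball_mem_nhds t (ε := 1 / 2 ^ w) (by positivity)
    filter_upwards [this] with x hx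
    rwa [Metric.mem_ball, Real.dist_eq] at hx
  filter_upwards [h2] with x hx
  rw [Real.norm_eq_abs, Real.norm_eq_abs, ← rlt_time w n P x, ← rlt_time w n P t]
  have ht0 : 0 ≤ 2 ^ w * t - n ∧ 2 ^ w * t - n ≤ 1 := by
    obtain ⟨h3, h4⟩ := ht
    rw [div_le_iff₀ hw0] at h3
    rw [le_div_iff₀ hw0] at h4
    constructor <;> linarith
  have hxt : |(2 ^ w * x - n) - (2 ^ w * t - n)| = 2 ^ w * |x - t| := by
    rw [show (2 ^ w * x - n) - (2 ^ w * t - n) = 2 ^ w * (x - t) by ring, abs_mul,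
      abs_of_pos hw0]
  have hx1 : 2 ^ w * |x - t| < 1 := by
    rw [lt_div_iff₀ hw0] at hx
    linarith
  have h5 := h1 (2 ^ w * x - n) (2 ^ w * t - n) (by
    rw [← hxt] at hx1
    have h6 := (abs_le.1 hx1.le)
    rw [abs_le]
    constructor <;> linarith [h6.1, h6.2, ht0.1, ht0.2]) (by
    rw [abs_le]
    constructor <;> linarith [ht0.1, ht0.2])
  refine h5.trans ?_
  rw [hxt, pow_add]
  have h7 : C₀ * K ≤ 2 ^ C * K := mul_le_mul_of_nonneg_right hC.le hK0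
  calc C₀ * K * (2 ^ w * |x - t|) ≤ 2 ^ C * K * (2 ^ w * |x - t|) :=
        mul_le_mul_of_nonneg_right h7 (by positivity)
    _ = 2 ^ C * 2 ^ w * K * |x - t| := by ring

/-! ### The closed derivative along the line -/

/-- **The derivative in the direction `e_k` along the line**, as a polynomial of the time. -/
noncomputable def gcl {F : Fam m J} (k : Fin m) (P : MvPolynomial (Option (Fin m)) ℝ)
    (s : LnT F) : Polynomial ℝ := lp (gp P (eo (some k))) (x0S s) (bdS s)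

theorem gcl_der {F : Fam m J} (k : Fin m) (P : MvPolynomial (Option (Fin m)) ℝ) (s : LnT F) :
    Polynomial.derivative (gcl k P s) = hcl k P s := rfl

theorem dd_eoW (P : MvPolynomial (Option (Fin m)) ℝ) (b : Option (Fin m) → ℝ)
    (o : Option (Fin m)) : dd P b (eo o) = eval b (pderiv o P) := by
  unfold dd eo
  simp

theorem gcl_eval (F : Fam m J) (w : ℕ) (ω : F.Ω) (k : Fin m)
    (P : MvPolynomial (Option (Fin m)) ℝ) (t : ℝ) :
    (gcl k P (slam F w ω)).eval t =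
      eval (bt F ω + (t - F.t ω) • bd F ω) (pderiv (some k) P) := by
  unfold gcl
  rw [Pool.F5.eval_lp, Pool.F5.eval_gp, pt_slam, dd_eoW]

theorem gcl_self (F : Fam m J) (w : ℕ) (ω : F.Ω) (k : Fin m)
    (P : MvPolynomial (Option (Fin m)) ℝ) :
    (gcl k P (slam F w ω)).eval (F.t ω) = eval (bt F ω) (pderiv (some k) P) := by
  rw [gcl_eval, sub_self, zero_smul, add_zero]

theorem gcl_deg {F : Fam m J} {D : ℕ} (k : Fin m) {P : MvPolynomial (Option (Fin m)) ℝ}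
    (hD : P.totalDegree ≤ D) (s : LnT F) : (gcl k P s).natDegree ≤ D := by
  unfold gcl
  exact deg_lp (deg_gp hD _) _ _

/-- The derivative of a label of `c 2` in a direction with `v (c 1) = 1`, `v (c 0) = 0`. -/
theorem dir_twoW {c : ℕ → Fin m} (hc : Set.InjOn c (Set.Iio 2)) {v : Fin m → ℝ}
    {P : MvPolynomial (Option (Fin m)) ℝ} (hP : DepC c 2 P) (h1 : v (c 1) = 1) (h0 : v (c 0) = 0)
    (b : Option (Fin m) → ℝ) : eval b (dir v P) = eval b (pderiv (some (c 1)) P) := by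
  rw [Pool.SHR.dir_eq hc v hP b, Finset.sum_range_succ, Finset.sum_range_one, h0, h1]
  ring

/-- **The variation of the closed derivative over a shorter window.** -/
theorem gcl_var {F : Fam m J} {w w' : ℕ} (hww : w ≤ w') (hw' : w' ≤ J) {k : Fin m}
    {P : MvPolynomial (Option (Fin m)) ℝ} {K : ℝ} {ω ω' : F.Ω}
    (hs : slam F w' ω = slam F w' ω')
    (hK : wmx w (slam F w ω).2.2 (hcl k P (slam F w ω)) ≤ K) :
    |eval (bt F ω) (pderiv (some k) P) - eval (bt F ω') (pderiv (some k) P)| ≤ K / 2 ^ w' := by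
  have hw : w ≤ J := hww.trans hw'
  have e1 : slam F w ω = slam F w ω' := by
    rw [← slam_coarse' F hww hw' ω, ← slam_coarse' F hww hw' ω', hs]
  rw [← gcl_self F w ω k P, ← gcl_self F w ω' k P, ← e1]
  have h1 := win_selfW hw ω
  have h2 := win_selfW hw ω'
  rw [← e1] at h2
  have h3 := t_win hw' hs
  have hK0 : 0 ≤ K := (wmx_nonneg _ _ _).trans hK
  have h4 := (convex_Icc (((slam F w ω).2.2 : ℝ) / 2 ^ w)
    ((((slam F w ω).2.2 : ℝ) + 1) / 2 ^ w)).norm_image_sub_le_of_norm_hasDerivWithin_le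
    (f := fun t => (gcl k P (slam F w ω)).eval t)
    (f' := fun t => (hcl k P (slam F w ω)).eval t) (C := K)
    (fun t _ => ((gcl k P (slam F w ω)).hasDerivAt t).hasDerivWithinAt)
    (fun t ht => by
      rw [Real.norm_eq_abs]
      exact (le_wmx ht).trans hK) h2 h1
  rw [Real.norm_eq_abs, Real.norm_eq_abs] at h4
  refine h4.trans ?_
  calc K * |F.t ω - F.t ω'| ≤ K * (1 / 2 ^ w') := mul_le_mul_of_nonneg_left h3 hK0
    _ = K / 2 ^ w' := by ring

/-- **A crude bound** of the derivative of the closed derivative on the window, at half of the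
samples. -/
theorem hcl_up (m D : ℕ) : ∃ (C : ℕ) (C₁ : ℝ), 1 ≤ C₁ ∧ ∀ {J : ℕ} {F : Fam m J}
    {c : ℕ → Fin m} {a w E s : ℕ} {g : ℕ → ℕ} {A : F.Ω → Prop}
    {G : PtT F → ℕ → MvPolynomial (Option (Fin m)) ℝ}
    {H : LnT F → ℕ → MvPolynomial (Option (Fin m)) ℝ} {θ : ℝ} (hA : 0 < Pe F.p A),
    Set.InjOn c (Set.Iio 3) → w ≤ J → ChOK F c 3 (fun _ => D) a w E g A G H →
    (Fam.sub F A hA).Tm θ → 0 ≤ θ → C₁ * (θ + 1) ≤ ((J : ℝ) - w) * Real.log 2 →
    C₁ * (θ + 1) ≤ s →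
    (∀ ω, A ω → 0 < wmx w (slam F w ω).2.2 (hcl (c 1) (H (slam F w ω) 2) (slam F w ω))) →
    ∃ B : F.Ω → Prop, Sub B A ∧ Pe F.p A / 2 ≤ Pe F.p B ∧ ∀ ω, B ω →
      wmx w (slam F w ω).2.2 (hcl (c 1) (H (slam F w ω) 2) (slam F w ω)) ≤
        2 ^ (C + w + s + E + g 1) := by
  obtain ⟨C₁, hC₁, hrem⟩ := low_rem m D
  obtain ⟨C₂, hder⟩ := mkv_der D
  obtain ⟨C₃, hcmp⟩ := Pool.SHR.slp_cmp D 3
  refine ⟨C₂ + C₃ + 1, C₁, hC₁, ?_⟩
  intro J F c a w E s g A G H θ hA hc hw hL hTm hθ hn1 hn2 hpos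
  have hc2 : Set.InjOn c (Set.Iio 2) := hc.mono (Set.Iio_subset_Iio (by norm_num))
  -- the size of the closed derivative
  have hbig : ∀ ω, A ω → 0 < wmx w (slam F w ω).2.2 (gcl (c 1) (H (slam F w ω) 2) (slam F w ω)) ∧
      ∀ t ∈ Set.Icc (((slam F w ω).2.2 : ℝ) / 2 ^ w) ((((slam F w ω).2.2 : ℝ) + 1) / 2 ^ w),
        |(hcl (c 1) (H (slam F w ω) 2) (slam F w ω)).eval t| ≤ 2 ^ (C₂ + w) *
          wmx w (slam F w ω).2.2 (gcl (c 1) (H (slam F w ω) 2) (slam F w ω)) := by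
    intro ω hω
    have h1 := hder (w := w) (n := (slam F w ω).2.2)
      (K := wmx w (slam F w ω).2.2 (gcl (c 1) (H (slam F w ω) 2) (slam F w ω)))
      (P := gcl (c 1) (H (slam F w ω) 2) (slam F w ω)) (gcl_deg _ (hL.degH _ _) _)
      (fun t ht => le_wmx ht)
    rw [gcl_der] at h1
    refine ⟨?_, h1⟩
    obtain ⟨t, ht, h2⟩ := wmx_mem w (slam F w ω).2.2 (hcl (c 1) (H (slam F w ω) 2) (slam F w ω))
    have h3 := h1 t ht
    rw [← h2] at h3
    have h4 := hpos ω hω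
    by_contra h5
    push Not at h5
    have h6 : (2 : ℝ) ^ (C₂ + w) * wmx w (slam F w ω).2.2
        (gcl (c 1) (H (slam F w ω) 2) (slam F w ω)) ≤ 0 :=
      mul_nonpos_of_nonneg_of_nonpos (by positivity) h5
    linarith
  obtain ⟨B, k1, k2, k3⟩ := hrem hA (fun s' => gcl (c 1) (H s' 2) s')
    (fun s' => wmx w s'.2.2 (gcl (c 1) (H s' 2) s')) hw
    (fun s' => gcl_deg _ (hL.degH _ _) _) hTm hθ hn1 hn2 (fun ω hω => by
      refine ⟨(hbig ω hω).1, ?_⟩
      obtain ⟨t, ht, h2⟩ := wmx_mem w (slam F w ω).2.2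
        (gcl (c 1) (H (slam F w ω) 2) (slam F w ω))
      obtain ⟨h3, h4⟩ := (win_iff hw ω t).2 ht
      exact ⟨t, h3, h4, h2.le⟩)
  refine ⟨B, k1, k2, fun ω hω => ?_⟩
  have hω' := k1 ω hω
  obtain ⟨-, h1⟩ := hbig ω hω'
  obtain ⟨t, ht, h2⟩ := wmx_mem w (slam F w ω).2.2 (hcl (c 1) (H (slam F w ω) 2) (slam F w ω))
  have h3 := h1 t ht
  rw [← h2] at h3
  have h4 := k3 ω hω
  rw [gcl_self, div_le_iff₀ (by positivity)] at h4
  -- the value at the sample
  have h5 : |eval (bt F ω) (pderiv (some (c 1)) (G (ptr F J ω) 2))| ≤ 2 ^ (E + nlp g 1 2) :=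
    hL.lip ω hω' 2 (by norm_num) (bt F ω) (hL.self hω' (by norm_num)) 1 (by norm_num)
  have h6 := hcmp (c := c) (l := 1) (i := 2) (a := a) (k := 0) (y := 0) (p := g 2) (g := g)
    (G := G) (v := fun _ => Function.update 0 (c 1) 1)
    (P := G (ptr F J ω) 2 - H (slam F w ω) 2) (ω := ω) (b := bt F ω) (by norm_num) hc2
    hL.degG hL.depG (fun b b' hn hb => by
      rw [map_sub, map_sub, hL.depG _ 2 b b' hn hb, hL.depH _ 2 b b' hn hb])
    ((totalDegree_sub _ _).trans (max_le (hL.degG _ 2) (hL.degH _ 2)))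
    (Function.update_self _ _ _) (fun j hj => by
      have hne : c j ≠ c 1 := fun he => by
        have := hc2 (show j < 2 by omega) (show 1 < 2 by norm_num) he
        omega
      rw [Function.update_of_ne hne]
      rfl)
    (fun j hj hlj => by omega) (hL.self hω' (by norm_num)) (fun b hb => by
      rw [map_sub, pow_zero]
      exact hL.agr ω hω' 2 (by norm_num) b hb)
  rw [dir_twoW hc2 (fun b b' hn hb => by
      rw [map_sub, map_sub, hL.depG _ 2 b b' hn hb, hL.depH _ 2 b b' hn hb])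
    (Function.update_self _ _ _) (by
      have hne : c 0 ≠ c 1 := fun he => by
        have := hc2 (show 0 < 2 by norm_num) (show 1 < 2 by norm_num) he
        omega
      rw [Function.update_of_ne hne]
      rfl), map_sub, map_sub] at h6
  have h7 : nlp g 1 2 ≤ g 1 := by
    unfold nlp
    have : (Finset.Icc 1 2).sup g ≤ g 1 + g 2 := Finset.sup_le fun x hx => by
      obtain ⟨h8, h9⟩ := Finset.mem_Icc.1 hx
      interval_cases x <;> omega
    omega
  have h8 : |eval (bt F ω) (pderiv (some (c 1)) (H (slam F w ω) 2))| ≤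
      2 ^ (C₃ + 1 + E + g 1) := by
    have e1 : eval (bt F ω) (pderiv (some (c 1)) (H (slam F w ω) 2)) =
        eval (bt F ω) (pderiv (some (c 1)) (G (ptr F J ω) 2)) -
        (eval (bt F ω) (pderiv (some (c 1)) (G (ptr F J ω) 2)) -
          eval (bt F ω) (pderiv (some (c 1)) (H (slam F w ω) 2))) := by ring
    rw [e1]
    refine (abs_sub _ _).trans ?_
    have f1 : (2 : ℝ) ^ (E + nlp g 1 2) ≤ 2 ^ (C₃ + E + g 1) :=
      pow_le_pow_right₀ (by norm_num) (by omega)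
    have f2 : (2 : ℝ) ^ (C₃ * (0 + 0 + 1)) * 2 ^ g 1 / 2 ^ g 2 ≤ 2 ^ (C₃ + E + g 1) := by
      rw [div_le_iff₀ (by positivity)]
      have f3 : (2 : ℝ) ^ (C₃ * (0 + 0 + 1)) * 2 ^ g 1 = 2 ^ (C₃ + g 1) := by
        rw [pow_add]
        congr 2
        omega
      rw [f3]
      calc (2 : ℝ) ^ (C₃ + g 1) ≤ 2 ^ (C₃ + E + g 1) := pow_le_pow_right₀ (by norm_num) (by omega)
        _ = 2 ^ (C₃ + E + g 1) * 1 := (mul_one _).symm
        _ ≤ _ := mul_le_mul_of_nonneg_left (one_le_pow₀ (by norm_num)) (by positivity)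
    have f4 : (2 : ℝ) ^ (C₃ + 1 + E + g 1) = 2 ^ (C₃ + E + g 1) + 2 ^ (C₃ + E + g 1) := by
      rw [show C₃ + 1 + E + g 1 = (C₃ + E + g 1) + 1 by omega, pow_succ]
      ring
    rw [f4]
    exact add_le_add (h5.trans f1) (h6.trans f2)
  refine h3.trans ?_
  have h9 : wmx w (slam F w ω).2.2 (gcl (c 1) (H (slam F w ω) 2) (slam F w ω)) ≤
      2 ^ (C₃ + 1 + E + g 1) * 2 ^ s :=
    h4.trans (mul_le_mul_of_nonneg_right h8 (by positivity))
  calc (2 : ℝ) ^ (C₂ + w) * wmx w (slam F w ω).2.2 (gcl (c 1) (H (slam F w ω) 2) (slam F w ω))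
      ≤ 2 ^ (C₂ + w) * (2 ^ (C₃ + 1 + E + g 1) * 2 ^ s) :=
        mul_le_mul_of_nonneg_left h9 (by positivity)
    _ = _ := by
      rw [← pow_add, ← pow_add]
      congr 1
      ring

end Pool.NVX
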