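import Pool.Agent.H87.NV.AlgM

/-!
# No large closed quadratic relation of the slope

`alg2`: from `alg_mu` (the root in the time) and `alg_fin` (the end). `alg1`: the linear case.
-/

set_option autoImplicit false

namespace Pool.NVX

open Finset Real MvPolynomial
open Pool.Agent.H49.Ent Pool.Agent.H32.Dense Pool.STK Pool.KA Pool.KSAT Pool.K2S Pool.PB Pool.S6C
open Pool.GEN Pool.CHT
open Pool.PB.Trl (rt rt_mem t_rt)
open Pool.FLF (Fam.sub)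

variable {m J : ℕ}

/-- **No large closed quadratic relation of the slope** `X` of `c 1` at the ball `a`: `q 0, q 1, q 2`
closed at the window `w`, in the frame `ξ` closed at `w`, unit `2 ^ g 0 / 2 ^ n₁` (`n₁` = the level of
the label of `c 1` at the pair `(a, w)`). -/
theorem alg2 (m D M : ℕ) : ∃ (C : ℕ) (C₁ : ℝ), 1 ≤ C₁ ∧
    ∀ {J : ℕ} {F : Fam m J} {c : ℕ → Fin m} {a w w₂ e h n n₁ p s x D' D₂ G : ℕ} {g : ℕ → ℕ}
    {κ θ : ℝ} {B₀ B : F.Ω → Prop}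
    {T : PtT F → ℕ → MvPolynomial (Option (Fin m)) ℝ}
    {TH : LnT F → ℕ → MvPolynomial (Option (Fin m)) ℝ}
    {ν : PtT F → F.Ω} {X : PtT F → ℝ} {ξ : LnT F → Polynomial ℝ}
    {q : ℕ → LnT F → Polynomial ℝ} {η : LnT F → ℝ},
    Set.InjOn c (Set.Iio 2) → C ≤ D₂ → RelvF F c 2 a w₂ g D₂ h κ B₀ T →
    ChOK F c 2 (fun _ => D') a w₂ e g B₀ T TH → Sub B B₀ → 0 < Pe F.p B →
    0 ≤ κ → κ * 2 ^ C * Pe F.p B₀ ≤ Pe F.p B →
    w + C * (n + h + s + 1) ≤ w₂ → w₂ ≤ a → a ≤ J →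
    (∀ (B' : F.Ω → Prop) (hB' : 0 < Pe F.p B'), Sub B' B → Pe F.p B ≤ 2 ^ C * Pe F.p B' →
      (Fam.sub F B' hB').Tm θ) → 0 ≤ θ → C₁ * (θ + 1) ≤ ((J : ℝ) - w) * Real.log 2 →
    C₁ * (θ + 1) ≤ s →
    -- the levels: the own side of `c 1` at `(a, w₂)` against the one at `(a, w)`
    g 1 + w * M ≤ n₁ + w₂ * M →
    (∀ s', (ξ s').natDegree ≤ D) → (∀ i < 3, ∀ s', (q i s').natDegree ≤ D) →
    (∀ ω, B ω → ptr F J (ν (ptr F J ω)) = ptr F J ω) →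
    (∀ ω, B ω → |X (ptr F J ω)| ≤ 2 ^ x) → x + g 1 + C * (n + h + 1) ≤ J →
    (∀ ω, B ω → |(bd F ω (some (c 1)) - bd F (ν (ptr F J ω)) (some (c 1))) -
      X (ptr F J ω) * (bd F ω (some (c 0)) - bd F (ν (ptr F J ω)) (some (c 0)))| ≤
        2 ^ a / 2 ^ (g 1 + p)) → C * (n + h + 1) ≤ p →
    (∀ ω, B ω → ∀ b, NBx c (T (ptr F J ω)) g a (F.t ω) 1 b →
      |b (some (c 0)) - (F.x ω (c 0) + (b none - F.t ω) * bd F ω (some (c 0)))| ≤
        2 ^ n / 2 ^ g 0) →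
    (∀ ω, B ω → ∀ b, NBx c (T (ptr F J ω)) g a (F.t ω) 2 b →
      |(b (some (c 1)) - (F.x ω (c 1) + (b none - F.t ω) * bd F ω (some (c 1)))) -
        X (ptr F J ω) *
        (b (some (c 0)) - (F.x ω (c 0) + (b none - F.t ω) * bd F ω (some (c 0))))| ≤
        2 ^ n / 2 ^ g 1) →
    -- the slope is near the frame
    (∀ ω, B ω → ∀ t : ℝ, |t - F.t ω| ≤ 1 / 2 ^ a →
      |X (ptr F J ω) - (ξ (slam F w ω)).eval t| ≤ 2 ^ n * (2 ^ g 0 / 2 ^ n₁)) →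
    -- the quadratic relation
    (∀ ω, B ω → ∀ t : ℝ, |t - F.t ω| ≤ 1 / 2 ^ a →
      |(q 0 (slam F w ω)).eval t + 2 * (q 1 (slam F w ω)).eval t *
          ((X (ptr F J ω) - (ξ (slam F w ω)).eval t) / (2 ^ g 0 / 2 ^ n₁)) +
        (q 2 (slam F w ω)).eval t *
          ((X (ptr F J ω) - (ξ (slam F w ω)).eval t) / (2 ^ g 0 / 2 ^ n₁)) ^ 2| ≤
        η (slam F w ω)) →
    -- one coefficient is large on the window `w`
    C * (w₂ + n + h + s + 1) ≤ G + C * w →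
    (∀ ω, B ω → ∃ i < 3, 2 ^ G * η (slam F w ω) <
      wmx w (slam F w ω).2.2 (q i (slam F w ω))) → False := by
  classical
  obtain ⟨K, C₁, hC₁, hmu⟩ := alg_mu m D M
  have pw : ∀ {x y : ℕ}, x ≤ y → (2 : ℝ) ^ x ≤ 2 ^ y := fun h => pow_le_pow_right₀ (by norm_num) h
  obtain ⟨Dm, hDm⟩ : ∃ Dm, Dm = 2 ^ M * (2 * D) + D := ⟨_, rfl⟩
  obtain ⟨C, hC⟩ : ∃ C, C = 15 * K + M + D + Dm + 30 := ⟨_, rfl⟩
  refine ⟨C, C₁, hC₁, ?_⟩
  intro J F c a w w₂ e h n n₁ p s x D' D₂ G g κ θ B₀ B T TH ν X ξ q η hc hD₂ hR hL hB hPB hκ hκP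
    hww hw2a haJ hTm hθ hθJ hθs hgM hξ hq hν hX hxJ hv hp hb1 hb2 hy hrel hG hbig
  obtain ⟨T₀, hT₀⟩ : ∃ T₀, T₀ = n + h + s + 1 := ⟨_, rfl⟩
  have hT1 : 1 ≤ T₀ := by omega
  rw [← hT₀] at hww
  obtain ⟨N, hN⟩ : ∃ N, N = 3 * n + h + s + 10 := ⟨_, rfl⟩
  have hsT : s + N + 1 ≤ 15 * T₀ := by omega
  have hKT : K * (s + N + 1) ≤ 15 * K * T₀ := by
    calc K * (s + N + 1) ≤ K * (15 * T₀) := Nat.mul_le_mul_left _ hsT
      _ = _ := by ring
  have hCT : C * T₀ = 15 * K * T₀ + (M + D + Dm + 30) * T₀ := by rw [hC]; ring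
  have mT : ∀ x : ℕ, x ≤ x * T₀ := fun x => Nat.le_mul_of_pos_right _ hT1
  have hw : w ≤ w₂ := by omega
  have hw₂J : w₂ ≤ J := hw2a.trans haJ
  have hwJ : w ≤ J := hw.trans hw₂J
  have hKC : K ≤ C := by rw [hC]; omega
  obtain ⟨Y, hY⟩ : ∃ Y, Y = w₂ - w := ⟨_, rfl⟩
  have hwY : w₂ = w + Y := by omega
  have hGC : C * (Y + T₀) ≤ G := by
    have e1 : C * (w₂ + n + h + s + 1) = C * w + C * (Y + T₀) := by
      rw [hwY, hT₀]
      ring
    omega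
  have hG1 : K * (w₂ + s + N + 1) ≤ G + K * w := by
    have e1 : K * (w₂ + s + N + 1) = K * w + K * (Y + (s + N + 1)) := by
      rw [hwY]
      ring
    have e2 : K * (Y + (s + N + 1)) ≤ C * (Y + T₀) := by
      calc K * (Y + (s + N + 1)) ≤ K * (15 * (Y + T₀)) := Nat.mul_le_mul_left _ (by omega)
        _ = 15 * K * (Y + T₀) := by ring
        _ ≤ _ := Nat.mul_le_mul_right _ (by rw [hC]; omega)
    omega
  have hself : ∀ ω, |F.t ω - F.t ω| ≤ 1 / 2 ^ a := fun ω => by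
    rw [sub_self, abs_zero]; positivity
  have hη : ∀ ω, B ω → 0 ≤ η (slam F w ω) := fun ω hω =>
    (abs_nonneg _).trans (hrel ω hω _ (hself ω))
  -- the size
  obtain ⟨R, hR'⟩ : ∃ R : LnT F → ℝ, R = fun s' => max (wmx w s'.2.2 (q 0 s'))
    (max (wmx w s'.2.2 (q 1 s')) (wmx w s'.2.2 (q 2 s'))) := ⟨_, rfl⟩
  have hRi : ∀ s', ∀ i < 3, wmx w s'.2.2 (q i s') ≤ R s' := by
    intro s' i hi
    rw [hR']
    interval_cases i
    · exact le_max_left _ _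
    · exact (le_max_left _ _).trans (le_max_right _ _)
    · exact (le_max_right _ _).trans (le_max_right _ _)
  have hRe : ∀ s', ∃ i < 3, R s' = wmx w s'.2.2 (q i s') := by
    intro s'
    rw [hR']
    simp only
    rcases max_choice (wmx w s'.2.2 (q 0 s'))
      (max (wmx w s'.2.2 (q 1 s')) (wmx w s'.2.2 (q 2 s'))) with h1 | h1
    · exact ⟨0, by norm_num, h1⟩
    · rcases max_choice (wmx w s'.2.2 (q 1 s')) (wmx w s'.2.2 (q 2 s')) with h2 | h2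
      · exact ⟨1, by norm_num, h1.trans h2⟩
      · exact ⟨2, by norm_num, h1.trans h2⟩
  have hRpos : ∀ ω, B ω → 2 ^ G * η (slam F w ω) < R (slam F w ω) := by
    intro ω hω
    obtain ⟨i, hi, h1⟩ := hbig ω hω
    exact h1.trans_le (hRi _ i hi)
  have hR0 : ∀ ω, B ω → 0 < R (slam F w ω) := fun ω hω =>
    lt_of_le_of_lt (mul_nonneg (by positivity) (hη ω hω)) (hRpos ω hω)
  obtain ⟨Q, hQ⟩ : ∃ Q : ℕ → LnT F → Polynomial ℝ,
    Q = fun i s' => Polynomial.C (1 / R s') * q i s' := ⟨_, rfl⟩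
  have hQe : ∀ i s' (t : ℝ), (Q i s').eval t = (q i s').eval t / R s' := by
    intro i s' t
    rw [hQ]
    simp only [Polynomial.eval_mul, Polynomial.eval_C]
    ring
  have hQd : ∀ i < 3, ∀ s', (Q i s').natDegree ≤ D := by
    intro i hi s'
    rw [hQ]
    exact (Polynomial.natDegree_C_mul_le _ _).trans (hq i hi s')
  have hQ1 : ∀ ω, B ω → ∀ i < 3, ∀ t : ℝ, F.t ω - rt F w ω / 2 ^ w ≤ t →
      t ≤ F.t ω + (1 - rt F w ω) / 2 ^ w → |(Q i (slam F w ω)).eval t| ≤ 1 := by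
    intro ω hω i hi t t1 t2
    have h1 := (le_wmx (P := q i (slam F w ω)) ((win_iff hwJ ω t).1 ⟨t1, t2⟩)).trans
      (hRi (slam F w ω) i hi)
    rw [hQe, abs_div, abs_of_pos (hR0 ω hω), div_le_one (hR0 ω hω)]
    exact h1
  have hQbig : ∀ ω, B ω → ∃ i < 3, 1 ≤ wmx w (slam F w ω).2.2 (Q i (slam F w ω)) := by
    intro ω hω
    obtain ⟨i, hi, h1⟩ := hRe (slam F w ω)
    refine ⟨i, hi, ?_⟩
    obtain ⟨t, ht, h2⟩ := wmx_mem w (slam F w ω).2.2 (q i (slam F w ω))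
    refine le_trans (le_of_eq ?_) (le_wmx (P := Q i (slam F w ω)) ht)
    rw [hQe, abs_div, abs_of_pos (hR0 ω hω), ← h2, ← h1, div_self (hR0 ω hω).ne']
  obtain ⟨y, hyd⟩ : ∃ y : F.Ω → ℝ → ℝ, y = fun ω t =>
    (X (ptr F J ω) - (ξ (slam F w ω)).eval t) / (2 ^ g 0 / 2 ^ n₁) := ⟨_, rfl⟩
  have hye : ∀ ω t, y ω t = (X (ptr F J ω) - (ξ (slam F w ω)).eval t) /
    (2 ^ g 0 / 2 ^ n₁) := fun ω t => by rw [hyd]
  have hQr : ∀ ω, B ω → ∀ t : ℝ, |t - F.t ω| ≤ 1 / 2 ^ a →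
      |(Q 0 (slam F w ω)).eval t + 2 * (Q 1 (slam F w ω)).eval t * y ω t +
        (Q 2 (slam F w ω)).eval t * y ω t ^ 2| ≤ 1 / 2 ^ G := by
    intro ω hω t ht
    have h1 := hrel ω hω t ht
    rw [← hye] at h1
    have h0 := hR0 ω hω
    have e1 : (Q 0 (slam F w ω)).eval t + 2 * (Q 1 (slam F w ω)).eval t * y ω t +
        (Q 2 (slam F w ω)).eval t * y ω t ^ 2 = ((q 0 (slam F w ω)).eval t +
          2 * (q 1 (slam F w ω)).eval t * y ω t + (q 2 (slam F w ω)).eval t * y ω t ^ 2) /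
        R (slam F w ω) := by
      rw [hQe, hQe, hQe]
      field_simp
    rw [e1, abs_div, abs_of_pos h0, div_le_div_iff₀ h0 (by positivity), one_mul]
    calc _ ≤ η (slam F w ω) * 2 ^ G := mul_le_mul_of_nonneg_right h1 (by positivity)
      _ = 2 ^ G * η (slam F w ω) := mul_comm _ _
      _ ≤ _ := (hRpos ω hω).le
  obtain ⟨B', μ, b1, p1, hμd, hlow, heq1, hvar⟩ := hmu (F := F) (a := a) (w := w) (w₂ := w₂)
    (s := s) (N := N) (G := G) (θ := θ) (B := B) (y := y) (q := Q) hPB hw2a haJ (by omega) hG1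
    (fun B' hB' h1 h2 => hTm B' hB' h1 (h2.trans (mul_le_mul_of_nonneg_right (pw hKC)
      (Pe_nonneg F.isLaw B')))) hθ hθJ hθs hQd hQ1 hQbig (fun ω => by
      rw [hyd]
      exact (continuous_const.sub (ξ (slam F w ω)).continuous).div_const _) hQr
  obtain ⟨L, hL'⟩ : ∃ L, L = (w₂ - w) * M := ⟨_, rfl⟩
  rw [← hL'] at heq1
  have hgL : g 1 ≤ n₁ + L := by
    have e1 : w₂ * M = w * M + L := by
      rw [hL', ← hY, hwY]
      ring
    omega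
  have hLG : L + N ≤ G := by
    have e1 : L = Y * M := by rw [hL', hY]
    have e2 : C * (Y + T₀) = M * Y + (15 * K + D + Dm + 30) * Y + C * T₀ := by
      rw [hC]; ring
    have e3 : Y * M = M * Y := mul_comm _ _
    have e4 : N ≤ C * T₀ := by
      have := mT (M + D + Dm)
      have e5 : (M + D + Dm + 30) * T₀ = (M + D + Dm) * T₀ + 30 * T₀ := by ring
      omega
    omega
  have hxx : x + g 1 + h + 3 ≤ J ∧ h + 2 ≤ p := by
    have h1 : 3 * (n + h + 1) ≤ C * (n + h + 1) := Nat.mul_le_mul_right _ (by rw [hC]; omega)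
    omega
  refine alg_fin (F := F) (c := c) (D := D) (Dm := Dm) (D' := D') (D₂ := D₂) (a := a) (w := w)
    (w₂ := w₂) (e := e) (h := h) (n := n) (n₁ := n₁) (p := p) (s := s) (x := x) (L := L)
    (g := g) (κ := κ) (ρ := 1 / 2 ^ (L + N)) (δ₁ := 1 / 2 ^ N) (B₀ := B₀) (B := B') (T := T)
    (TH := TH) (ν := ν) (X := X) (ξ := ξ) (μ := μ) (q := Q) hc hR hL (by
      have : D + Dm + 2 ≤ C := by rw [hC]; omega
      omega) (fun ω h => hB ω (b1 ω h)) hκ ?_ (by linarith) hw hw2a haJ hξ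
    (fun i hi s' => (hQd i hi s').trans (by rw [hDm]; omega)) (fun s' => (hμd s').trans (by
      rw [hDm]; omega)) (fun ω h => hν ω (b1 ω h)) (fun ω h => hX ω (b1 ω h)) hxx.1
    (fun ω h => hv ω (b1 ω h)) hxx.2 (fun ω h => hb1 ω (b1 ω h)) (fun ω h => hb2 ω (b1 ω h))
    ?_ ?_ ?_ hlow (by positivity) (fun ω hω t ht => (hvar ω hω t ht).1)
    (fun ω hω t ht => (hvar ω hω t ht).2) hgL ?_ ?_
  · have h1 : κ * 2 ^ 5 * Pe F.p B₀ ≤ κ * 2 ^ C * Pe F.p B₀ :=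
      mul_le_mul_of_nonneg_right (mul_le_mul_of_nonneg_left (pw (by rw [hC]; omega)) hκ)
        (Pe_nonneg F.isLaw B₀)
    have h2 : κ * 2 ^ 5 * Pe F.p B₀ = 16 * (κ * 2 * Pe F.p B₀) := by ring
    linarith
  · intro ω hω t ht
    have h1 := hy ω (b1 ω hω) t ht
    rw [abs_div, abs_of_pos (show (0 : ℝ) < 2 ^ g 0 / 2 ^ n₁ by positivity),
      div_le_iff₀ (by positivity)]
    exact h1
  · intro ω hω t ht
    rw [← hye]
    exact heq1 ω hω t ht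
  · intro ω hω t ht
    rw [← hye]
    refine (hQr ω (b1 ω hω) t ht).trans ?_
    exact one_div_le_one_div_of_le (by positivity) (pw hLG)
  · rw [mul_one_div, div_le_one (by positivity)]
    exact pw (by omega)
  · rw [mul_one_div, div_le_one (by positivity)]
    exact pw (by omega)

/-- **No large closed linear relation of the slope.** -/
theorem alg1 (m D M : ℕ) : ∃ (C : ℕ) (C₁ : ℝ), 1 ≤ C₁ ∧
    ∀ {J : ℕ} {F : Fam m J} {c : ℕ → Fin m} {a w w₂ e h n n₁ p s x D' D₂ G : ℕ} {g : ℕ → ℕ}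
    {κ θ : ℝ} {B₀ B : F.Ω → Prop}
    {T : PtT F → ℕ → MvPolynomial (Option (Fin m)) ℝ}
    {TH : LnT F → ℕ → MvPolynomial (Option (Fin m)) ℝ}
    {ν : PtT F → F.Ω} {X : PtT F → ℝ} {ξ P₀ P₁ : LnT F → Polynomial ℝ} {η : LnT F → ℝ},
    Set.InjOn c (Set.Iio 2) → C ≤ D₂ → RelvF F c 2 a w₂ g D₂ h κ B₀ T →
    ChOK F c 2 (fun _ => D') a w₂ e g B₀ T TH → Sub B B₀ → 0 < Pe F.p B →
    0 ≤ κ → κ * 2 ^ C * Pe F.p B₀ ≤ Pe F.p B →
    w + C * (n + h + s + 1) ≤ w₂ → w₂ ≤ a → a ≤ J →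
    (∀ (B' : F.Ω → Prop) (hB' : 0 < Pe F.p B'), Sub B' B → Pe F.p B ≤ 2 ^ C * Pe F.p B' →
      (Fam.sub F B' hB').Tm θ) → 0 ≤ θ → C₁ * (θ + 1) ≤ ((J : ℝ) - w) * Real.log 2 →
    C₁ * (θ + 1) ≤ s →
    g 1 + w * M ≤ n₁ + w₂ * M →
    (∀ s', (ξ s').natDegree ≤ D) → (∀ s', (P₀ s').natDegree ≤ D) →
    (∀ s', (P₁ s').natDegree ≤ D) →
    (∀ ω, B ω → ptr F J (ν (ptr F J ω)) = ptr F J ω) →
    (∀ ω, B ω → |X (ptr F J ω)| ≤ 2 ^ x) → x + g 1 + C * (n + h + 1) ≤ J →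
    (∀ ω, B ω → |(bd F ω (some (c 1)) - bd F (ν (ptr F J ω)) (some (c 1))) -
      X (ptr F J ω) * (bd F ω (some (c 0)) - bd F (ν (ptr F J ω)) (some (c 0)))| ≤
        2 ^ a / 2 ^ (g 1 + p)) → C * (n + h + 1) ≤ p →
    (∀ ω, B ω → ∀ b, NBx c (T (ptr F J ω)) g a (F.t ω) 1 b →
      |b (some (c 0)) - (F.x ω (c 0) + (b none - F.t ω) * bd F ω (some (c 0)))| ≤
        2 ^ n / 2 ^ g 0) →
    (∀ ω, B ω → ∀ b, NBx c (T (ptr F J ω)) g a (F.t ω) 2 b →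
      |(b (some (c 1)) - (F.x ω (c 1) + (b none - F.t ω) * bd F ω (some (c 1)))) -
        X (ptr F J ω) *
        (b (some (c 0)) - (F.x ω (c 0) + (b none - F.t ω) * bd F ω (some (c 0))))| ≤
        2 ^ n / 2 ^ g 1) →
    (∀ ω, B ω → ∀ t : ℝ, |t - F.t ω| ≤ 1 / 2 ^ a →
      |X (ptr F J ω) - (ξ (slam F w ω)).eval t| ≤ 2 ^ n * (2 ^ g 0 / 2 ^ n₁)) →
    (∀ ω, B ω → ∀ t : ℝ, |t - F.t ω| ≤ 1 / 2 ^ a →
      |(P₀ (slam F w ω)).eval t + (P₁ (slam F w ω)).eval t * X (ptr F J ω)| ≤ η (slam F w ω)) →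
    C * (w₂ + n + h + s + 1) ≤ G + C * w →
    (∀ ω, B ω → 2 ^ G * η (slam F w ω) < 2 ^ g 0 / 2 ^ n₁ *
      wmx w (slam F w ω).2.2 (P₁ (slam F w ω))) → False := by
  obtain ⟨C, C₁, hC₁, h2⟩ := alg2 m (2 * D) M
  refine ⟨C + 1, C₁, hC₁, ?_⟩
  intro J F c a w w₂ e h n n₁ p s x D' D₂ G g κ θ B₀ B T TH ν X ξ P₀ P₁ η hc hD₂ hR hL hB hPB hκ
    hκP hww hw2a haJ hTm hθ hθJ hθs hgM hξ hP0 hP1 hν hX hxJ hv hp hb1 hb2 hy hrel hG hbig
  have pw : ∀ {x y : ℕ}, x ≤ y → (2 : ℝ) ^ x ≤ 2 ^ y := fun h => pow_le_pow_right₀ (by norm_num) h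
  obtain ⟨Y₁, hY₁⟩ : ∃ Y₁ : ℝ, Y₁ = 2 ^ g 0 / 2 ^ n₁ := ⟨_, rfl⟩
  have hY0 : 0 < Y₁ := by rw [hY₁]; positivity
  have hw : w ≤ w₂ := (Nat.le_add_right _ _).trans hww
  have e1 : ∀ x : ℕ, (C + 1) * x = C * x + x := fun x => by ring
  rw [← hY₁] at hbig
  obtain ⟨q, hqd⟩ : ∃ q : ℕ → LnT F → Polynomial ℝ, q = fun i s' =>
    if i = 0 then P₀ s' + P₁ s' * ξ s' else if i = 1 then Polynomial.C (Y₁ / 2) * P₁ s' else 0 :=
    ⟨_, rfl⟩
  have hq0 : ∀ s', q 0 s' = P₀ s' + P₁ s' * ξ s' := fun s' => by rw [hqd]; simp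
  have hq1 : ∀ s', q 1 s' = Polynomial.C (Y₁ / 2) * P₁ s' := fun s' => by rw [hqd]; simp
  have hq2 : ∀ s', q 2 s' = 0 := fun s' => by rw [hqd]; simp
  refine h2 (G := G - 1) (q := q) (η := η) hc (by omega) hR hL hB hPB hκ ?_ (by
    have := e1 (n + h + s + 1); omega) hw2a haJ
    (fun B' hB' k1 k2 => hTm B' hB' k1 (k2.trans (mul_le_mul_of_nonneg_right (pw (by omega))
      (Pe_nonneg F.isLaw B')))) hθ hθJ hθs hgM (fun s' => (hξ s').trans (by omega)) ?_ hν hX (by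
    have := e1 (n + h + 1); omega) hv (by have := e1 (n + h + 1); omega) hb1 hb2 hy ?_ ?_ ?_
  · refine le_trans ?_ hκP
    exact mul_le_mul_of_nonneg_right (mul_le_mul_of_nonneg_left (pw (by omega)) hκ)
      (Pe_nonneg F.isLaw B₀)
  · intro i hi s'
    interval_cases i
    · rw [hq0]
      refine (Polynomial.natDegree_add_le _ _).trans (max_le ((hP0 s').trans (by omega)) ?_)
      refine Polynomial.natDegree_mul_le.trans ?_
      have k1 := hP1 s'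
      have k2 := hξ s'
      omega
    · rw [hq1]
      exact (Polynomial.natDegree_C_mul_le _ _).trans ((hP1 s').trans (by omega))
    · rw [hq2]
      simp
  · intro ω hω t ht
    have k1 := hrel ω hω t ht
    rw [hq0, hq1, hq2, ← hY₁]
    simp only [Polynomial.eval_add, Polynomial.eval_mul, Polynomial.eval_C,
      Polynomial.eval_zero, zero_mul, add_zero]
    refine le_trans (le_of_eq ?_) k1
    congr 1
    field_simp
    ring
  · have k1 := e1 (w₂ + n + h + s + 1)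
    have k2 := e1 w
    omega
  · intro ω hω
    refine ⟨1, by norm_num, ?_⟩
    have k1 := hbig ω hω
    obtain ⟨t, ht, k2⟩ := wmx_mem w (slam F w ω).2.2 (P₁ (slam F w ω))
    have k3 := le_wmx (P := q 1 (slam F w ω)) ht
    rw [hq1, Polynomial.eval_mul, Polynomial.eval_C, abs_mul, ← k2,
      abs_of_pos (show 0 < Y₁ / 2 by positivity)] at k3
    rw [hq1]
    refine lt_of_lt_of_le ?_ k3
    have hG1 : 1 ≤ G := by
      have k4 := e1 (w₂ + n + h + s + 1)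
      have k5 := e1 w
      have k6 : C * w ≤ C * (w₂ + n + h + s + 1) := Nat.mul_le_mul_left _ (by omega)
      omega
    have k7 : (2 : ℝ) ^ G = 2 * 2 ^ (G - 1) := by
      rw [← pow_succ', Nat.sub_add_cancel hG1]
    rw [k7] at k1
    linarith

end Pool.NVX
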