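import Pool.Agent.H77.NV.Vis
import Pool.Agent.H77.NV.Rs8
import Pool.Agent.H6.NV.Wr
import Pool.Agent.H87.NV.Alg2
import Pool.Agent.H80.NV.Bxs

/-!
# From the small value of the second derivative on the closed direction to the contradiction

`t3_tail`: the ratio of the closed derivatives is almost constant on the ball (`wr_var`), visible
(`vis_tau`), hence the end (`rel3_vis`).
-/

set_option autoImplicit false

namespace Pool.NVX

open Finset Real MvPolynomial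
open Pool.Agent.H49.Ent Pool.Agent.H32.Dense Pool.STK Pool.KA Pool.KSAT Pool.K2S Pool.PB Pool.S6C
open Pool.GEN Pool.CHT
open Pool.D2R (dd hs)
open Pool.F5 (lp gp der_lp dd_gp deg_gp deg_lp eo bdS bdS_slam)
open Pool.SHR (dir mvp Shr relvF_low)
open Pool.PB.Trl (rt rt_mem t_rt)
open Pool.FLF (Fam.sub)

variable {m J : ℕ}

/-- **The tail**: from the small value of the second derivative of the label of the target on the
direction of the plane and the closed direction. -/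
theorem t3_tail (m D M Q : ℕ) (hD : 1 ≤ D) : ∃ (C : ℕ) (C₁ : ℝ), 1 ≤ C₁ ∧
    ∀ {J : ℕ} {F : Fam m J} {c : ℕ → Fin m}
    {a w w₂ e h n p s x y q Z lam₁ lam₂ D₂ : ℕ} {g gN : ℕ → ℕ} {κ θ : ℝ}
    {B₀ A B : F.Ω → Prop} {N T : PtT F → ℕ → MvPolynomial (Option (Fin m)) ℝ}
    {TH NH : LnT F → ℕ → MvPolynomial (Option (Fin m)) ℝ} {v : PtT F → Fin m → ℝ}
    {X : PtT F → Option (Fin m) → ℝ} {ν₀ : PtT F → F.Ω} {al₁ al₂ : PtT F → ℝ},
    Set.InjOn c (Set.Iio 3) → C ≤ D₂ → RelvF F c 3 a w₂ g D₂ h κ B₀ T →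
    ChOK F c 3 (fun _ => D) a w₂ e g B₀ T TH →
    Rel3 F c a w e n p lam₁ lam₂ D h g gN g A B T T NH v X ν₀ → Sub A B₀ → Sub B A →
    0 < Pe F.p B → 0 ≤ κ → κ * 2 ^ C * Pe F.p B₀ ≤ Pe F.p B →
    w₂ = w + y → w₂ ≤ a → a + 1 ≤ J →
    (∀ (B' : F.Ω → Prop) (hB' : 0 < Pe F.p B'), Sub B' B → Pe F.p B ≤ 2 ^ C * Pe F.p B' →
      (Fam.sub F B' hB').Tm θ) → 0 ≤ θ → C₁ * (θ + 1) ≤ ((J : ℝ) - w) * Real.log 2 →
    C₁ * (θ + 1) ≤ s → g 1 ≤ gN 1 + M * y → gN 1 ≤ g 1 + s →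
    (∀ s' i, (NH s' i).totalDegree ≤ D) → (∀ s', DepC c 3 (NH s' 3)) →
    (∀ y', v y' (c 1) = 1 ∧ v y' (c 0) = 0) → (∀ ω, A ω → Shr F c 1 a g T v x 2 ω) →
    (∀ ω, A ω → ∀ b, NBx c (T (ptr F J ω)) g a (F.t ω) 2 b →
      |eval b (pderiv (some (c 1)) (T (ptr F J ω) 2)) - v (ptr F J ω) (c 2)| ≤
        2 ^ x * 2 ^ g 1 / 2 ^ g 2) →
    (∀ ω, A ω → ∀ b, NBx c (T (ptr F J ω)) g a (F.t ω) 3 b →
      |eval b (dir (v (ptr F J ω)) (NH (slam F w ω) 3)) - al₁ (ptr F J ω)| ≤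
        2 ^ (x + q) * (2 ^ (g 1 + lam₂) / 2 ^ (g 2 + gN 3)) ∧
      |eval b (dir (ek (c 2)) (NH (slam F w ω) 3)) - al₂ (ptr F J ω)| ≤
        2 ^ (x + q) * (2 ^ lam₂ / 2 ^ gN 3) ∧
      |eval b (N (ptr F J ω) 3) - eval b (NH (slam F w ω) 3)| ≤ 2 ^ x / 2 ^ gN 3) →
    -- the frame
    (∀ ω, B ω → ∀ t : ℝ, |t - F.t ω| ≤ 1 / 2 ^ a → |X (ptr F J ω) (some (c 1)) -
      eval (bt F ω + (t - F.t ω) • bd F ω) (pderiv (some (c 0)) (NH (slam F w ω) 1))| ≤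
        2 ^ x * (2 ^ g 0 / 2 ^ gN 1)) →
    -- the sizes
    (∀ ω, B ω → ∀ t : ℝ, F.t ω - rt F w ω / 2 ^ w ≤ t → t ≤ F.t ω + (1 - rt F w ω) / 2 ^ w →
      |(hcl (c 2) (NH (slam F w ω) 3) (slam F w ω)).eval t| ≤ 2 ^ (a + lam₂) / 2 ^ gN 3) →
    (∀ ω, B ω → 2 ^ (a + lam₂) / 2 ^ gN 3 / 2 ^ x ≤
      |(hcl (c 2) (NH (slam F w ω) 3) (slam F w ω)).eval (F.t ω)|) →
    (∀ ω, B ω → |(hcl (c 1) (NH (slam F w ω) 3) (slam F w ω)).eval (F.t ω) +
      v (ptr F J ω) (c 2) * (hcl (c 2) (NH (slam F w ω) 3) (slam F w ω)).eval (F.t ω)| ≤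
      2 ^ (q + a + lam₂) / 2 ^ gN 3 * (2 ^ g 1 / 2 ^ g 2)) →
    lam₁ + g 2 ≤ lam₂ + g 1 + q →
    -- [S6]
    (∀ ω, B ω → |(hcl (c 2) (NH (slam F w ω) 3) (slam F w ω)).eval (F.t ω) *
        hs (NH (slam F w ω) 3) (bt F ω) (X (ptr F J ω)) (eo (some (c 1))) -
      (hcl (c 1) (NH (slam F w ω) 3) (slam F w ω)).eval (F.t ω) *
        hs (NH (slam F w ω) 3) (bt F ω) (X (ptr F J ω)) (eo (some (c 2)))| ≤
      2 ^ Z * (2 ^ (a + lam₂) / 2 ^ gN 3) * (2 ^ (g 0 + g 1) / 2 ^ gN 3) *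
        (1 + 2 ^ lam₁ / 2 ^ (g 1 + p) + 2 ^ lam₂ / 2 ^ (g 2 + p))) →
    -- the numbers
    C * (n + x + h + s + 1) ≤ y → q ≤ Q * y →
    g 2 + C * (q + Z + y + (n + x + h + s + 1)) ≤ lam₂ →
    C * (q + Z + y + (n + x + h + s + 1)) ≤ p →
    (∀ l < 3, e + g l + C * (q + Z + y + (n + x + h + s + 1)) ≤ J) → False := by
  classical
  obtain ⟨cX, hbx⟩ := rel3_bx D hD
  obtain ⟨cW, rW, hrW, hwr⟩ := wr_var (m := m) (D := D) (M := M) (DD := 3 * D) le_rfl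
    (alg2 m (3 * D) M)
  obtain ⟨cV, hvt⟩ := vis_tau m D
  obtain ⟨cE, hend⟩ := rel3_vis D Q hD
  have pw : ∀ {x y : ℕ}, x ≤ y → (2 : ℝ) ^ x ≤ 2 ^ y := fun h => pow_le_pow_right₀ (by norm_num) h
  obtain ⟨C, hC⟩ : ∃ C, C = (cW + 1) * (cX + 3) + 2 * cW + 2 * cV + 2 * cE + cX +
    D * (2 * Q + 4) + 20 := ⟨_, rfl⟩
  refine ⟨C, rW, hrW, ?_⟩
  intro J F c a w w₂ e h n p s x y q Z lam₁ lam₂ D₂ g gN κ θ B₀ A B N T TH NH v X ν₀ al₁ al₂ hc hD₂
    hR hT H hA hB hPB hκ hκP hwy hw2a haJ1 hTm hθ hθJ hθs hg1 hgN hNd hNc hvv hS hdT hbox hfr hup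
    hlow hPv hl1 hS6 n1 n2 n3 n4 n5
  obtain ⟨T₀, hT₀⟩ : ∃ T₀, T₀ = n + x + h + s + 1 := ⟨_, rfl⟩
  have hT1 : 1 ≤ T₀ := by omega
  rw [← hT₀] at n1 n3 n4 n5
  have haJ : a ≤ J := by omega
  have hw : w ≤ w₂ := by omega
  have hwa : w ≤ a := by omega
  have hc2 : Set.InjOn c (Set.Iio 2) := hc.mono (Set.Iio_subset_Iio (by norm_num))
  have mT : ∀ y : ℕ, y ≤ y * T₀ := fun y => Nat.le_mul_of_pos_right _ hT1
  have hBB : Sub B B₀ := fun ω hω => hA ω (hB ω hω)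
  -- the boxes
  obtain ⟨hb1, hb2⟩ := hbx H haJ hB hT.degG hT.depG (by omega)
  obtain ⟨n', hn'⟩ : ∃ n', n' = x + cX * (n + h + 1) := ⟨_, rfl⟩
  have hn'T : n' ≤ (cX + 1) * T₀ := by
    have h1 : cX * (n + h + 1) ≤ cX * T₀ := Nat.mul_le_mul_left _ (by omega)
    have h2 : (cX + 1) * T₀ = cX * T₀ + T₀ := by ring
    omega
  have hnT : n' + h + s + 1 ≤ (cX + 3) * T₀ := by
    have h2 : (cX + 3) * T₀ = (cX + 1) * T₀ + 2 * T₀ := by ring
    omega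
  -- the constants
  obtain ⟨G, hG⟩ : ∃ G, G = cW * (y + (n' + h + s + 1)) := ⟨_, rfl⟩
  obtain ⟨G', hG'⟩ : ∃ G', G' = cE * (n + x + h + 1) := ⟨_, rfl⟩
  obtain ⟨K, hK⟩ : ∃ K, K = G + n + 2 * x + cW + s + cV * (n + x + q + 1) + Z + G' + 5 := ⟨_, rfl⟩
  obtain ⟨W, hW⟩ : ∃ W, W = q + Z + y + T₀ := ⟨_, rfl⟩
  rw [← hW] at n3 n4 n5
  have hGW : G ≤ cW * (cX + 3) * W := by
    rw [hG, Nat.mul_assoc]
    refine Nat.mul_le_mul_left _ ?_
    have h1 : (cX + 3) * T₀ + y ≤ (cX + 3) * W := by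
      have h2 : (cX + 3) * W = (cX + 3) * T₀ + (cX + 3) * (q + Z + y) := by rw [hW]; ring
      have h3 : y ≤ (cX + 3) * (q + Z + y) := by
        calc y ≤ q + Z + y := by omega
          _ ≤ _ := Nat.le_mul_of_pos_left _ (by omega)
      omega
    omega
  have hTW : T₀ ≤ W := by omega
  have hG'W : G' ≤ cE * W := by
    rw [hG']
    exact Nat.mul_le_mul_left _ (by omega)
  have hVW : cV * (n + x + q + 1) ≤ cV * W := Nat.mul_le_mul_left _ (by omega)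
  have mW : ∀ y : ℕ, y ≤ y * W := fun y => Nat.le_mul_of_pos_right _ (by omega)
  have hcWW := mW cW
  have hCW : C * W = (cW + 1) * (cX + 3) * W + 2 * cW * W + 2 * (cV * W) + 2 * (cE * W) + cX * W +
      D * (2 * Q + 4) * W + 20 * W := by rw [hC]; ring
  have hcW1 : (cW + 1) * (cX + 3) * W = cW * (cX + 3) * W + cX * W + 3 * W := by ring
  have hcW2 : 2 * cW * W = cW * W + cW * W := by ring
  have hKW : K + cV * W ≤ C * W := by omega
  have hKW' : K + q + W ≤ C * W := by omega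
  have hCT : C * T₀ = (cW + 1) * (cX + 3) * T₀ + 2 * cW * T₀ + 2 * (cV * T₀) + 2 * (cE * T₀) + cX * T₀ +
      D * (2 * Q + 4) * T₀ + 20 * T₀ := by rw [hC]; ring
  have hcT1 : (cW + 1) * (cX + 3) * T₀ = cW * (cX + 3) * T₀ + cX * T₀ + 3 * T₀ := by ring
  have hWnT : cW * (n' + h + s + 1) ≤ cW * (cX + 3) * T₀ := by
    rw [Nat.mul_assoc]
    exact Nat.mul_le_mul_left _ hnT
  have hWn' : cW * (n' + h + 1) ≤ cW * (n' + h + s + 1) := Nat.mul_le_mul_left _ (by omega)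
  have hWTW : cW * (cX + 3) * T₀ ≤ cW * (cX + 3) * W := Nat.mul_le_mul_left _ hTW
  have hEnT : cE * (n + x + h + 1) ≤ cE * T₀ := Nat.mul_le_mul_left _ (by omega)
  have hcWT := mT cW
  have hcW2T : 2 * cW * T₀ = cW * T₀ + cW * T₀ := by ring
  -- the variation on the ball
  have hCpos : (2 : ℝ) ^ cW ≤ 2 ^ C := pw (by
    rw [hC]
    have : cW ≤ 2 * cW := by omega
    omega)
  obtain ⟨B', b', p', hvar⟩ := hwr (F := F) (c := c) (a := a) (w := w) (w₂ := w₂) (e := e)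
    (h := h) (h' := h) (n := n) (n' := n') (p := p) (r := x) (s := s) (lam₁ := lam₁)
    (lam₂ := lam₂) (D' := D) (D₂ := D₂) (D₃ := D) (G := G) (g := g) (gN := gN) (g₄ := g) (κ := κ)
    (θ := θ) (B₀ := B₀) (A := A) (B := B) (T := T) (T₄ := T) (TH := TH) (NH := NH) (v := v)
    (X := X) (ν₀ := ν₀) (ξ := fun s' => gcl (c 0) (NH s' 1) s') hc (by
      have : cW ≤ C := by rw [hC]; omega
      omega)
    (relvF_low hR (by norm_num) hc hT.depG)
    (hT.mono (by norm_num) (fun _ => le_rfl) le_rfl le_rfl) H hBB hPB hκ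
    (le_trans (mul_le_mul_of_nonneg_right (mul_le_mul_of_nonneg_left hCpos hκ)
      (Pe_nonneg F.isLaw B₀)) hκP) (by omega)
    (by omega) hw2a haJ
    (fun B' hB' k1 k2 => hTm B' hB' k1 (k2.trans (mul_le_mul_of_nonneg_right hCpos
      (Pe_nonneg F.isLaw B')))) hθ hθJ hθs (by rw [hwy]; nlinarith) (fun s' => hNd s' 3)
    (fun s' => gcl_deg _ (hNd s' 1) s') (fun l hl => by
      have k1 := n5 l (by omega)
      omega) (by omega)
    (fun ω hω b hb => (hb1 ω hω b hb).trans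
      (div_le_div_of_nonneg_right (pw (by omega)) (by positivity)))
    (fun ω hω b hb => (hb2 ω hω b hb).trans
      (div_le_div_of_nonneg_right (pw (by omega)) (by positivity)))
    (fun ω hω t ht => by
      simp only [gcl_eval]
      exact (hfr ω hω t ht).trans (mul_le_mul_of_nonneg_right (pw (by omega)) (by positivity)))
    hup hlow (by rw [hG, hwy]; nlinarith)
  -- the size of the bracket
  obtain ⟨brk, hbrk⟩ : ∃ brk : ℝ, brk = 1 + 2 ^ lam₁ / 2 ^ (g 1 + p) + 2 ^ lam₂ / 2 ^ (g 2 + p) :=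
    ⟨_, rfl⟩
  rw [← hbrk] at hS6 hvar
  obtain ⟨β, hβ⟩ : ∃ β : ℝ, β = brk * (2 ^ g 2 / 2 ^ lam₂) := ⟨_, rfl⟩
  have hbrk0 : 0 < brk := by rw [hbrk]; positivity
  have hβ0 : 0 < β := by rw [hβ]; positivity
  have hβK : β ≤ 4 / 2 ^ K := by
    have e1 : β = 2 ^ g 2 / 2 ^ lam₂ + 2 ^ lam₁ / 2 ^ (g 1 + p) * (2 ^ g 2 / 2 ^ lam₂) +
        1 / 2 ^ p := by
      rw [hβ, hbrk, pow_add 2 (g 2) p]
      field_simp
    have e2 : (2 : ℝ) ^ g 2 / 2 ^ lam₂ ≤ 1 / 2 ^ K := by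
      rw [div_le_div_iff₀ (by positivity) (by positivity), one_mul, ← pow_add]
      exact pw (by omega)
    have e3 : (2 : ℝ) ^ lam₁ / 2 ^ (g 1 + p) * (2 ^ g 2 / 2 ^ lam₂) ≤ 1 / 2 ^ K := by
      rw [div_mul_div_comm, ← pow_add, ← pow_add, div_le_div_iff₀ (by positivity) (by positivity),
        one_mul, ← pow_add]
      exact pw (by omega)
    have e4 : (1 : ℝ) / 2 ^ p ≤ 1 / 2 ^ K :=
      one_div_le_one_div_of_le (by positivity) (pw (by omega))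
    have e5 : (4 : ℝ) / 2 ^ K = 4 * (1 / 2 ^ K) := by ring
    have e6 : (0 : ℝ) < 1 / 2 ^ K := by positivity
    rw [e1, e5]
    linarith
  -- a line through the point
  have hPB' : 0 < Pe F.p B' := by linarith
  obtain ⟨ω₀, hω₀⟩ : ∃ ω, B' ω := by
    by_contra hcon
    push Not at hcon
    have h1 : Pe F.p B' = 0 := by
      unfold Pe
      exact Finset.sum_eq_zero fun ω _ => by simp [hcon ω]
    linarith
  obtain ⟨νB, hνB⟩ := rep_pt (F := F) (B := B') ω₀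
  have H' := H.sub b'
  have hBA' : Sub B' A := fun ω hω => hB ω (b' ω hω)
  have hvis := hvt (F := F) (c := c) (a := a) (w := w) (w₂ := w₂) (e := e) (n := n) (p := p)
    (lam₁ := lam₁) (lam₂ := lam₂) (h := h) (x := x) (q := q) (K := K) (g := g) (gN := gN)
    (g₄ := g) (μ := 2 ^ Z * β) (A := A) (B := B') (N := N) (T := T) (T₄ := T) (NH := NH)
    (TH := TH) (v := v) (X := X) (ν₀ := ν₀) (νB := νB) (al₁ := al₁) (al₂ := al₂) H' hwa haJ hc
    (hT.sub hA) hBA' (fun s' => hNd s' 3) hNc hvv hS hbox hνB (fun ω hω => hlow ω (b' ω hω))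
    (fun ω hω => hup ω (b' ω hω) _ (win_self F w ω).1 (win_self F w ω).2)
    (fun ω hω => hPv ω (b' ω hω)) (by positivity) (fun ω hω => by
      refine (hS6 ω (b' ω hω)).trans (le_of_eq ?_)
      rw [hβ, pow_add 2 (g 0 + g 1) lam₂, pow_add 2 (g 2) (gN 3)]
      field_simp) (by omega) (by omega) (fun l hl => by
      have k1 := n5 l hl
      have k3 : K + cV * (n + x + q + 1) ≤ C * W := by omega
      omega)
  -- the end
  refine hend (F := F) (c := c) (a := a) (w := w) (w₂ := w₂) (e := e) (n := n) (p := p)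
    (lam₁ := lam₁) (lam₂ := lam₂) (D₂ := D₂) (h := h) (x := x) (q := q) (K := K) (G := G')
    (g := g) (gN := gN) (κ := κ) (B₀ := B₀) (A := A) (B := B') (T := T) (NH := NH) (TH := TH)
    (v := v) (X := X) (ν₀ := ν₀)
    (τ := fun y' => -((hcl (c 1) (NH (slam F w (νB y')) 3) (slam F w (νB y'))).eval
          (F.t (νB y')) /
        (hcl (c 2) (NH (slam F w (νB y')) 3) (slam F w (νB y'))).eval (F.t (νB y'))))
    H' hw hw2a haJ hc hR (by
      have : D * (2 * Q + 4) + 2 ≤ C := by rw [hC]; omega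
      omega) hT hA hBA' ?_ hPB' (fun s' => hNd s' 3) hdT
    (fun ω hω => hlow ω (b' ω hω)) (fun ω hω => hup ω (b' ω hω)) (fun ω hω => hPv ω (b' ω hω))
    ?_ (by omega) hl1 (by omega) (by omega) (by rw [hwy]; nlinarith) (by omega) (by omega)
    (fun l hl => by
      have k1 := n5 l hl
      omega)
  · have h1 : κ * 2 ^ 1 * Pe F.p B₀ ≤ κ * 2 ^ C * Pe F.p B₀ :=
      mul_le_mul_of_nonneg_right (mul_le_mul_of_nonneg_left (pw (by rw [hC]; omega)) hκ)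
        (Pe_nonneg F.isLaw B₀)
    have h2 : κ * 2 ^ 1 * Pe F.p B₀ = 2 * (κ * Pe F.p B₀) := by ring
    linarith
  · intro ω hω t ht
    have k1 := hvar ω hω t ht
    have k2 := hvis ω hω
    obtain ⟨u, hu⟩ : ∃ u : ℝ, u = 2 ^ g 1 / 2 ^ g 2 := ⟨_, rfl⟩
    have hu0 : 0 < u := by rw [hu]; positivity
    rw [← hu] at k2
    have e1 : (2 : ℝ) ^ g 1 / 2 ^ (g 2 + G') = u / 2 ^ G' := by
      rw [hu, pow_add, div_div]
    rw [e1]
    -- the first error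
    have f1 : (2 : ℝ) ^ (G + n + 2 * x + cW) * (2 ^ gN 1 / 2 ^ lam₂) * brk ≤
        u / 2 ^ G' * (1 / 2) := by
      have i1 : (2 : ℝ) ^ (G + n + 2 * x + cW) * (2 ^ gN 1 / 2 ^ lam₂) * brk =
          2 ^ (G + n + 2 * x + cW) * (2 ^ gN 1 / 2 ^ g 2) * β := by
        rw [hβ]
        field_simp
      have i2 : (2 : ℝ) ^ gN 1 / 2 ^ g 2 ≤ 2 ^ s * u := by
        rw [hu, ← mul_div_assoc, ← pow_add]
        exact div_le_div_of_nonneg_right (pw (by omega)) (by positivity)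
      rw [i1]
      calc (2 : ℝ) ^ (G + n + 2 * x + cW) * (2 ^ gN 1 / 2 ^ g 2) * β ≤
            2 ^ (G + n + 2 * x + cW) * (2 ^ s * u) * (4 / 2 ^ K) :=
            mul_le_mul (mul_le_mul_of_nonneg_left i2 (by positivity)) hβK hβ0.le (by positivity)
        _ = 2 ^ (G + n + 2 * x + cW + s + 2) / 2 ^ K * u := by
            rw [pow_add 2 (G + n + 2 * x + cW + s) 2, pow_add 2 (G + n + 2 * x + cW) s]
            ring
        _ ≤ 1 / 2 ^ (G' + 1) * u := by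
            refine mul_le_mul_of_nonneg_right ?_ hu0.le
            rw [div_le_div_iff₀ (by positivity) (by positivity), one_mul, ← pow_add]
            exact pw (by omega)
        _ = u / 2 ^ G' * (1 / 2) := by
            rw [pow_succ]
            field_simp
    have f2 : (2 : ℝ) ^ (cV * (n + x + q + 1)) * (1 / 2 ^ K + 2 ^ Z * β) * u ≤
        u / 2 ^ G' * (1 / 2) := by
      have i1 : (1 : ℝ) / 2 ^ K + 2 ^ Z * β ≤ 2 ^ (Z + 3) / 2 ^ K := by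
        have j1 : 2 ^ Z * β ≤ 2 ^ Z * (4 / 2 ^ K) := mul_le_mul_of_nonneg_left hβK (by positivity)
        have j2 : (1 : ℝ) ≤ 2 ^ Z := one_le_pow₀ (by norm_num)
        have j3 : (2 : ℝ) ^ (Z + 3) / 2 ^ K = 2 ^ Z * (4 / 2 ^ K) + 2 ^ Z * (4 / 2 ^ K) := by
          rw [pow_add]
          ring
        have j4 : (1 : ℝ) / 2 ^ K ≤ 2 ^ Z * (4 / 2 ^ K) := by
          have : (0 : ℝ) < 1 / 2 ^ K := by positivity
          have j5 : 2 ^ Z * ((4 : ℝ) / 2 ^ K) = (2 ^ Z * 4) * (1 / 2 ^ K) := by ring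
          rw [j5]
          nlinarith
        rw [j3]
        linarith
      calc (2 : ℝ) ^ (cV * (n + x + q + 1)) * (1 / 2 ^ K + 2 ^ Z * β) * u ≤
            2 ^ (cV * (n + x + q + 1)) * (2 ^ (Z + 3) / 2 ^ K) * u :=
            mul_le_mul_of_nonneg_right (mul_le_mul_of_nonneg_left i1 (by positivity)) hu0.le
        _ = 2 ^ (cV * (n + x + q + 1) + (Z + 3)) / 2 ^ K * u := by
            rw [pow_add 2 (cV * (n + x + q + 1))]
            ring
        _ ≤ 1 / 2 ^ (G' + 1) * u := by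
            refine mul_le_mul_of_nonneg_right ?_ hu0.le
            rw [div_le_div_iff₀ (by positivity) (by positivity), one_mul, ← pow_add]
            exact pw (by omega)
        _ = u / 2 ^ G' * (1 / 2) := by
            rw [pow_succ]
            field_simp
    have k3 := k1.trans f1
    have k4 := k2.trans f2
    rw [abs_sub_comm] at k4
    have e2 : ∀ r₁ r₂ r₃ : ℝ, r₁ + -r₃ = (r₁ - r₂) + (r₂ - r₃) := fun r₁ r₂ r₃ => by ring
    rw [e2 _ ((hcl (c 1) (NH (slam F w ω) 3) (slam F w ω)).eval (F.t ω) /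
      (hcl (c 2) (NH (slam F w ω) 3) (slam F w ω)).eval (F.t ω)) _]
    refine (abs_add_le _ _).trans ((add_le_add k3 k4).trans (le_of_eq ?_))
    ring

end Pool.NVX
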