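import Pool.Agent.H87.NV.Alg2
import Pool.Agent.H77.NV.Tt

/-!
# The second derivative in the direction `c 1` is not large

`s4_small`: the relation of the slopes with a large coefficient of the slope of `c 1`.
-/

set_option autoImplicit false

namespace Pool.NVX

open Finset Real MvPolynomial
open Pool.Agent.H49.Ent Pool.Agent.H32.Dense Pool.STK Pool.KA Pool.KSAT Pool.K2S Pool.PB Pool.S6C
open Pool.GEN Pool.CHT
open Pool.PB.Trl (rt rt_mem t_rt)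
open Pool.FLF (Fam.sub)

variable {m J : ℕ}

/-- [S4] **The second derivative in the direction `c 1` is not large**, in comparison with the one
in the direction `c 2`. -/
theorem s4_small (m D M : ℕ) : ∃ (C : ℕ) (C₁ : ℝ), 1 ≤ C₁ ∧
    ∀ {J : ℕ} {F : Fam m J} {c : ℕ → Fin m}
    {a w w₂ e h h' n n' p q s x lam₁ lam₂ L₁ D' D₂ D₃ G : ℕ} {g gN g₄ : ℕ → ℕ} {κ θ : ℝ}
    {B₀ A B : F.Ω → Prop} {T T₄ : PtT F → ℕ → MvPolynomial (Option (Fin m)) ℝ}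
    {TH NH : LnT F → ℕ → MvPolynomial (Option (Fin m)) ℝ} {v : PtT F → Fin m → ℝ}
    {X : PtT F → Option (Fin m) → ℝ} {ν₀ : PtT F → F.Ω},
    Set.InjOn c (Set.Iio 2) → C ≤ D₂ → RelvF F c 2 a w₂ g D₂ h κ B₀ T →
    ChOK F c 2 (fun _ => D') a w₂ e g B₀ T TH →
    Rel3 F c a w e n p L₁ lam₂ D₃ h' g gN g₄ A B T T₄ NH v X ν₀ → Sub B B₀ → 0 < Pe F.p B →
    0 ≤ κ → κ * 2 ^ C * Pe F.p B₀ ≤ Pe F.p B →
    w + C * (n' + h + s + 1) ≤ w₂ → w₂ ≤ a → a ≤ J →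
    (∀ (B' : F.Ω → Prop) (hB' : 0 < Pe F.p B'), Sub B' B → Pe F.p B ≤ 2 ^ C * Pe F.p B' →
      (Fam.sub F B' hB').Tm θ) → 0 ≤ θ → C₁ * (θ + 1) ≤ ((J : ℝ) - w) * Real.log 2 →
    C₁ * (θ + 1) ≤ s → g 1 + w * M ≤ gN 1 + w₂ * M →
    (∀ s' i, (NH s' i).totalDegree ≤ D) →
    (∀ ω, B ω → |X (ptr F J ω) (some (c 1))| ≤ 2 ^ x) → x + g 1 + C * (n' + h + 1) ≤ J →
    C * (n' + h + 1) ≤ p →
    (∀ ω, B ω → ∀ b, NBx c (T (ptr F J ω)) g a (F.t ω) 1 b →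
      |b (some (c 0)) - (F.x ω (c 0) + (b none - F.t ω) * bd F ω (some (c 0)))| ≤
        2 ^ n' / 2 ^ g 0) →
    (∀ ω, B ω → ∀ b, NBx c (T (ptr F J ω)) g a (F.t ω) 2 b →
      |(b (some (c 1)) - (F.x ω (c 1) + (b none - F.t ω) * bd F ω (some (c 1)))) -
        X (ptr F J ω) (some (c 1)) *
        (b (some (c 0)) - (F.x ω (c 0) + (b none - F.t ω) * bd F ω (some (c 0))))| ≤
        2 ^ n' / 2 ^ g 1) →
    -- the frames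
    (∀ ω, B ω → ∀ t : ℝ, |t - F.t ω| ≤ 1 / 2 ^ a → |X (ptr F J ω) (some (c 1)) -
      eval (bt F ω + (t - F.t ω) • bd F ω) (pderiv (some (c 0)) (NH (slam F w ω) 1))| ≤
        2 ^ n' * (2 ^ g 0 / 2 ^ gN 1)) →
    (∀ ω, B ω → ∀ t : ℝ, |t - F.t ω| ≤ 1 / 2 ^ a → |X (ptr F J ω) (some (c 2)) -
      (eval (bt F ω + (t - F.t ω) • bd F ω) (pderiv (some (c 0)) (NH (slam F w ω) 2)) +
      eval (bt F ω + (t - F.t ω) • bd F ω) (pderiv (some (c 1)) (NH (slam F w ω) 2)) *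
        X (ptr F J ω) (some (c 1)))| ≤ 2 ^ (g 0 + q) / 2 ^ gN 2) →
    -- the sizes
    (∀ ω, B ω → ∀ t : ℝ, |t - F.t ω| ≤ 1 / 2 ^ a →
      |(hcl (c 2) (NH (slam F w ω) 3) (slam F w ω)).eval t| ≤ 2 ^ (a + lam₂) / 2 ^ gN 3) →
    (∀ ω, B ω → ∃ t : ℝ, F.t ω - rt F w ω / 2 ^ w ≤ t ∧ t ≤ F.t ω + (1 - rt F w ω) / 2 ^ w ∧
      2 ^ (a + lam₁) / 2 ^ gN 3 / 2 ^ s ≤
        |(hcv (c 1) (c 2) (NH (slam F w ω) 2) (NH (slam F w ω) 3) (slam F w ω)).eval t|) →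
    -- the numbers
    L₁ ≤ lam₁ + 1 → gN 1 ≤ g 1 + s → gN 2 ≤ g 2 + s → gN 2 ≤ lam₂ →
    C * (w₂ + n' + h + s + 1) ≤ G + C * w →
    lam₂ + g 1 + G + q + n + 2 * s + 6 ≤ lam₁ + gN 2 → G + n + 2 * s + 6 ≤ p → False := by
  obtain ⟨C, C₁, hC₁, h1⟩ := alg1 m (2 * D) M
  refine ⟨C, C₁, hC₁, ?_⟩
  intro J F c a w w₂ e h h' n n' p q s x lam₁ lam₂ L₁ D' D₂ D₃ G g gN g₄ κ θ B₀ A B T T₄ TH NH v X
    ν₀ hc hD₂ hR hL H hB hPB hκ hκP hww hw2a haJ hTm hθ hθJ hθs hgM hNd hX hxJ hp hb1 hb2 hf1 hf2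
    hup2 hlo1 hL1 hg1 hg2 hl2 hG n1 n2
  have hwJ : w ≤ J := by omega
  obtain ⟨E, hE⟩ : ∃ E : ℝ, E = 2 ^ (a + g 0 + n) / 2 ^ gN 3 *
      (1 + 2 ^ L₁ / 2 ^ (g 1 + p) + 2 ^ lam₂ / 2 ^ (g 2 + p)) +
      2 ^ (a + lam₂) / 2 ^ gN 3 * (2 ^ (g 0 + q) / 2 ^ gN 2) := ⟨_, rfl⟩
  have hgd : ∀ (k : Fin m) (s' : LnT F) (i : ℕ), (gcl k (NH s' i) s').natDegree ≤ D :=
    fun k s' i => gcl_deg k (hNd s' i) s'
  have hhd : ∀ (k : Fin m) (s' : LnT F) (i : ℕ), (hcl k (NH s' i) s').natDegree ≤ D :=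
    fun k s' i => hcl_deg k (hNd s' i) s'
  refine h1 (F := F) (c := c) (a := a) (w := w) (w₂ := w₂) (e := e) (h := h) (n := n')
    (n₁ := gN 1) (p := p) (s := s) (x := x) (D' := D') (D₂ := D₂) (G := G) (g := g) (κ := κ)
    (θ := θ) (B₀ := B₀) (B := B) (T := T) (TH := TH) (ν := ν₀)
    (X := fun y => X y (some (c 1))) (ξ := fun s' => gcl (c 0) (NH s' 1) s')
    (P₀ := fun s' => hcl (c 0) (NH s' 3) s' + hcl (c 2) (NH s' 3) s' * gcl (c 0) (NH s' 2) s')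
    (P₁ := fun s' => hcv (c 1) (c 2) (NH s' 2) (NH s' 3) s') (η := fun _ => E)
    hc hD₂ hR hL hB hPB hκ hκP hww hw2a haJ hTm hθ hθJ hθs hgM
    (fun s' => (hgd _ s' 1).trans (by omega)) (fun s' => ?_)
    (fun s' => hcv_deg _ _ (hNd s' 2) (hNd s' 3) s') H.nu hX hxJ ?_ hp hb1 hb2 ?_ ?_ hG ?_
  · refine (Polynomial.natDegree_add_le _ _).trans (max_le ((hhd _ s' 3).trans (by omega)) ?_)
    refine Polynomial.natDegree_mul_le.trans ?_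
    have k1 := hhd (c 2) s' 3
    have k2 := hgd (c 0) s' 2
    omega
  · exact H.ve1
  · intro ω hω t ht
    simp only [gcl_eval]
    exact hf1 ω hω t ht
  · intro ω hω t ht
    have k1 := H.rel ω hω t ht
    have k2 := hf2 ω hω t ht
    have k3 := hup2 ω hω t ht
    simp only [Polynomial.eval_add, Polynomial.eval_mul, hcv_eval, gcl_eval]
    obtain ⟨P0, hP0⟩ : ∃ z, z = (hcl (c 0) (NH (slam F w ω) 3) (slam F w ω)).eval t := ⟨_, rfl⟩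
    obtain ⟨P1, hP1⟩ : ∃ z, z = (hcl (c 1) (NH (slam F w ω) 3) (slam F w ω)).eval t := ⟨_, rfl⟩
    obtain ⟨P2, hP2⟩ : ∃ z, z = (hcl (c 2) (NH (slam F w ω) 3) (slam F w ω)).eval t := ⟨_, rfl⟩
    obtain ⟨e0, he0⟩ : ∃ z, z = eval (bt F ω + (t - F.t ω) • bd F ω)
      (pderiv (some (c 0)) (NH (slam F w ω) 2)) := ⟨_, rfl⟩
    obtain ⟨e1, he1⟩ : ∃ z, z = eval (bt F ω + (t - F.t ω) • bd F ω)
      (pderiv (some (c 1)) (NH (slam F w ω) 2)) := ⟨_, rfl⟩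
    obtain ⟨x1, hx1⟩ : ∃ z, z = X (ptr F J ω) (some (c 1)) := ⟨_, rfl⟩
    obtain ⟨x2, hx2⟩ : ∃ z, z = X (ptr F J ω) (some (c 2)) := ⟨_, rfl⟩
    obtain ⟨vv, hvv⟩ : ∃ z, z = v (ptr F J ω) (c 2) := ⟨_, rfl⟩
    rw [← hP0, ← hP1, ← hP2, ← hx1, ← hx2, ← hvv] at k1
    rw [← hx2, ← he0, ← he1, ← hx1] at k2
    rw [← hP2] at k3
    rw [← hP0, ← hP1, ← hP2, ← he0, ← he1, ← hx1]
    have k4 : P0 + P2 * e0 + (P1 + e1 * P2) * x1 = (P0 + (P1 + vv * P2) * x1 +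
        P2 * (x2 - vv * x1)) - P2 * (x2 - (e0 + e1 * x1)) := by ring
    rw [k4, hE]
    refine (abs_sub _ _).trans (add_le_add k1 ?_)
    rw [abs_mul]
    exact mul_le_mul k3 k2 (abs_nonneg _) (by positivity)
  · intro ω hω
    obtain ⟨t, t1, t2, t3⟩ := hlo1 ω hω
    have k1 := t3.trans (le_wmx ((win_iff hwJ ω t).1 ⟨t1, t2⟩))
    refine lt_of_lt_of_le ?_ (mul_le_mul_of_nonneg_left k1 (by positivity))
    -- the numbers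
    obtain ⟨u, hu⟩ : ∃ u : ℝ, u = 2 ^ g 0 / 2 ^ gN 1 * (2 ^ (a + lam₁) / 2 ^ gN 3 / 2 ^ s) :=
      ⟨_, rfl⟩
    have hu0 : 0 < u := by rw [hu]; positivity
    rw [← hu]
    have cmp : ∀ x y : ℕ, x + gN 1 + s + 3 ≤ lam₁ + y →
        (2 : ℝ) ^ (a + g 0 + x) / 2 ^ gN 3 / 2 ^ y ≤ u / 8 := by
      intro x y hxy
      rw [hu]
      have e1 : (2 : ℝ) ^ g 0 / 2 ^ gN 1 * (2 ^ (a + lam₁) / 2 ^ gN 3 / 2 ^ s) / 8 =
          2 ^ (g 0 + (a + lam₁)) / 2 ^ gN 3 / 2 ^ (gN 1 + s + 3) := by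
        rw [pow_add 2 (g 0) (a + lam₁), pow_add 2 (gN 1 + s) 3, pow_add 2 (gN 1) s]
        field_simp
        norm_num
      rw [e1, div_div, div_div, div_le_div_iff₀ (by positivity) (by positivity), ← pow_add,
        ← pow_add, ← pow_add, ← pow_add]
      exact pow_le_pow_right₀ (by norm_num) (by omega)
    have c1 := cmp (G + n) 0 (by omega)
    have c2 := cmp (G + n + L₁) (g 1 + p) (by omega)
    have c3 := cmp (G + n + lam₂) (g 2 + p) (by omega)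
    have c4 := cmp (G + lam₂ + q) (gN 2) (by omega)
    have e2 : 2 ^ G * E = 2 ^ (a + g 0 + (G + n)) / 2 ^ gN 3 / 2 ^ 0 +
        2 ^ (a + g 0 + (G + n + L₁)) / 2 ^ gN 3 / 2 ^ (g 1 + p) +
        2 ^ (a + g 0 + (G + n + lam₂)) / 2 ^ gN 3 / 2 ^ (g 2 + p) +
        2 ^ (a + g 0 + (G + lam₂ + q)) / 2 ^ gN 3 / 2 ^ gN 2 := by
      rw [hE]
      simp only [pow_add]
      field_simp
    rw [e2]
    linarith

end Pool.NVX
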