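import Pool.Agent.H80.NV.StN

/-!
# The slope of the plane in the direction `c 1` and the closed label of `c 1`

`st_one`: the slope of the plane is the derivative of the closed label of the node `(a, w)`.
-/

set_option autoImplicit false

namespace Pool.NVX

open Finset Real MvPolynomial
open Pool.Agent.H49.Ent Pool.Agent.H32.Dense Pool.STK Pool.KA Pool.KSAT Pool.K2S Pool.PB Pool.S6C
open Pool.GEN Pool.CHT
open Pool.D2R (dd hs dd_add dd_smul dd_congr)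
open Pool.F5 (lp gp der_lp dd_gp deg_gp deg_lp eo bdS bdS_slam eval_lp eval_gp)
open Pool.SHR (dir mvp RelvH Shr ShrY relvF_low lab_near slp_cmp)
open Pool.PB.Trl (rt rt_mem t_rt)
open Pool.FLF (Fam.sub)
open Pool.Z3 (jn jn_lt jn_self nbx_jn)

variable {m J : ℕ}

/-- The agreement of the label of `c 1` on the boxes of a finer node. -/
theorem near_agr1 (D : ℕ) : ∃ C : ℕ, ∀ {m J : ℕ} {F : Fam m J} {c : ℕ → Fin m}
    {a w E q s : ℕ} {g gN : ℕ → ℕ} {B : F.Ω → Prop}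
    {N T : PtT F → ℕ → MvPolynomial (Option (Fin m)) ℝ}
    {NH : LnT F → ℕ → MvPolynomial (Option (Fin m)) ℝ} {ω : F.Ω},
    Set.InjOn c (Set.Iio 1) → ChOK F c 3 (fun _ => D) a w E gN B N NH →
    (∀ y l, DepC c l (T y l)) → B ω → (∀ l < 1, gN l ≤ g l + s) →
    (∀ i < 1, ∀ b, NBx c (T (ptr F J ω)) g a (F.t ω) i b →
      |eval b (T (ptr F J ω) i) - eval b (N (ptr F J ω) i)| ≤ 2 ^ q / 2 ^ gN i) →
    ∀ b, NBx c (T (ptr F J ω)) g a (F.t ω) 1 b →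
      |eval b (N (ptr F J ω) 1) - eval b (NH (slam F w ω) 1)| ≤
        2 ^ (C * (q + s + 1)) / 2 ^ gN 1 := by
  obtain ⟨c₀, D₁, -, hdil⟩ := nbx_dil 3 (fun _ => D)
  refine ⟨c₀ + 2 * D₁, ?_⟩
  intro m J F c a w E q s g gN B N T NH ω hc hN hTp hω hgx hnr b hb
  have pw : ∀ {x y : ℕ}, x ≤ y → (2 : ℝ) ^ x ≤ 2 ^ y := fun h => pow_le_pow_right₀ (by norm_num) h
  have h1 := hdil (c := c) (i := 1) (G := N (ptr F J ω))
    (Q := N (ptr F J ω) 1 - NH (slam F w ω) 1) (g := gN) (a := a) (t := F.t ω)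
    (M := 1 / 2 ^ gN 1) (q + s + 1) (by norm_num) hc (hN.degG _) (hN.depG _)
    (fun b b' hn hb' => by
      rw [map_sub, map_sub, hN.depG _ 1 b b' hn hb', hN.depH _ 1 b b' hn hb'])
    ((totalDegree_sub _ _).trans (max_le (hN.degG _ 1) (hN.degH _ 1))) (by positivity)
    (fun b hb' => by
      rw [map_sub]
      exact hN.agr ω hω 1 (by norm_num) b hb') b hb.1 (fun l hl => by
      have h2 := hb.2 l hl
      have h3 := hnr l hl b (hb.mono le_rfl hl.le)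
      have e1 : b (some (c l)) - eval b (N (ptr F J ω) l) =
          (b (some (c l)) - eval b (T (ptr F J ω) l)) +
          (eval b (T (ptr F J ω) l) - eval b (N (ptr F J ω) l)) := by ring
      rw [e1]
      refine (abs_add_le _ _).trans ((add_le_add h2 h3).trans ?_)
      have h4 : (1 : ℝ) / 2 ^ g l ≤ 2 ^ s / 2 ^ gN l := by
        rw [div_le_div_iff₀ (by positivity) (by positivity), one_mul, ← pow_add]
        exact pw (by have := hgx l hl; omega)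
      refine (add_le_add h4 le_rfl).trans ?_
      rw [← add_div]
      refine div_le_div_of_nonneg_right ?_ (by positivity)
      rw [pow_succ, pow_add]
      have h5 : (1 : ℝ) ≤ 2 ^ q := one_le_pow₀ (by norm_num)
      have h6 : (1 : ℝ) ≤ 2 ^ s := one_le_pow₀ (by norm_num)
      nlinarith)
  rw [map_sub] at h1
  refine h1.trans ?_
  rw [mul_one_div]
  refine div_le_div_of_nonneg_right (pw ?_) (by positivity)
  have e1 : (c₀ + 2 * D₁) * (q + s + 1) = c₀ * (q + s + 1) + 2 * (D₁ * (q + s + 1)) := by ring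
  have e2 : (q + s + 1) * D₁ = D₁ * (q + s + 1) := Nat.mul_comm _ _
  have e3 : c₀ ≤ c₀ * (q + s + 1) := Nat.le_mul_of_pos_right _ (by omega)
  omega

/-- **The slope of the plane in the direction `c 1`** is the derivative of the closed label, in the
unit of the node `(a, w)`. -/
theorem st_one (D : ℕ) : ∃ C : ℕ, ∀ {m J : ℕ} {F : Fam m J} {c : ℕ → Fin m}
    {a w e E n p lam₁ lam₂ D₃ h q s : ℕ} {g gN g₄ : ℕ → ℕ} {A B : F.Ω → Prop}
    {N T T₄ : PtT F → ℕ → MvPolynomial (Option (Fin m)) ℝ}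
    {NH : LnT F → ℕ → MvPolynomial (Option (Fin m)) ℝ} {v : PtT F → Fin m → ℝ}
    {X : PtT F → Option (Fin m) → ℝ} {ν₀ : PtT F → F.Ω},
    Rel3 F c a w e n p lam₁ lam₂ D₃ h g gN g₄ A B T T₄ NH v X ν₀ →
    Set.InjOn c (Set.Iio 2) → ChOK F c 3 (fun _ => D) a w E gN B N NH →
    (∀ y l, (T y l).totalDegree ≤ D) → (∀ y l, DepC c l (T y l)) →
    (∀ l < 2, gN l ≤ g l + s) →
    (∀ ω, B ω → ∀ i < 2, ∀ b, NBx c (T (ptr F J ω)) g a (F.t ω) i b →
      |eval b (T (ptr F J ω) i) - eval b (N (ptr F J ω) i)| ≤ 2 ^ q / 2 ^ gN i) →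
    ∀ ω, B ω → ∀ t : ℝ, |t - F.t ω| ≤ 1 / 2 ^ a → |X (ptr F J ω) (some (c 1)) -
      eval (bt F ω + (t - F.t ω) • bd F ω) (pderiv (some (c 0)) (NH (slam F w ω) 1))| ≤
        2 ^ (C * (n + q + s + 1)) * (2 ^ g 0 / 2 ^ gN 1) := by
  obtain ⟨cA, hag⟩ := near_agr1 D
  obtain ⟨cS, hst⟩ := star_one D 2
  obtain ⟨c₀, D₁, -, hdil⟩ := nbx_dil 3 (fun _ => D)
  have pw : ∀ {x y : ℕ}, x ≤ y → (2 : ℝ) ^ x ≤ 2 ^ y := fun h => pow_le_pow_right₀ (by norm_num) h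
  refine ⟨cS + (c₀ + D₁ + 3) + cS + cA + 4, ?_⟩
  intro m J F c a w e E n p lam₁ lam₂ D₃ h q s g gN g₄ A B N T T₄ NH v X ν₀ H hc hN hTd hTp hgx hnr
    ω hω t ht
  have hc1 : Set.InjOn c (Set.Iio 1) := hc.mono (Set.Iio_subset_Iio (by norm_num))
  obtain ⟨T₀, hT₀⟩ : ∃ T, T = n + q + s + 1 := ⟨_, rfl⟩
  have hT1 : 1 ≤ T₀ := by omega
  obtain ⟨y, hy⟩ : ∃ y, y = ptr F J ω := ⟨_, rfl⟩
  obtain ⟨U₁, hU₁⟩ : ∃ U₁ : Option (Fin m) → ℝ, U₁ = (1 / 2 ^ g 0 : ℝ) • X y := ⟨_, rfl⟩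
  have hX0 : X y none = 0 := by rw [hy]; exact H.x0 ω hω
  have hX1 : X y (some (c 0)) = 1 := by rw [hy]; exact H.x1 ω hω
  -- the agreement
  have hδ : ∀ b, NBx c (jn 1 (T y) (N y)) (jn 1 g gN) a (F.t ω) 1 b →
      |eval b (jn 1 (T y) (N y) 1) - eval b (NH (slam F w ω) 1)| ≤
        2 ^ (cA * (q + s + 1)) / 2 ^ gN 1 := by
    intro b hb
    rw [jn_self, hy]
    rw [hy] at hb
    exact hag hc1 hN hTp hω (fun l hl => hgx l (by omega))
      (fun i hi b' hb' => hnr ω hω i (by omega) b' hb') b ((nbx_jn le_rfl).1 hb)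
  -- the plane
  obtain ⟨e₀, he₀⟩ : ∃ e₀ : ℝ, e₀ = 2 ^ n / 2 ^ g 1 + 2 ^ (c₀ + n * D₁) * (2 ^ q / 2 ^ gN 1) :=
    ⟨_, rfl⟩
  have hpl : ∀ α β : ℝ, |α| ≤ 1 → |β| ≤ 1 →
      (∀ l < 1, |(bt F ω + α • vl F a ω + β • U₁) (some (c l)) -
        eval (bt F ω + α • vl F a ω + β • U₁) (jn 1 (T y) (N y) l)| ≤ 2 ^ n / 2 ^ jn 1 g gN l) ∧
      |(bt F ω + α • vl F a ω + β • U₁) (some (c 1)) -
        eval (bt F ω + α • vl F a ω + β • U₁) (jn 1 (T y) (N y) 1)| ≤ e₀ := by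
    intro α β hα hβ
    have h1 := H.pl ω hω α β (by linarith) (by linarith)
    rw [← hy, ← hU₁] at h1
    refine ⟨fun l hl => ?_, ?_⟩
    · rw [jn_lt hl, jn_lt hl]
      exact h1 l (by omega)
    · rw [jn_self]
      obtain ⟨x, hx⟩ : ∃ x, x = bt F ω + α • vl F a ω + β • U₁ := ⟨_, rfl⟩
      rw [← hx] at h1 ⊢
      have hn : |x none - F.t ω| ≤ 1 / 2 ^ a := by
        have e1 : x none - F.t ω = α * (1 / 2 ^ a) := by
          rw [hx, hU₁]
          show F.t ω + α * vl F a ω none + β * (1 / 2 ^ g 0 * X y none) - F.t ω = _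
          rw [hX0, vl_none]
          ring
        rw [e1, abs_mul, abs_of_pos (show (0 : ℝ) < 1 / 2 ^ a by positivity)]
        calc |α| * (1 / 2 ^ a) ≤ 1 * (1 / 2 ^ a) :=
              mul_le_mul_of_nonneg_right hα (by positivity)
          _ = 1 / 2 ^ a := one_mul _
      have h3 := hdil (c := c) (i := 1) (G := T y) (Q := T y 1 - N y 1) (g := g) (a := a)
        (t := F.t ω) (M := 2 ^ q / 2 ^ gN 1) n (by norm_num) hc1 (hTd _) (hTp _)
        (fun b b' hn hb => by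
          rw [map_sub, map_sub, hTp y 1 b b' hn hb, hN.depG y 1 b b' hn hb])
        ((totalDegree_sub _ _).trans (max_le (hTd _ 1) (hN.degG _ 1))) (by positivity)
        (fun b hb => by
          rw [map_sub, hy]
          rw [hy] at hb
          exact hnr ω hω 1 (by norm_num) b hb) x hn (fun l hl => h1 l (by omega))
      rw [map_sub] at h3
      have h2 := h1 1 (by norm_num)
      have e2 : x (some (c 1)) - eval x (N y 1) = (x (some (c 1)) - eval x (T y 1)) +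
          (eval x (T y 1) - eval x (N y 1)) := by ring
      rw [e2, he₀]
      exact (abs_add_le _ _).trans (add_le_add h2 h3)
  have hG : ∀ l, (jn 1 (T y) (N y) l).totalDegree ≤ D := fun l => by
    unfold jn
    split_ifs
    · exact hTd _ _
    · exact hN.degG _ _
  have hGp : ∀ l, DepC c l (jn 1 (T y) (N y) l) := fun l => by
    unfold jn
    split_ifs
    · exact hTp _ _
    · exact hN.depG _ _
  have hU0 : U₁ none = 0 := by rw [hU₁]; show 1 / 2 ^ g 0 * X y none = 0; rw [hX0, mul_zero]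
  have h1 := hst (c := c) (G := jn 1 (T y) (N y)) (H := NH (slam F w ω) 1) (g := jn 1 g gN)
    (a := a) (i := 1) (n := n) (t := F.t ω) (δ := 2 ^ (cA * (q + s + 1)) / 2 ^ gN 1) (e := e₀)
    (x := bt F ω) (U₀ := vl F a ω) (U₁ := U₁) (by norm_num) hc1 hG hGp (hN.degH _ 1) (hN.depH _ 1)
    rfl (vl_none F a ω) hU0
    (by positivity) hδ hpl (2 ^ a * (t - F.t ω)) (by
      rw [abs_mul, abs_of_pos (show (0 : ℝ) < 2 ^ a by positivity)]
      calc (2 : ℝ) ^ a * |t - F.t ω| ≤ 2 ^ a * (1 / 2 ^ a) :=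
            mul_le_mul_of_nonneg_left ht (by positivity)
        _ = 1 := by field_simp)
  have hx : bt F ω + (2 ^ a * (t - F.t ω)) • vl F a ω = bt F ω + (t - F.t ω) • bd F ω := by
    funext o
    rcases o with _ | k
    · show F.t ω + 2 ^ a * (t - F.t ω) * vl F a ω none = F.t ω + (t - F.t ω) * 1
      rw [vl_none]
      field_simp
    · show F.x ω k + 2 ^ a * (t - F.t ω) * (1 / 2 ^ a * F.d ω k) =
        F.x ω k + (t - F.t ω) * F.d ω k
      field_simp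
  rw [hx, dd_one' (hN.depH _ 1) hU0] at h1
  have e3 : ∀ k : Fin m, U₁ (some k) = 1 / 2 ^ g 0 * X y (some k) := fun k => by
    rw [hU₁]
    rfl
  rw [e3, e3, hX1] at h1
  rw [← hy]
  have e4 : X y (some (c 1)) -
      eval (bt F ω + (t - F.t ω) • bd F ω) (pderiv (some (c 0)) (NH (slam F w ω) 1)) =
      2 ^ g 0 * (1 / 2 ^ g 0 * X y (some (c 1)) -
      eval (bt F ω + (t - F.t ω) • bd F ω) (pderiv (some (c 0)) (NH (slam F w ω) 1)) *
        (1 / 2 ^ g 0 * 1)) := by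
    field_simp
  rw [e4, abs_mul, abs_of_pos (show (0 : ℝ) < 2 ^ g 0 by positivity)]
  refine (mul_le_mul_of_nonneg_left h1 (by positivity)).trans ?_
  have eR : (2 : ℝ) ^ ((cS + (c₀ + D₁ + 3) + cS + cA + 4) * (n + q + s + 1)) *
      (2 ^ g 0 / 2 ^ gN 1) = 2 ^ g 0 *
      (2 ^ ((cS + (c₀ + D₁ + 3) + cS + cA + 4) * (n + q + s + 1)) / 2 ^ gN 1) := by ring
  rw [eR]
  refine mul_le_mul_of_nonneg_left ?_ (by positivity)
  have r1 : (1 : ℝ) / 2 ^ g 1 ≤ 2 ^ s / 2 ^ gN 1 := by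
    rw [div_le_div_iff₀ (by positivity) (by positivity), one_mul, ← pow_add]
    exact pw (by have := hgx 1 (by norm_num); omega)
  obtain ⟨z, hz⟩ : ∃ z : ℝ, z = 1 / 2 ^ gN 1 := ⟨_, rfl⟩
  have hz0 : 0 ≤ z := by rw [hz]; positivity
  have r1' : (1 : ℝ) / 2 ^ g 1 ≤ 2 ^ s * z := by rw [hz, mul_one_div]; exact r1
  have e0 : ∀ x : ℝ, x / 2 ^ gN 1 = x * z := fun x => by rw [hz, mul_one_div]
  have r2 : e₀ ≤ 2 ^ (n + c₀ + n * D₁ + q + s + 1) * z := by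
    rw [he₀]
    have f1 : (2 : ℝ) ^ n / 2 ^ g 1 ≤ 2 ^ (n + c₀ + n * D₁ + q + s) * z := by
      calc (2 : ℝ) ^ n / 2 ^ g 1 = 2 ^ n * (1 / 2 ^ g 1) := by ring
        _ ≤ 2 ^ n * (2 ^ s * z) := mul_le_mul_of_nonneg_left r1' (by positivity)
        _ = 2 ^ (n + s) * z := by rw [pow_add]; ring
        _ ≤ _ := mul_le_mul_of_nonneg_right (pw (by omega)) hz0
    have f2 : (2 : ℝ) ^ (c₀ + n * D₁) * (2 ^ q / 2 ^ gN 1) ≤
        2 ^ (n + c₀ + n * D₁ + q + s) * z := by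
      rw [e0, ← mul_assoc, ← pow_add]
      exact mul_le_mul_of_nonneg_right (pw (by omega)) hz0
    rw [pow_succ]
    linarith
  have r3 : 2 ^ (cS * (n + 1)) * (2 ^ (cA * (q + s + 1)) / 2 ^ gN 1) ≤
      2 ^ (cS * (n + 1) + cA * (q + s + 1)) * z := by
    rw [e0, ← mul_assoc, ← pow_add]
  rw [e0 ((2 : ℝ) ^ ((cS + (c₀ + D₁ + 3) + cS + cA + 4) * (n + q + s + 1)))]
  obtain ⟨Z, hZ⟩ : ∃ Z, Z = n + c₀ + n * D₁ + q + s + 1 + cS * (n + 1) + cA * (q + s + 1) :=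
    ⟨_, rfl⟩
  have r4 : e₀ + 2 ^ (cS * (n + 1)) * (2 ^ (cA * (q + s + 1)) / 2 ^ gN 1) ≤ 2 ^ (Z + 1) * z := by
    have f1 : e₀ ≤ 2 ^ Z * z := r2.trans (mul_le_mul_of_nonneg_right (pw (by omega)) hz0)
    have f2 := r3.trans (mul_le_mul_of_nonneg_right (pw (show cS * (n + 1) + cA * (q + s + 1) ≤
      Z by omega)) hz0)
    rw [pow_succ]
    linarith
  refine (mul_le_mul_of_nonneg_left r4 (by positivity)).trans ?_
  rw [← mul_assoc, ← pow_add]
  refine mul_le_mul_of_nonneg_right (pw ?_) hz0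
  rw [← hT₀]
  have e5 : (cS + (c₀ + D₁ + 3) + cS + cA + 4) * T₀ = cS * T₀ + (c₀ * T₀ + D₁ * T₀ + 3 * T₀) +
    cS * T₀ + cA * T₀ + 4 * T₀ := by ring
  have m1 : cS ≤ cS * T₀ := Nat.le_mul_of_pos_right _ hT1
  have m2 : c₀ ≤ c₀ * T₀ := Nat.le_mul_of_pos_right _ hT1
  have m3 : n * D₁ ≤ D₁ * T₀ := by
    rw [Nat.mul_comm]
    exact Nat.mul_le_mul_left _ (by omega)
  have m4 : cS * (n + 1) ≤ cS * T₀ := Nat.mul_le_mul_left _ (by omega)
  have m5 : cA * (q + s + 1) ≤ cA * T₀ := Nat.mul_le_mul_left _ (by omega)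
  omega

end Pool.NVX
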