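import Pool.Agent.H87.NV.Bad

/-!
# Crude bounds of closed derivatives

`jet_up`: the derivatives of the closed labels at the samples. `rem_up`: a polynomial of the line is
on the window at most `2 ^ s` times its size at most samples. `dyad`: the dyadic classes of the
size of a polynomial of the line.
-/

set_option autoImplicit false

namespace Pool.NVX

open Finset Real MvPolynomial
open Pool.Agent.H49.Ent Pool.Agent.H32.Dense Pool.STK Pool.KA Pool.KSAT Pool.K2S Pool.PB Pool.S6C
open Pool.GEN Pool.CHT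
open Pool.SHR (dir mvp mvp_none mvp_some mvp_zero mvp_add lnv eval_lnv der_lnv)
open Pool.PB.Trl (rt rt_mem t_rt)
open Pool.FLF (Fam.sub)

variable {m J : ℕ}

/-- The unit direction. -/
theorem dir_one (k : Fin m) (P : MvPolynomial (Option (Fin m)) ℝ) (b : Option (Fin m) → ℝ) :
    eval b (dir (Function.update (0 : Fin m → ℝ) k 1) P) = eval b (pderiv (some k) P) := by
  classical
  unfold dir
  rw [map_sum, Finset.sum_eq_single k]
  · rw [Function.update_self, map_mul, eval_C, one_mul]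
  · intro j _ hj
    rw [Function.update_of_ne hj, map_mul, eval_C]
    simp
  · intro h
    exact absurd (Finset.mem_univ _) h

/-- The derivatives of the closed labels at the samples. -/
theorem jet_up (D r : ℕ) : ∃ C : ℕ, ∀ {m J : ℕ} {F : Fam m J} {c : ℕ → Fin m}
    {n a w e X : ℕ} {g : ℕ → ℕ} {A : F.Ω → Prop}
    {G : PtT F → ℕ → MvPolynomial (Option (Fin m)) ℝ}
    {H : LnT F → ℕ → MvPolynomial (Option (Fin m)) ℝ}, n ≤ r → Set.InjOn c (Set.Iio n) →
    ChOK F c n (fun _ => D) a w e g A G H → (∀ l < n, g l ≤ X) → ∀ ω, A ω → ∀ i < n, ∀ k < i,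
      |eval (bt F ω) (pderiv (some (c k)) (H (slam F w ω) i))| ≤ 2 ^ (C + e + 2 * X) := by
  obtain ⟨c₀, D₁, hD₁, hdil⟩ := nbx_dil r (fun _ => D)
  obtain ⟨Cm, hC, hmar⟩ := Pool.SHR.markov D
  obtain ⟨c₁, hc₁⟩ := pow_unbounded_of_one_lt Cm (one_lt_two (α := ℝ))
  refine ⟨c₁ + 2 * (c₀ + D₁) + 3, ?_⟩
  intro m J F c n a w e X g A G H hn hc hL hX ω hω i hi k hk
  obtain ⟨L, hLd⟩ : ∃ L, L = c₀ + D₁ + e + X := ⟨_, rfl⟩
  have hnlp : ∀ l i', i' < n → nlp g l i' ≤ X := by
    intro l i' hi'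
    unfold nlp
    have : (Finset.Icc l i').sup g ≤ X := Finset.sup_le fun j hj =>
      hX j (lt_of_le_of_lt (Finset.mem_Icc.1 hj).2 hi')
    omega
  obtain ⟨v, hv⟩ : ∃ v : Fin m → ℝ, v = Function.update (0 : Fin m → ℝ) (c k) 1 := ⟨_, rfl⟩
  have hkn : k < n := by omega
  have hvk : v (c k) = 1 := by rw [hv, Function.update_self]
  have hvj : ∀ j, j < n → j ≠ k → v (c j) = 0 := fun j hj hjk => by
    have hne : c j ≠ c k := fun he => hjk (hc (Set.mem_Iio.2 hj) (Set.mem_Iio.2 hkn) he)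
    rw [hv, Function.update_of_ne hne]
    rfl
  -- the gradients on the doubled box
  have hgr : ∀ i' < n, k < i' → ∀ b : Option (Fin m) → ℝ, |b none - F.t ω| ≤ 1 / 2 ^ a →
      (∀ l < i', |b (some (c l)) - eval b (G (ptr F J ω) l)| ≤ 2 ^ 1 / 2 ^ g l) →
      |eval b (dir v (G (ptr F J ω) i'))| ≤ 2 ^ L := by
    intro i' hi' hki' b hb0 hb
    have h1 := hdil (c := c) (i := i') (G := G (ptr F J ω)) (g := g) (a := a) (t := F.t ω)
      (Q := pderiv (some (c k)) (G (ptr F J ω) i')) (M := 2 ^ (e + nlp g k i')) 1 (by omega)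
      (hc.mono (Set.Iio_subset_Iio hi'.le)) (hL.degG _) (hL.depG _)
      ((hL.depG _ i').pderiv k) (totalDegree_pdσ (hL.degG _ i') _) (by positivity)
      (fun b hb => hL.lip ω hω i' hi' b hb k hki') b hb0 hb
    rw [hv, dir_one]
    refine h1.trans ?_
    rw [← pow_add]
    refine pow_le_pow_right₀ (by norm_num) ?_
    have := hnlp k i' hi'
    omega
  -- the moving point
  have hbox : ∀ i' ≤ n, ∀ s : ℝ, 0 ≤ s → s ≤ 1 / 2 ^ (L + X + 1) → ∀ l < i',
      |mvp v s (bt F ω) (some (c l)) - eval (mvp v s (bt F ω)) (G (ptr F J ω) l)| ≤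
        2 ^ 1 / 2 ^ g l := by
    intro i'
    induction i' with
    | zero => intro _ s _ _ l hl; omega
    | succ i' ih =>
      intro hi' s hs0 hs1 l hl
      rcases Nat.lt_or_ge l i' with h1 | h1
      · exact ih (by omega) s hs0 hs1 l h1
      · have hli : l = i' := by omega
        subst hli
        have h2 := hL.pos ω hω l (by omega)
        have hgl := hX l (by omega)
        have hsX : s ≤ 1 / 2 ^ g l / 2 := by
          refine hs1.trans ?_
          rw [div_div, ← pow_succ]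
          exact one_div_le_one_div_of_le (by positivity) (pow_le_pow_right₀ (by norm_num)
            (by omega))
        have hg0 : (0 : ℝ) < 1 / 2 ^ g l := by positivity
        have e2 : (2 : ℝ) ^ 1 / 2 ^ g l = 1 / 2 ^ g l + 1 / 2 ^ g l := by ring
        rw [e2, mvp_some]
        have e3 : bt F ω (some (c l)) = F.x ω (c l) := rfl
        rcases Nat.lt_or_ge k l with h3 | h3
        · -- the label moves
          rw [hvj l (by omega) (by omega), mul_zero, add_zero, e3]
          have h4 : |eval (mvp v s (bt F ω)) (G (ptr F J ω) l) -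
              eval (bt F ω) (G (ptr F J ω) l)| ≤ 2 ^ L * |s - 0| := by
            have h5 := (convex_Icc (0 : ℝ) s).norm_image_sub_le_of_norm_hasDerivWithin_le
              (f := fun u => (MvPolynomial.aeval (lnv v (bt F ω)) (G (ptr F J ω) l)).eval u)
              (f' := fun u => (Polynomial.derivative
                (MvPolynomial.aeval (lnv v (bt F ω)) (G (ptr F J ω) l))).eval u) (C := 2 ^ L)
              (fun u _ => (Polynomial.hasDerivAt _ u).hasDerivWithinAt)
              (fun u hu => by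
                rw [Real.norm_eq_abs, der_lnv]
                refine hgr l (by omega) h3 _ ?_ ?_
                · rw [mvp_none]
                  show |F.t ω - F.t ω| ≤ _
                  rw [sub_self, abs_zero]
                  positivity
                · intro l' hl'
                  exact ih (by omega) u hu.1 (hu.2.trans hs1) l' hl')
              (Set.left_mem_Icc.2 hs0) (Set.right_mem_Icc.2 hs0)
            rw [Real.norm_eq_abs, Real.norm_eq_abs, eval_lnv, eval_lnv, mvp_zero] at h5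
            exact h5
          rw [sub_zero, abs_of_nonneg hs0] at h4
          have h6 : 2 ^ L * s ≤ 1 / 2 ^ g l := by
            have h7 : 2 ^ L * s ≤ 2 ^ L * (1 / 2 ^ (L + X + 1)) :=
              mul_le_mul_of_nonneg_left hs1 (by positivity)
            refine h7.trans ?_
            rw [mul_one_div, div_le_div_iff₀ (by positivity) (by positivity), ← pow_add, one_mul]
            exact pow_le_pow_right₀ (by norm_num) (by omega)
          have h8 := abs_sub_le (F.x ω (c l)) (eval (bt F ω) (G (ptr F J ω) l))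
            (eval (mvp v s (bt F ω)) (G (ptr F J ω) l))
          rw [abs_sub_comm (eval (bt F ω) (G (ptr F J ω) l))] at h8
          linarith
        · -- the label does not move
          have h4 : eval (mvp v s (bt F ω)) (G (ptr F J ω) l) =
              eval (bt F ω) (G (ptr F J ω) l) := by
            refine hL.depG _ l _ _ (mvp_none _ _ _) fun l' hl' => ?_
            rw [mvp_some, hvj l' (by omega) (by omega), mul_zero, add_zero]
          rw [h4]
          have h5 : |s * v (c l)| ≤ 1 / 2 ^ g l / 2 := by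
            by_cases hlk : l = k
            · rw [hlk, hvk, mul_one, abs_of_nonneg hs0, ← hlk]
              exact hsX
            · rw [hvj l (by omega) hlk, mul_zero, abs_zero]
              positivity
          have e4 : bt F ω (some (c l)) + s * v (c l) - eval (bt F ω) (G (ptr F J ω) l) =
              (F.x ω (c l) - eval (bt F ω) (G (ptr F J ω) l)) + s * v (c l) := by
            rw [e3]
            ring
          rw [e4]
          refine (abs_add_le _ _).trans ?_
          linarith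
  -- the difference of the labels
  have hdif := hmar v (bt F ω) (G (ptr F J ω) i - H (slam F w ω) i)
    (2 ^ (c₀ + 1 * D₁) * (1 / 2 ^ g i)) (L + X + 1)
    ((totalDegree_sub _ _).trans (max_le (hL.degG _ i) (hL.degH _ i))) (by positivity)
    fun s hs0 hs1 => hdil (c := c) (i := i) (G := G (ptr F J ω)) (g := g) (a := a) (t := F.t ω)
      (Q := G (ptr F J ω) i - H (slam F w ω) i) (M := 1 / 2 ^ g i) 1 (by omega)
      (hc.mono (Set.Iio_subset_Iio hi.le)) (hL.degG _) (hL.depG _)
      (fun b b' hn hb => by rw [map_sub, map_sub, hL.depG _ i b b' hn hb, hL.depH _ i b b' hn hb])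
      ((totalDegree_sub _ _).trans (max_le (hL.degG _ i) (hL.degH _ i))) (by positivity)
      (fun b hb => by rw [map_sub]; exact hL.agr ω hω i hi b hb) _ (by
        rw [mvp_none]
        show |F.t ω - F.t ω| ≤ _
        rw [sub_self, abs_zero]
        positivity) (hbox i hi.le s hs0 hs1)
  rw [hv, dir_one, map_sub, map_sub] at hdif
  have hG := hL.lip ω hω i hi (bt F ω) (hL.self hω hi.le) k hk
  have hG' : |eval (bt F ω) (pderiv (some (c k)) (G (ptr F J ω) i))| ≤ 2 ^ (e + X) :=
    hG.trans (pow_le_pow_right₀ (by norm_num) (by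
      have := hnlp k i hi
      omega))
  have hD' : Cm * (2 ^ (c₀ + 1 * D₁) * (1 / 2 ^ g i)) * 2 ^ (L + X + 1) ≤
      2 ^ (c₁ + (c₀ + D₁) + (L + X + 1)) := by
    have h1 : (1 : ℝ) / 2 ^ g i ≤ 1 := by
      rw [div_le_one (by positivity)]
      exact one_le_pow₀ (by norm_num)
    calc Cm * (2 ^ (c₀ + 1 * D₁) * (1 / 2 ^ g i)) * 2 ^ (L + X + 1)
        ≤ 2 ^ c₁ * (2 ^ (c₀ + 1 * D₁) * 1) * 2 ^ (L + X + 1) := by
          refine mul_le_mul_of_nonneg_right (mul_le_mul hc₁.le
            (mul_le_mul_of_nonneg_left h1 (by positivity)) (by positivity) (by positivity))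
            (by positivity)
      _ = _ := by
        rw [mul_one, one_mul, ← pow_add, ← pow_add]
  have e1 : eval (bt F ω) (pderiv (some (c k)) (H (slam F w ω) i)) =
      eval (bt F ω) (pderiv (some (c k)) (G (ptr F J ω) i)) -
        (eval (bt F ω) (pderiv (some (c k)) (G (ptr F J ω) i)) -
          eval (bt F ω) (pderiv (some (c k)) (H (slam F w ω) i))) := by ring
  rw [e1]
  refine (abs_sub _ _).trans ((add_le_add hG' (hdif.trans hD')).trans ?_)
  have f1 : (2 : ℝ) ^ (e + X) ≤ 2 ^ (c₁ + 2 * (c₀ + D₁) + 2 + e + 2 * X) :=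
    pow_le_pow_right₀ (by norm_num) (by omega)
  have f2 : (2 : ℝ) ^ (c₁ + (c₀ + D₁) + (L + X + 1)) ≤
      2 ^ (c₁ + 2 * (c₀ + D₁) + 2 + e + 2 * X) :=
    pow_le_pow_right₀ (by norm_num) (by omega)
  have f3 : (2 : ℝ) ^ (c₁ + 2 * (c₀ + D₁) + 3 + e + 2 * X) =
      2 ^ (c₁ + 2 * (c₀ + D₁) + 2 + e + 2 * X) + 2 ^ (c₁ + 2 * (c₀ + D₁) + 2 + e + 2 * X) := by
    rw [show c₁ + 2 * (c₀ + D₁) + 3 + e + 2 * X = (c₁ + 2 * (c₀ + D₁) + 2 + e + 2 * X) + 1 by
      omega, pow_succ]
    ring
  rw [f3]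
  exact add_le_add f1 f2

/-- **A polynomial of the line on the window**, at most samples. -/
theorem rem_up (m D : ℕ) : ∃ C₁ : ℝ, 1 ≤ C₁ ∧ ∀ {J : ℕ} {F : Fam m J} {w s : ℕ}
    {A : F.Ω → Prop} {θ : ℝ} (_ : 0 < Pe F.p A) (P : LnT F → Polynomial ℝ), w ≤ J →
    (∀ s, (P s).natDegree ≤ D) →
    (∀ (A' : F.Ω → Prop) (h : 0 < Pe F.p A'), Sub A' A → Pe F.p A ≤ 2 * Pe F.p A' →
      (Fam.sub F A' h).Tm θ) → 0 ≤ θ → C₁ * (θ + 1) ≤ ((J : ℝ) - w) * Real.log 2 →
    C₁ * (θ + 1) ≤ s →
    ∃ B : F.Ω → Prop, Sub B A ∧ Pe F.p A / 4 ≤ Pe F.p B ∧ ∀ ω, B ω →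
      wmx w (slam F w ω).2.2 (P (slam F w ω)) ≤ 2 ^ s * |(P (slam F w ω)).eval (F.t ω)| := by
  obtain ⟨C₁, hC₁, hrem⟩ := low_rem m D
  refine ⟨C₁, hC₁, ?_⟩
  intro J F w s A θ hA P hw hd hTm hθ hn1 hn2
  have hsp := pe_spl F.p A (fun ω => 0 < wmx w (slam F w ω).2.2 (P (slam F w ω)))
  by_cases hb : Pe F.p A ≤ 2 * Pe F.p (fun ω => A ω ∧
      0 < wmx w (slam F w ω).2.2 (P (slam F w ω)))
  · have hA' : 0 < Pe F.p (fun ω => A ω ∧ 0 < wmx w (slam F w ω).2.2 (P (slam F w ω))) := by
      linarith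
    obtain ⟨B, k1, k2, k3⟩ := hrem hA' P (fun s' => wmx w s'.2.2 (P s')) hw hd
      (hTm _ hA' (fun _ h => h.1) hb) hθ hn1 hn2 (fun ω hω => by
        refine ⟨hω.2, ?_⟩
        obtain ⟨t, ht, h2⟩ := wmx_mem w (slam F w ω).2.2 (P (slam F w ω))
        obtain ⟨h3, h4⟩ := (win_iff hw ω t).2 ht
        exact ⟨t, h3, h4, h2.le⟩)
    refine ⟨B, fun ω h => (k1 ω h).1, by linarith, fun ω hω => ?_⟩
    have h1 := k3 ω hω
    rw [div_le_iff₀ (by positivity)] at h1
    linarith
  · push Not at hb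
    refine ⟨fun ω => A ω ∧ ¬ 0 < wmx w (slam F w ω).2.2 (P (slam F w ω)), fun ω h => h.1, ?_,
      fun ω hω => ?_⟩
    · have := Pe_nonneg F.isLaw (fun ω => A ω ∧ ¬ 0 < wmx w (slam F w ω).2.2 (P (slam F w ω)))
      linarith
    · have h1 := not_lt.1 hω.2
      exact h1.trans (by positivity)

/-- **The dyadic classes** of a function on an event. -/
theorem dyad {F : Fam m J} {A : F.Ω → Prop} (f : F.Ω → ℝ) (L s N : ℕ) {ρ : ℝ}
    (h : ∀ ω, A ω → f ω ≤ 2 ^ (L + N * s) * ρ) :
    ∃ k ≤ N, Pe F.p A ≤ (N + 1) * Pe F.p (fun ω => A ω ∧ (f ω ≤ 2 ^ (L + k * s) * ρ ∧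
      (k = 0 ∨ 2 ^ (L + k * s) * ρ / 2 ^ s < f ω))) := by
  obtain ⟨k, hk, h1⟩ := pig (p := F.p) F.isLaw (A := A) (Φ := fun k ω =>
    f ω ≤ 2 ^ (L + k * s) * ρ ∧ (k = 0 ∨ 2 ^ (L + k * s) * ρ / 2 ^ s < f ω)) (N := N + 1)
    (Nat.succ_pos N) (fun ω hω => by
      have key : ∀ n : ℕ, f ω ≤ 2 ^ (L + n * s) * ρ → ∃ k < n + 1,
          f ω ≤ 2 ^ (L + k * s) * ρ ∧ (k = 0 ∨ 2 ^ (L + k * s) * ρ / 2 ^ s < f ω) := by
        intro n
        induction n with
        | zero =>
          intro h5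
          exact ⟨0, by omega, h5, Or.inl rfl⟩
        | succ n ih =>
          intro h5
          rcases le_or_gt (f ω) (2 ^ (L + n * s) * ρ) with h6 | h6
          · obtain ⟨k, hk, h7⟩ := ih h6
            exact ⟨k, by omega, h7⟩
          · refine ⟨n + 1, by omega, h5, Or.inr ?_⟩
            refine lt_of_le_of_lt (le_of_eq ?_) h6
            rw [show L + (n + 1) * s = (L + n * s) + s by ring, pow_add 2 (L + n * s) s]
            field_simp
      exact key N (h ω hω))
  refine ⟨k, by omega, ?_⟩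
  push_cast at h1
  exact h1

end Pool.NVX
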