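import Pool.Agent.H87.NV.Sqp
import Pool.Agent.H2.GEN.Iso

/-!
# From two closed linear equations of the slope to the end

`alg_fin`: `q 2 y + (q 1 - μ) = 0`, `(q 1 + μ) y + q 0 = 0`, `y` = the slope in the frame.
-/

set_option autoImplicit false

namespace Pool.NVX

open Finset Real MvPolynomial
open Pool.Agent.H49.Ent Pool.Agent.H32.Dense Pool.STK Pool.KA Pool.KSAT Pool.K2S Pool.PB Pool.S6C
open Pool.GEN Pool.CHT
open Pool.PB.Trl (rt rt_mem t_rt)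
open Pool.FLF (Fam.sub)

variable {m J : ℕ}

/-- The coarser window. -/
def cow {F : Fam m J} (w w₂ : ℕ) (s : LnT F) : LnT F := (s.1, s.2.1, s.2.2 / 2 ^ (w₂ - w))

theorem cow_slam {F : Fam m J} {w w₂ : ℕ} (hw : w ≤ w₂) (hJ : w₂ ≤ J) (ω : F.Ω) :
    cow w w₂ (slam F w₂ ω) = slam F w ω := slam_coarse' F hw hJ ω

/-- One of two events has half of the share. -/
theorem pe_or {Ω : Type} [Fintype Ω] {p : Ω → ℝ} (hp : IsLaw p) {B A₁ A₂ : Ω → Prop}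
    (h : ∀ ω, B ω → A₁ ω ∨ A₂ ω) :
    Pe p B / 2 ≤ Pe p (fun ω => B ω ∧ A₁ ω) ∨ Pe p B / 2 ≤ Pe p (fun ω => B ω ∧ A₂ ω) := by
  have h1 : Pe p B ≤ Pe p (fun ω => B ω ∧ A₁ ω) + Pe p (fun ω => B ω ∧ A₂ ω) := by
    refine Pool.K2S.Pe_or hp fun ω hω => ?_
    rcases h ω hω with h2 | h2
    · exact Or.inl ⟨hω, h2⟩
    · exact Or.inr ⟨hω, h2⟩
  by_contra hcon
  push Not at hcon
  linarith [hcon.1, hcon.2]

/-- **One closed linear equation of the slope**, in the frame `ξ`: the end. -/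
theorem alg_lin {F : Fam m J} {c : ℕ → Fin m} {D Dm D' D₂ a w w₂ e h n n₁ p s x L : ℕ}
    {g : ℕ → ℕ} {κ ρ δ₁ : ℝ} {B₀ B : F.Ω → Prop}
    {T : PtT F → ℕ → MvPolynomial (Option (Fin m)) ℝ}
    {TH : LnT F → ℕ → MvPolynomial (Option (Fin m)) ℝ}
    {ν : PtT F → F.Ω} {X : PtT F → ℝ} {ξ : LnT F → Polynomial ℝ} {r₀ r₁ : LnT F → Polynomial ℝ}
    (hc : Set.InjOn c (Set.Iio 2)) (hR : RelvF F c 2 a w₂ g D₂ h κ B₀ T)
    (hL : ChOK F c 2 (fun _ => D') a w₂ e g B₀ T TH) (hDD : D + Dm + 2 ≤ D₂) (hB : Sub B B₀)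
    (hP : κ * Pe F.p B₀ ≤ Pe F.p B) (hP0 : 0 < Pe F.p B) (hw : w ≤ w₂) (hwa : w₂ ≤ a)
    (haJ : a ≤ J) (hξ : ∀ s', (ξ s').natDegree ≤ D) (hr0 : ∀ s', (r₀ s').natDegree ≤ Dm)
    (hr1 : ∀ s', (r₁ s').natDegree ≤ Dm)
    (hν : ∀ ω, B ω → ptr F J (ν (ptr F J ω)) = ptr F J ω)
    (hX : ∀ ω, B ω → |X (ptr F J ω)| ≤ 2 ^ x) (hxJ : x + g 1 + h + 3 ≤ J)
    (hv : ∀ ω, B ω → |(bd F ω (some (c 1)) - bd F (ν (ptr F J ω)) (some (c 1))) -
      X (ptr F J ω) * (bd F ω (some (c 0)) - bd F (ν (ptr F J ω)) (some (c 0)))| ≤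
        2 ^ a / 2 ^ (g 1 + p)) (hp : h + 2 ≤ p)
    (hb1 : ∀ ω, B ω → ∀ b, NBx c (T (ptr F J ω)) g a (F.t ω) 1 b →
      |b (some (c 0)) - (F.x ω (c 0) + (b none - F.t ω) * bd F ω (some (c 0)))| ≤
        2 ^ n / 2 ^ g 0)
    (hb2 : ∀ ω, B ω → ∀ b, NBx c (T (ptr F J ω)) g a (F.t ω) 2 b →
      |(b (some (c 1)) - (F.x ω (c 1) + (b none - F.t ω) * bd F ω (some (c 1)))) -
        X (ptr F J ω) *
        (b (some (c 0)) - (F.x ω (c 0) + (b none - F.t ω) * bd F ω (some (c 0))))| ≤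
        2 ^ n / 2 ^ g 1)
    (heq : ∀ ω, B ω → ∀ t : ℝ, |t - F.t ω| ≤ 1 / 2 ^ a →
      |(r₁ (slam F w₂ ω)).eval t *
          ((X (ptr F J ω) - (ξ (slam F w ω)).eval t) / (2 ^ g 0 / 2 ^ n₁)) +
        (r₀ (slam F w₂ ω)).eval t| ≤ ρ)
    (hlow : ∀ ω, B ω → 1 / 2 ^ s ≤ |(r₁ (slam F w₂ ω)).eval (F.t ω)|) (hδ : 0 ≤ δ₁)
    (hvar : ∀ ω, B ω → ∀ t : ℝ, |t - F.t ω| ≤ 2 / 2 ^ w₂ →
      |(r₁ (slam F w₂ ω)).eval t - (r₁ (slam F w₂ ω)).eval (F.t ω)| ≤ δ₁)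
    (hg : g 1 ≤ n₁ + L) (n1 : 2 ^ (L + n + h + s + 5) * ρ ≤ 1)
    (n2 : 2 ^ (n + h + s + 5) * δ₁ ≤ 1) : False := by
  obtain ⟨Y₁, hY₁⟩ : ∃ Y₁ : ℝ, Y₁ = 2 ^ g 0 / 2 ^ n₁ := ⟨_, rfl⟩
  have hY0 : 0 < Y₁ := by rw [hY₁]; positivity
  rw [← hY₁] at heq
  have hw₂J : w₂ ≤ J := hwa.trans haJ
  obtain ⟨ω₀, hω₀⟩ : ∃ ω, B ω := by
    by_contra hcon
    push Not at hcon
    have h1 : Pe F.p B = 0 := by
      unfold Pe
      exact Finset.sum_eq_zero fun ω _ => by simp [hcon ω]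
    linarith
  have hρ : 0 ≤ ρ := (abs_nonneg _).trans (heq ω₀ hω₀ (F.t ω₀) (by
    rw [sub_self, abs_zero]; positivity))
  obtain ⟨M, hM⟩ : ∃ M : ℝ, M = 1 / 2 ^ (g 1 + h + 2) := ⟨_, rfl⟩
  have hM0 : 0 < M := by rw [hM]; positivity
  refine nv_end (F := F) (c := c) (D := D + Dm) (D' := D') (D₂ := D₂) (a := a) (w := w₂)
    (w₂ := w₂) (e := e) (h := h) (g := g) (κ := κ) (M := M) (R := 2 ^ x) (er := Y₁ * ρ)
    (k₀ := 1 / 2 ^ s) (δ := 2 ^ s * δ₁) (Y := 2 ^ n / 2 ^ g 0) (Yu := 2 ^ n / 2 ^ g 1) (B₀ := B₀)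
    (B := B) (G := T) (H := TH) hc hR hL (by omega) hB hP hP0 le_rfl hwa haJ ν X
    (fun s' => Polynomial.C Y₁ * r₀ s' - r₁ s' * ξ (cow w w₂ s')) r₁ ?_
    (fun s' => (hr1 s').trans (by omega)) hν hX hM0 ?_ (by positivity) hlow (by positivity)
    ?_ ?_ (by positivity) hb1 (by positivity) hb2 ?_ ?_ ?_
  · intro s'
    refine (Polynomial.natDegree_sub_le _ _).trans (max_le ?_ ?_)
    · exact (Polynomial.natDegree_C_mul_le _ _).trans ((hr0 s').trans (by omega))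
    · refine Polynomial.natDegree_mul_le.trans ?_
      have h1 := hr1 s'
      have h2 := hξ (cow w w₂ s')
      omega
  · intro ω hω
    refine (hv ω hω).trans ?_
    rw [hM, one_div_mul_eq_div]
    exact div_le_div_of_nonneg_left (by positivity) (by positivity)
      (pow_le_pow_right₀ (by norm_num) (by omega))
  · intro ω hω t ht
    refine (hvar ω hω t ht).trans (le_of_eq ?_)
    field_simp
  · intro ω hω t ht
    have h1 := heq ω hω t ht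
    simp only [Polynomial.eval_sub, Polynomial.eval_mul, Polynomial.eval_C]
    rw [cow_slam hw hw₂J]
    have e1 : Y₁ * (r₀ (slam F w₂ ω)).eval t -
        (r₁ (slam F w₂ ω)).eval t * (ξ (slam F w ω)).eval t +
        (r₁ (slam F w₂ ω)).eval t * X (ptr F J ω) =
        Y₁ * ((r₁ (slam F w₂ ω)).eval t * ((X (ptr F J ω) - (ξ (slam F w ω)).eval t) / Y₁) +
          (r₀ (slam F w₂ ω)).eval t) := by
      field_simp
      ring
    rw [e1, abs_mul, abs_of_pos hY0]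
    exact mul_le_mul_of_nonneg_left h1 hY0.le
  · -- the numbers
    have hg1 : (0 : ℝ) < 2 ^ g 1 := by positivity
    have k1 : Y₁ ≤ 2 ^ (g 0 + L) / 2 ^ g 1 := by
      rw [hY₁, div_le_div_iff₀ (by positivity) hg1, ← pow_add, ← pow_add]
      exact pow_le_pow_right₀ (by norm_num) (by omega)
    have k2 : 4 * (Y₁ * ρ) / (1 / 2 ^ s) * (2 ^ n / 2 ^ g 0) ≤ M / 2 := by
      have e1 : 4 * (Y₁ * ρ) / (1 / 2 ^ s) * (2 ^ n / 2 ^ g 0) =
          Y₁ * (4 * 2 ^ s * 2 ^ n / 2 ^ g 0 * ρ) := by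
        field_simp
      have e2 : M / 2 = 2 ^ (g 0 + L) / 2 ^ g 1 *
          (4 * 2 ^ s * 2 ^ n / 2 ^ g 0 * (1 / 2 ^ (L + n + h + s + 5))) := by
        rw [hM, show L + n + h + s + 5 = L + n + h + s + 2 + 3 by ring, pow_add 2 (g 1 + h) 2,
          pow_add 2 (g 1) h, pow_add 2 (L + n + h + s + 2) 3, pow_add 2 (L + n + h + s) 2,
          pow_add 2 (L + n + h) s, pow_add 2 (L + n) h, pow_add 2 L n, pow_add 2 (g 0) L]
        field_simp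
        norm_num
      rw [e1, e2]
      have k3 : ρ ≤ 1 / 2 ^ (L + n + h + s + 5) := by
        rw [le_div_iff₀ (by positivity), mul_comm]
        exact n1
      exact mul_le_mul k1 (mul_le_mul_of_nonneg_left k3 (by positivity)) (by positivity)
        (by positivity)
    have k4 : 4 * (2 ^ s * δ₁) * (2 ^ n / 2 ^ g 1) ≤ M / 2 := by
      have e2 : M / 2 = 4 * (2 ^ s * (1 / 2 ^ (n + h + s + 5))) * (2 ^ n / 2 ^ g 1) := by
        rw [hM, show n + h + s + 5 = n + h + s + 2 + 3 by ring, pow_add 2 (g 1 + h) 2,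
          pow_add 2 (g 1) h, pow_add 2 (n + h + s + 2) 3, pow_add 2 (n + h + s) 2,
          pow_add 2 (n + h) s, pow_add 2 n h]
        field_simp
        norm_num
      rw [e2]
      have k3 : δ₁ ≤ 1 / 2 ^ (n + h + s + 5) := by
        rw [le_div_iff₀ (by positivity), mul_comm]
        exact n2
      exact mul_le_mul_of_nonneg_right (mul_le_mul_of_nonneg_left
        (mul_le_mul_of_nonneg_left k3 (by positivity)) (by norm_num)) (by positivity)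
    linarith
  · -- the room
    have e1 : M * 2 ^ J = 2 ^ (J - (g 1 + h + 2)) := by
      rw [hM, one_div_mul_eq_div, div_eq_iff (by positivity), ← pow_add]
      congr 1
      omega
    rw [e1]
    have e2 : (2 : ℝ) ^ (x + 1) ≤ 2 ^ (J - (g 1 + h + 2)) :=
      pow_le_pow_right₀ (by norm_num) (by omega)
    have e3 : (1 : ℝ) ≤ 2 ^ x := one_le_pow₀ (by norm_num)
    rw [pow_succ] at e2
    linarith
  · rw [hM, pow_add 2 (g 1 + h) 2, pow_add 2 (g 1) h]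
    have : (0 : ℝ) < 2 ^ g 1 := by positivity
    field_simp
    norm_num

/-- **The two closed linear equations of the slope**: the end. -/
theorem alg_fin {F : Fam m J} {c : ℕ → Fin m} {D Dm D' D₂ a w w₂ e h n n₁ p s x L : ℕ}
    {g : ℕ → ℕ} {κ ρ δ₁ : ℝ} {B₀ B : F.Ω → Prop}
    {T : PtT F → ℕ → MvPolynomial (Option (Fin m)) ℝ}
    {TH : LnT F → ℕ → MvPolynomial (Option (Fin m)) ℝ}
    {ν : PtT F → F.Ω} {X : PtT F → ℝ} {ξ μ : LnT F → Polynomial ℝ}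
    {q : ℕ → LnT F → Polynomial ℝ}
    (hc : Set.InjOn c (Set.Iio 2)) (hR : RelvF F c 2 a w₂ g D₂ h κ B₀ T)
    (hL : ChOK F c 2 (fun _ => D') a w₂ e g B₀ T TH) (hDD : D + Dm + 2 ≤ D₂) (hB : Sub B B₀)
    (hκ : 0 ≤ κ) (hP : κ * 2 * Pe F.p B₀ ≤ Pe F.p B) (hP0 : 0 < Pe F.p B) (hw : w ≤ w₂)
    (hwa : w₂ ≤ a) (haJ : a ≤ J) (hξ : ∀ s', (ξ s').natDegree ≤ D)
    (hq : ∀ i < 3, ∀ s', (q i s').natDegree ≤ Dm) (hμ : ∀ s', (μ s').natDegree ≤ Dm)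
    (hν : ∀ ω, B ω → ptr F J (ν (ptr F J ω)) = ptr F J ω)
    (hX : ∀ ω, B ω → |X (ptr F J ω)| ≤ 2 ^ x) (hxJ : x + g 1 + h + 3 ≤ J)
    (hv : ∀ ω, B ω → |(bd F ω (some (c 1)) - bd F (ν (ptr F J ω)) (some (c 1))) -
      X (ptr F J ω) * (bd F ω (some (c 0)) - bd F (ν (ptr F J ω)) (some (c 0)))| ≤
        2 ^ a / 2 ^ (g 1 + p)) (hp : h + 2 ≤ p)
    (hb1 : ∀ ω, B ω → ∀ b, NBx c (T (ptr F J ω)) g a (F.t ω) 1 b →
      |b (some (c 0)) - (F.x ω (c 0) + (b none - F.t ω) * bd F ω (some (c 0)))| ≤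
        2 ^ n / 2 ^ g 0)
    (hb2 : ∀ ω, B ω → ∀ b, NBx c (T (ptr F J ω)) g a (F.t ω) 2 b →
      |(b (some (c 1)) - (F.x ω (c 1) + (b none - F.t ω) * bd F ω (some (c 1)))) -
        X (ptr F J ω) *
        (b (some (c 0)) - (F.x ω (c 0) + (b none - F.t ω) * bd F ω (some (c 0))))| ≤
        2 ^ n / 2 ^ g 1)
    (hy : ∀ ω, B ω → ∀ t : ℝ, |t - F.t ω| ≤ 1 / 2 ^ a →
      |(X (ptr F J ω) - (ξ (slam F w ω)).eval t) / (2 ^ g 0 / 2 ^ n₁)| ≤ 2 ^ n)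
    (heq1 : ∀ ω, B ω → ∀ t : ℝ, |t - F.t ω| ≤ 1 / 2 ^ a →
      |(q 2 (slam F w ω)).eval t *
          ((X (ptr F J ω) - (ξ (slam F w ω)).eval t) / (2 ^ g 0 / 2 ^ n₁)) +
        (q 1 (slam F w ω)).eval t - (μ (slam F w₂ ω)).eval t| ≤ ρ)
    (heq2 : ∀ ω, B ω → ∀ t : ℝ, |t - F.t ω| ≤ 1 / 2 ^ a →
      |(q 0 (slam F w ω)).eval t + 2 * (q 1 (slam F w ω)).eval t *
          ((X (ptr F J ω) - (ξ (slam F w ω)).eval t) / (2 ^ g 0 / 2 ^ n₁)) +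
        (q 2 (slam F w ω)).eval t *
          ((X (ptr F J ω) - (ξ (slam F w ω)).eval t) / (2 ^ g 0 / 2 ^ n₁)) ^ 2| ≤ ρ)
    (hlow : ∀ ω, B ω → ∃ i < 3, 1 / 2 ^ s ≤ |(q i (slam F w ω)).eval (F.t ω)|) (hδ : 0 ≤ δ₁)
    (hvar1 : ∀ ω, B ω → ∀ t : ℝ, |t - F.t ω| ≤ 2 / 2 ^ w₂ →
      |((q 1 (slam F w ω)).eval t + (μ (slam F w₂ ω)).eval t) -
        ((q 1 (slam F w ω)).eval (F.t ω) + (μ (slam F w₂ ω)).eval (F.t ω))| ≤ δ₁)
    (hvar2 : ∀ ω, B ω → ∀ t : ℝ, |t - F.t ω| ≤ 2 / 2 ^ w₂ →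
      |(q 2 (slam F w ω)).eval t - (q 2 (slam F w ω)).eval (F.t ω)| ≤ δ₁)
    (hg : g 1 ≤ n₁ + L) (n1 : 2 ^ (L + 3 * n + h + s + 10) * ρ ≤ 1)
    (n2 : 2 ^ (2 * n + h + s + 9) * δ₁ ≤ 1) : False := by
  have hw₂J : w₂ ≤ J := hwa.trans haJ
  obtain ⟨ω₀, hω₀⟩ : ∃ ω, B ω := by
    by_contra hcon
    push Not at hcon
    have h1 : Pe F.p B = 0 := by
      unfold Pe
      exact Finset.sum_eq_zero fun ω _ => by simp [hcon ω]
    linarith
  have hself : ∀ ω, |F.t ω - F.t ω| ≤ 1 / 2 ^ a := fun ω => by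
    rw [sub_self, abs_zero]; positivity
  have hρ : 0 ≤ ρ := (abs_nonneg _).trans (heq2 ω₀ hω₀ (F.t ω₀) (hself ω₀))
  obtain ⟨Y₁, hY₁⟩ : ∃ Y₁ : ℝ, Y₁ = 2 ^ g 0 / 2 ^ n₁ := ⟨_, rfl⟩
  have hcw : ∀ ω, cow w w₂ (slam F w₂ ω) = slam F w ω := fun ω => cow_slam hw hw₂J ω
  -- the second equation
  have heq3 : ∀ ω, B ω → ∀ t : ℝ, |t - F.t ω| ≤ 1 / 2 ^ a →
      |((q 1 (slam F w ω)).eval t + (μ (slam F w₂ ω)).eval t) *
          ((X (ptr F J ω) - (ξ (slam F w ω)).eval t) / (2 ^ g 0 / 2 ^ n₁)) +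
        (q 0 (slam F w ω)).eval t| ≤ 2 ^ (n + 1) * ρ := by
    intro ω hω t ht
    have k1 := heq1 ω hω t ht
    have k2 := heq2 ω hω t ht
    have k3 := hy ω hω t ht
    obtain ⟨y, hyd⟩ : ∃ y, y = (X (ptr F J ω) - (ξ (slam F w ω)).eval t) /
      (2 ^ g 0 / 2 ^ n₁) := ⟨_, rfl⟩
    rw [← hyd] at k1 k2 k3 ⊢
    obtain ⟨q0, hq0⟩ : ∃ z, z = (q 0 (slam F w ω)).eval t := ⟨_, rfl⟩
    obtain ⟨q1, hq1⟩ : ∃ z, z = (q 1 (slam F w ω)).eval t := ⟨_, rfl⟩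
    obtain ⟨q2, hq2⟩ : ∃ z, z = (q 2 (slam F w ω)).eval t := ⟨_, rfl⟩
    obtain ⟨u, hu⟩ : ∃ z, z = (μ (slam F w₂ ω)).eval t := ⟨_, rfl⟩
    rw [← hq1, ← hq2, ← hu] at k1
    rw [← hq0, ← hq1, ← hq2] at k2
    rw [← hq0, ← hq1, ← hu]
    have e1 : (q1 + u) * y + q0 = (q0 + 2 * q1 * y + q2 * y ^ 2) - y * (q2 * y + q1 - u) := by
      ring
    rw [e1]
    refine (abs_sub _ _).trans ?_
    rw [abs_mul]
    have k4 : |y| * |q2 * y + q1 - u| ≤ 2 ^ n * ρ := mul_le_mul k3 k1 (abs_nonneg _)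
      (by positivity)
    have k5 : ρ ≤ 2 ^ n * ρ := by
      have : (1 : ℝ) ≤ 2 ^ n := one_le_pow₀ (by norm_num)
      nlinarith
    rw [pow_succ 2 n]
    linarith
  -- one of the two coefficients is large
  obtain ⟨s', hs'⟩ : ∃ s', s' = n + s + 4 := ⟨_, rfl⟩
  have hor : ∀ ω, B ω → 1 / 2 ^ s' ≤ |(q 2 (slam F w ω)).eval (F.t ω)| ∨
      1 / 2 ^ s' ≤ |(q 1 (slam F w ω)).eval (F.t ω) + (μ (slam F w₂ ω)).eval (F.t ω)| := by
    intro ω hω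
    by_contra hcon
    push Not at hcon
    obtain ⟨c1, c2⟩ := hcon
    have k1 := heq1 ω hω _ (hself ω)
    have k2 := heq3 ω hω _ (hself ω)
    have k3 := hy ω hω _ (hself ω)
    obtain ⟨y, hyd⟩ : ∃ y, y = (X (ptr F J ω) - (ξ (slam F w ω)).eval (F.t ω)) /
      (2 ^ g 0 / 2 ^ n₁) := ⟨_, rfl⟩
    rw [← hyd] at k1 k2 k3
    obtain ⟨q0, hq0⟩ : ∃ z, z = (q 0 (slam F w ω)).eval (F.t ω) := ⟨_, rfl⟩
    obtain ⟨q1, hq1⟩ : ∃ z, z = (q 1 (slam F w ω)).eval (F.t ω) := ⟨_, rfl⟩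
    obtain ⟨q2, hq2⟩ : ∃ z, z = (q 2 (slam F w ω)).eval (F.t ω) := ⟨_, rfl⟩
    obtain ⟨u, hu⟩ : ∃ z, z = (μ (slam F w₂ ω)).eval (F.t ω) := ⟨_, rfl⟩
    rw [← hq1, ← hq2, ← hu] at k1
    rw [← hq0, ← hq1, ← hu] at k2
    rw [← hq2] at c1
    rw [← hq1, ← hu] at c2
    obtain ⟨z, hz⟩ : ∃ z : ℝ, z = 1 / 2 ^ (s + 4) := ⟨_, rfl⟩
    have hz0 : 0 < z := by rw [hz]; positivity
    have hsz : (1 : ℝ) / 2 ^ s = 16 * z := by
      rw [hz, pow_add]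
      field_simp
      norm_num
    have hnz : (2 : ℝ) ^ n * (1 / 2 ^ s') = z := by
      rw [hs', hz, show n + s + 4 = n + (s + 4) by ring, pow_add 2 n]
      field_simp
    have hs'z : (1 : ℝ) / 2 ^ s' ≤ z := by
      rw [← hnz]
      have : (1 : ℝ) ≤ 2 ^ n := one_le_pow₀ (by norm_num)
      have h1 : (0 : ℝ) < 1 / 2 ^ s' := by positivity
      nlinarith
    have hρz : 2 ^ (n + 1) * ρ ≤ z := by
      rw [hz, le_div_iff₀ (by positivity)]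
      calc 2 ^ (n + 1) * ρ * 2 ^ (s + 4) = 2 ^ (n + 1 + (s + 4)) * ρ := by
            rw [pow_add 2 (n + 1)]; ring
        _ ≤ 2 ^ (L + 3 * n + h + s + 10) * ρ :=
            mul_le_mul_of_nonneg_right (pow_le_pow_right₀ (by norm_num) (by omega)) hρ
        _ ≤ 1 := n1
    have hρ1 : ρ ≤ z := by
      refine le_trans ?_ hρz
      have : (1 : ℝ) ≤ 2 ^ (n + 1) := one_le_pow₀ (by norm_num)
      nlinarith
    have m1 : |q2 * y| ≤ z := by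
      rw [abs_mul, ← hnz, mul_comm]
      exact mul_le_mul k3 c1.le (abs_nonneg _) (by positivity)
    have m2 : |(q1 + u) * y| ≤ z := by
      rw [abs_mul, ← hnz, mul_comm]
      exact mul_le_mul k3 c2.le (abs_nonneg _) (by positivity)
    have m3 : |q0| ≤ 2 * z := by
      have e1 : q0 = ((q1 + u) * y + q0) - (q1 + u) * y := by ring
      rw [e1]
      exact (abs_sub _ _).trans (by linarith)
    have m4 : |q1 - u| ≤ 2 * z := by
      have e1 : q1 - u = (q2 * y + q1 - u) - q2 * y := by ring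
      rw [e1]
      exact (abs_sub _ _).trans (by linarith)
    have m5 : |2 * q1| ≤ 3 * z := by
      have e1 : 2 * q1 = (q1 + u) + (q1 - u) := by ring
      rw [e1]
      exact (abs_add_le _ _).trans (by linarith)
    rw [abs_mul, abs_of_pos (show (0 : ℝ) < 2 by norm_num)] at m5
    obtain ⟨i, hi, h1⟩ := hlow ω hω
    rw [hsz] at h1
    interval_cases i
    · rw [← hq0] at h1
      linarith
    · rw [← hq1] at h1
      linarith
    · rw [← hq2] at h1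
      linarith
  -- the two cases
  rcases pe_or F.isLaw hor with hP1 | hP1
  · obtain ⟨B₁, hB₁⟩ : ∃ B₁ : F.Ω → Prop, B₁ = fun ω => B ω ∧
        1 / 2 ^ s' ≤ |(q 2 (slam F w ω)).eval (F.t ω)| := ⟨_, rfl⟩
    rw [← hB₁] at hP1
    have b1 : Sub B₁ B := fun ω h => by rw [hB₁] at h; exact h.1
    refine alg_lin (F := F) (c := c) (D := D) (Dm := Dm) (D' := D') (D₂ := D₂) (a := a) (w := w)
      (w₂ := w₂) (e := e) (h := h) (n := n) (n₁ := n₁) (p := p) (s := s') (x := x) (L := L)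
      (g := g) (κ := κ) (ρ := ρ) (δ₁ := δ₁) (B₀ := B₀) (B := B₁) (T := T) (TH := TH) (ν := ν)
      (X := X) (ξ := ξ) (r₀ := fun s => q 1 (cow w w₂ s) - μ s) (r₁ := fun s => q 2 (cow w w₂ s))
      hc hR hL hDD (fun ω h => hB ω (b1 ω h)) ?_ ?_ hw hwa haJ hξ ?_ ?_
      (fun ω h => hν ω (b1 ω h)) (fun ω h => hX ω (b1 ω h)) hxJ (fun ω h => hv ω (b1 ω h)) hp
      (fun ω h => hb1 ω (b1 ω h)) (fun ω h => hb2 ω (b1 ω h)) ?_ ?_ hδ ?_ hg ?_ ?_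
    · have := mul_nonneg hκ (Pe_nonneg F.isLaw B₀)
      linarith
    · linarith
    · intro s
      exact (Polynomial.natDegree_sub_le _ _).trans (max_le (hq 1 (by norm_num) _) (hμ s))
    · intro s
      exact hq 2 (by norm_num) _
    · intro ω hω t ht
      simp only [hcw, Polynomial.eval_sub]
      rw [← add_sub_assoc]
      exact heq1 ω (b1 ω hω) t ht
    · intro ω hω
      simp only [hcw]
      rw [hB₁] at hω
      exact hω.2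
    · intro ω hω t ht
      simp only [hcw]
      exact hvar2 ω (b1 ω hω) t ht
    · refine le_trans (mul_le_mul_of_nonneg_right (pow_le_pow_right₀ (by norm_num) ?_) hρ) n1
      omega
    · refine le_trans (mul_le_mul_of_nonneg_right (pow_le_pow_right₀ (by norm_num) ?_) hδ) n2
      omega
  · obtain ⟨B₁, hB₁⟩ : ∃ B₁ : F.Ω → Prop, B₁ = fun ω => B ω ∧ 1 / 2 ^ s' ≤
        |(q 1 (slam F w ω)).eval (F.t ω) + (μ (slam F w₂ ω)).eval (F.t ω)| := ⟨_, rfl⟩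
    rw [← hB₁] at hP1
    have b1 : Sub B₁ B := fun ω h => by rw [hB₁] at h; exact h.1
    refine alg_lin (F := F) (c := c) (D := D) (Dm := Dm) (D' := D') (D₂ := D₂) (a := a) (w := w)
      (w₂ := w₂) (e := e) (h := h) (n := n) (n₁ := n₁) (p := p) (s := s') (x := x) (L := L)
      (g := g) (κ := κ) (ρ := 2 ^ (n + 1) * ρ) (δ₁ := δ₁) (B₀ := B₀) (B := B₁) (T := T)
      (TH := TH) (ν := ν) (X := X) (ξ := ξ) (r₀ := fun s => q 0 (cow w w₂ s))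
      (r₁ := fun s => q 1 (cow w w₂ s) + μ s)
      hc hR hL hDD (fun ω h => hB ω (b1 ω h)) ?_ ?_ hw hwa haJ hξ ?_ ?_
      (fun ω h => hν ω (b1 ω h)) (fun ω h => hX ω (b1 ω h)) hxJ (fun ω h => hv ω (b1 ω h)) hp
      (fun ω h => hb1 ω (b1 ω h)) (fun ω h => hb2 ω (b1 ω h)) ?_ ?_ hδ ?_ hg ?_ ?_
    · have := mul_nonneg hκ (Pe_nonneg F.isLaw B₀)
      linarith
    · linarith
    · intro s
      exact hq 0 (by norm_num) _
    · intro s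
      exact (Polynomial.natDegree_add_le _ _).trans (max_le (hq 1 (by norm_num) _) (hμ s))
    · intro ω hω t ht
      simp only [hcw, Polynomial.eval_add]
      exact heq3 ω (b1 ω hω) t ht
    · intro ω hω
      simp only [hcw, Polynomial.eval_add]
      rw [hB₁] at hω
      exact hω.2
    · intro ω hω t ht
      simp only [hcw, Polynomial.eval_add]
      exact hvar1 ω (b1 ω hω) t ht
    · rw [← mul_assoc, ← pow_add]
      refine le_trans (mul_le_mul_of_nonneg_right (pow_le_pow_right₀ (by norm_num) ?_) hρ) n1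
      omega
    · refine le_trans (mul_le_mul_of_nonneg_right (pow_le_pow_right₀ (by norm_num) ?_) hδ) n2
      omega

end Pool.NVX
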