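import Pool.Agent.H87.NV.AlgF

/-!
# The root of the closed quadratic relation, in the time

`alg_mu`: `q 2 y + q 1` is the closed polynomial `μ` on the windows `w₂`.
-/

set_option autoImplicit false

namespace Pool.NVX

open Finset Real MvPolynomial
open Pool.Agent.H49.Ent Pool.Agent.H32.Dense Pool.STK Pool.KA Pool.KSAT Pool.K2S Pool.PB Pool.S6C
open Pool.GEN Pool.CHT
open Pool.PB.Trl (rt rt_mem t_rt)
open Pool.FLF (Fam.sub)

variable {m J : ℕ}

/-- A bound on the box from a bound on the window. -/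
theorem win_boxM (D : ℕ) : ∃ C : ℕ, ∀ {m J : ℕ} {F : Fam m J} {w : ℕ} {K : ℝ} {P : Polynomial ℝ}
    {ω : F.Ω}, w + 1 ≤ J → P.natDegree ≤ D →
    (∀ t : ℝ, F.t ω - rt F w ω / 2 ^ w ≤ t → t ≤ F.t ω + (1 - rt F w ω) / 2 ^ w →
      |P.eval t| ≤ K) → ∀ t : ℝ, |t - F.t ω| ≤ 1 / 2 ^ w → |P.eval t| ≤ 2 ^ C * K := by
  obtain ⟨C, h⟩ := mkv_win D
  refine ⟨C + 1, ?_⟩
  intro m J F w K P ω hw hP hK t ht
  have hrt := rt_mem F w ω
  have h0 := hK (F.t ω) (by
    have : 0 ≤ rt F w ω / 2 ^ w := div_nonneg hrt.1 (by positivity)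
    linarith) (by
    have : 0 ≤ (1 - rt F w ω) / 2 ^ w := div_nonneg (by linarith [hrt.2]) (by positivity)
    linarith)
  have hK0 : 0 ≤ K := (abs_nonneg _).trans h0
  have h1 := h (w := w) (w' := w + 1) (K := K) (P := P) (ω := ω) (by omega) hw hP hK t (by
    refine ht.trans (le_of_eq ?_)
    rw [pow_succ]
    field_simp)
  have e1 : (2 : ℝ) ^ C * 2 ^ w / 2 ^ (w + 1) * K = 2 ^ C * K / 2 := by
    rw [pow_succ]
    field_simp
  rw [e1] at h1
  have e2 : P.eval t = (P.eval t - P.eval (F.t ω)) + P.eval (F.t ω) := by ring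
  rw [e2]
  refine (abs_add_le _ _).trans ((add_le_add h1 h0).trans ?_)
  have h2 : K ≤ 2 ^ C * K := by
    have : (1 : ℝ) ≤ 2 ^ C := one_le_pow₀ (by norm_num)
    nlinarith
  have h3 : 0 ≤ (2 : ℝ) ^ C * K := by positivity
  rw [pow_succ]
  linarith

/-- The own time is in the window. -/
theorem win_selfM (F : Fam m J) (w : ℕ) (ω : F.Ω) :
    F.t ω - rt F w ω / 2 ^ w ≤ F.t ω ∧ F.t ω ≤ F.t ω + (1 - rt F w ω) / 2 ^ w := by
  have hrt := rt_mem F w ω
  have h1 : 0 ≤ rt F w ω / 2 ^ w := div_nonneg hrt.1 (by positivity)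
  have h2 : 0 ≤ (1 - rt F w ω) / 2 ^ w := div_nonneg (by linarith [hrt.2]) (by positivity)
  constructor <;> linarith

/-- Representatives of the windows of an event. -/
theorem rep_w {F : Fam m J} (w : ℕ) {B : F.Ω → Prop} (ω₀ : F.Ω) :
    ∃ rp : LnT F → F.Ω, ∀ ω, B ω → B (rp (slam F w ω)) ∧
      slam F w (rp (slam F w ω)) = slam F w ω := by
  classical
  have hrep : ∀ s : LnT F, ∃ ω' : F.Ω, (∃ ω, B ω ∧ slam F w ω = s) → B ω' ∧ slam F w ω' = s := by
    intro s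
    by_cases h : ∃ ω, B ω ∧ slam F w ω = s
    · obtain ⟨ω, h1⟩ := h
      exact ⟨ω, fun _ => h1⟩
    · exact ⟨ω₀, fun h' => absurd h' h⟩
  choose rp hrp using hrep
  exact ⟨rp, fun ω hω => hrp _ ⟨ω, hω, rfl⟩⟩

/-- **The root in the time**: `q 2 y + q 1` is closed on the windows `w₂`, up to the target. -/
theorem alg_mu (m D M : ℕ) : ∃ (C : ℕ) (C₁ : ℝ), 1 ≤ C₁ ∧ ∀ {J : ℕ} {F : Fam m J}
    {a w w₂ s N G : ℕ} {θ : ℝ} {B : F.Ω → Prop} {y : F.Ω → ℝ → ℝ}
    {q : ℕ → LnT F → Polynomial ℝ}, 0 < Pe F.p B → w₂ ≤ a → a ≤ J →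
    w + C * (s + N + 1) ≤ w₂ → C * (w₂ + s + N + 1) ≤ G + C * w →
    (∀ (B' : F.Ω → Prop) (hB' : 0 < Pe F.p B'), Sub B' B → Pe F.p B ≤ 2 ^ C * Pe F.p B' →
      (Fam.sub F B' hB').Tm θ) → 0 ≤ θ → C₁ * (θ + 1) ≤ ((J : ℝ) - w) * Real.log 2 →
    C₁ * (θ + 1) ≤ s → (∀ i < 3, ∀ s', (q i s').natDegree ≤ D) →
    (∀ ω, B ω → ∀ i < 3, ∀ t : ℝ, F.t ω - rt F w ω / 2 ^ w ≤ t →
      t ≤ F.t ω + (1 - rt F w ω) / 2 ^ w → |(q i (slam F w ω)).eval t| ≤ 1) →
    (∀ ω, B ω → ∃ i < 3, 1 ≤ wmx w (slam F w ω).2.2 (q i (slam F w ω))) →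
    (∀ ω, Continuous (y ω)) →
    (∀ ω, B ω → ∀ t : ℝ, |t - F.t ω| ≤ 1 / 2 ^ a →
      |(q 0 (slam F w ω)).eval t + 2 * (q 1 (slam F w ω)).eval t * y ω t +
        (q 2 (slam F w ω)).eval t * y ω t ^ 2| ≤ 1 / 2 ^ G) →
    ∃ (B' : F.Ω → Prop) (μ : LnT F → Polynomial ℝ), Sub B' B ∧ Pe F.p B / 16 ≤ Pe F.p B' ∧
      (∀ s', (μ s').natDegree ≤ 2 ^ M * (2 * D)) ∧
      (∀ ω, B' ω → ∃ i < 3, 1 / 2 ^ s ≤ |(q i (slam F w ω)).eval (F.t ω)|) ∧
      (∀ ω, B' ω → ∀ t : ℝ, |t - F.t ω| ≤ 1 / 2 ^ a →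
        |(q 2 (slam F w ω)).eval t * y ω t + (q 1 (slam F w ω)).eval t -
          (μ (slam F w₂ ω)).eval t| ≤ 1 / 2 ^ ((w₂ - w) * M + N)) ∧
      (∀ ω, B' ω → ∀ t : ℝ, |t - F.t ω| ≤ 2 / 2 ^ w₂ →
        |((q 1 (slam F w ω)).eval t + (μ (slam F w₂ ω)).eval t) -
          ((q 1 (slam F w ω)).eval (F.t ω) + (μ (slam F w₂ ω)).eval (F.t ω))| ≤ 1 / 2 ^ N ∧
        |(q 2 (slam F w ω)).eval t - (q 2 (slam F w ω)).eval (F.t ω)| ≤ 1 / 2 ^ N) := by
  classical
  obtain ⟨rA, hrA, hlowA⟩ := low_rem m D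
  obtain ⟨rB, hrB, hlowB⟩ := low_rem m (2 * D)
  obtain ⟨c₁, hmk1⟩ := mkv_win D
  obtain ⟨c₂, hmk2⟩ := mkv_win (2 * D)
  obtain ⟨c₃, hwb2⟩ := win_boxM (2 * D)
  obtain ⟨c₄, hwb1⟩ := win_boxM D
  have pw : ∀ {x y : ℕ}, x ≤ y → (2 : ℝ) ^ x ≤ 2 ^ y := fun h => pow_le_pow_right₀ (by norm_num) h
  obtain ⟨C, hC⟩ : ∃ C, C = (c₂ + 4) * (M + 1) + 3 * (c₁ + c₂ + c₃ + c₄) + 4 * M + 40 := ⟨_, rfl⟩
  obtain ⟨C₁, hC₁⟩ : ∃ C₁, C₁ = rA + rB := ⟨_, rfl⟩
  refine ⟨C, C₁, by rw [hC₁]; linarith, ?_⟩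
  intro J F a w w₂ s N G θ B y q hPB hw2a haJ hww hG hTm hθ hθJ hθs hq hq1 hbig hcont hrel
  obtain ⟨T₀, hT₀⟩ : ∃ T₀, T₀ = s + N + 1 := ⟨_, rfl⟩
  have hT1 : 1 ≤ T₀ := by omega
  obtain ⟨Y, hY⟩ : ∃ Y, Y = w₂ - w := ⟨_, rfl⟩
  rw [← hT₀] at hww
  have hCT : 40 * T₀ + ((c₂ + 4) * (M + 1) + 3 * (c₁ + c₂ + c₃ + c₄) + 4 * M) * T₀ = C * T₀ := by
    rw [hC]; ring
  have hw : w ≤ w₂ := by omega
  have hwY : w₂ = w + Y := by omega
  have hYC : C * T₀ ≤ Y := by omega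
  have hGC : C * (Y + T₀) ≤ G := by
    have e1 : C * (w₂ + s + N + 1) = C * w + C * (Y + T₀) := by
      rw [hwY, hT₀]
      ring
    omega
  have mT : ∀ x : ℕ, x ≤ x * T₀ := fun x => Nat.le_mul_of_pos_right _ hT1
  have hwJ : w ≤ J := by omega
  have hw₂J : w₂ ≤ J := by omega
  have hself : ∀ ω, |F.t ω - F.t ω| ≤ 1 / 2 ^ a := fun ω => by
    rw [sub_self, abs_zero]; positivity
  have hr0 : 0 ≤ θ + 1 := by linarith
  have hrA' : rA * (θ + 1) ≤ C₁ * (θ + 1) := mul_le_mul_of_nonneg_right (by rw [hC₁]; linarith) hr0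
  have hrB' : rB * (θ + 1) ≤ C₁ * (θ + 1) := mul_le_mul_of_nonneg_right (by rw [hC₁]; linarith) hr0
  have h2C : (2 : ℝ) ^ 4 ≤ 2 ^ C := pw (by rw [hC]; omega)
  -- the large coefficient
  obtain ⟨i₀, hi₀⟩ : ∃ i₀ : LnT F → ℕ, ∀ s', i₀ s' < 3 ∧
      ((∃ i < 3, 1 ≤ wmx w s'.2.2 (q i s')) → 1 ≤ wmx w s'.2.2 (q (i₀ s') s')) := by
    have h1 : ∀ s' : LnT F, ∃ i : ℕ, i < 3 ∧
        ((∃ i < 3, 1 ≤ wmx w s'.2.2 (q i s')) → 1 ≤ wmx w s'.2.2 (q i s')) := by
      intro s'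
      by_cases h : ∃ i < 3, 1 ≤ wmx w s'.2.2 (q i s')
      · obtain ⟨i, h1, h2⟩ := h
        exact ⟨i, h1, fun _ => h2⟩
      · exact ⟨0, by norm_num, fun h' => absurd h' h⟩
    choose i₀ hi₀ using h1
    exact ⟨i₀, hi₀⟩
  obtain ⟨B₁, b1, p1, hB1⟩ := hlowA (w := w) (s := s) hPB (fun s' => q (i₀ s') s') (fun _ => 1) hwJ
    (fun s' => hq _ (hi₀ s').1 s') (hTm B hPB (fun _ h => h) (by
      have : Pe F.p B * 1 ≤ Pe F.p B * 2 ^ C :=
        mul_le_mul_of_nonneg_left (by linarith) hPB.le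
      linarith)) hθ (hrA'.trans hθJ) (hrA'.trans hθs) (fun ω hω => ⟨one_pos, by
      obtain ⟨t, ht, h2⟩ := wmx_mem w (slam F w ω).2.2 (q (i₀ (slam F w ω)) (slam F w ω))
      obtain ⟨h3, h4⟩ := (win_iff hwJ ω t).2 ht
      exact ⟨t, h3, h4, by rw [← h2]; exact (hi₀ _).2 (hbig ω hω)⟩⟩)
  have hlow : ∀ ω, B₁ ω → ∃ i < 3, 1 / 2 ^ s ≤ |(q i (slam F w ω)).eval (F.t ω)| :=
    fun ω hω => ⟨i₀ (slam F w ω), (hi₀ _).1, hB1 ω hω⟩
  -- the discriminant
  obtain ⟨Δ, hΔ⟩ : ∃ Δ : LnT F → Polynomial ℝ, Δ = fun s' => q 1 s' ^ 2 - q 0 s' * q 2 s' :=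
    ⟨_, rfl⟩
  have hΔd : ∀ s', (Δ s').natDegree ≤ 2 * D := by
    intro s'
    rw [hΔ]
    refine (Polynomial.natDegree_sub_le _ _).trans (max_le ?_ ?_)
    · exact Polynomial.natDegree_pow_le.trans (Nat.mul_le_mul_left 2 (hq 1 (by norm_num) s'))
    · refine Polynomial.natDegree_mul_le.trans ?_
      have h1 := hq 0 (by norm_num) s'
      have h2 := hq 2 (by norm_num) s'
      omega
  have hΔe : ∀ s' (t : ℝ), (Δ s').eval t =
      (q 1 s').eval t ^ 2 - (q 0 s').eval t * (q 2 s').eval t := by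
    intro s' t
    rw [hΔ]
    simp
  have hΔ2 : ∀ ω, B ω → ∀ t : ℝ, F.t ω - rt F w ω / 2 ^ w ≤ t →
      t ≤ F.t ω + (1 - rt F w ω) / 2 ^ w → |(Δ (slam F w ω)).eval t| ≤ 2 := by
    intro ω hω t t1 t2
    rw [hΔe]
    have k0 := hq1 ω hω 0 (by norm_num) t t1 t2
    have k1 := hq1 ω hω 1 (by norm_num) t t1 t2
    have k2 := hq1 ω hω 2 (by norm_num) t t1 t2
    refine (abs_sub _ _).trans ?_
    rw [abs_pow, abs_mul]
    have e1 : |(q 1 (slam F w ω)).eval t| ^ 2 ≤ 1 := pow_le_one₀ (abs_nonneg _) k1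
    have e2 : |(q 0 (slam F w ω)).eval t| * |(q 2 (slam F w ω)).eval t| ≤ 1 :=
      mul_le_one₀ k0 (abs_nonneg _) k2
    linarith
  obtain ⟨U, hU⟩ : ∃ U : LnT F → ℝ, U = fun s' => wmx w s'.2.2 (Δ s') := ⟨_, rfl⟩
  have hUe : ∀ s', U s' = wmx w s'.2.2 (Δ s') := fun s' => by rw [hU]
  have hU2 : ∀ ω, B ω → U (slam F w ω) ≤ 2 := by
    intro ω hω
    rw [hUe]
    obtain ⟨t, ht, h2⟩ := wmx_mem w (slam F w ω).2.2 (Δ (slam F w ω))
    obtain ⟨h3, h4⟩ := (win_iff hwJ ω t).2 ht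
    rw [h2]
    exact hΔ2 ω hω t h3 h4
  have hUw : ∀ ω (t : ℝ), F.t ω - rt F w ω / 2 ^ w ≤ t → t ≤ F.t ω + (1 - rt F w ω) / 2 ^ w →
      |(Δ (slam F w ω)).eval t| ≤ U (slam F w ω) := by
    intro ω t t1 t2
    rw [hUe]
    exact le_wmx ((win_iff hwJ ω t).1 ⟨t1, t2⟩)
  have haw : (1 : ℝ) / 2 ^ a ≤ 1 / 2 ^ w :=
    one_div_le_one_div_of_le (by positivity) (pw (by omega))
  have hq2b : ∀ ω, B ω → ∀ t : ℝ, |t - F.t ω| ≤ 1 / 2 ^ a →
      |(q 2 (slam F w ω)).eval t| ≤ 2 ^ c₄ := by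
    intro ω hω t ht
    have h1 := hwb1 (F := F) (w := w) (K := 1) (P := q 2 (slam F w ω)) (ω := ω) (by omega)
      (hq 2 (by norm_num) _) (hq1 ω hω 2 (by norm_num)) t (ht.trans haw)
    rwa [mul_one] at h1
  -- the square
  obtain ⟨z, hz⟩ : ∃ z : F.Ω → ℝ → ℝ, z = fun ω t =>
    (q 2 (slam F w ω)).eval t * y ω t + (q 1 (slam F w ω)).eval t := ⟨_, rfl⟩
  have hzc : ∀ ω, Continuous (z ω) := by
    intro ω
    rw [hz]
    exact ((q 2 (slam F w ω)).continuous.mul (hcont ω)).add (q 1 (slam F w ω)).continuous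
  have hzid : ∀ ω t, z ω t ^ 2 - (Δ (slam F w ω)).eval t = (q 2 (slam F w ω)).eval t *
      ((q 0 (slam F w ω)).eval t + 2 * (q 1 (slam F w ω)).eval t * y ω t +
        (q 2 (slam F w ω)).eval t * y ω t ^ 2) := by
    intro ω t
    rw [hz, hΔe]
    ring
  have hz2 : ∀ ω, B ω → ∀ t : ℝ, |t - F.t ω| ≤ 1 / 2 ^ a →
      |z ω t ^ 2 - (Δ (slam F w ω)).eval t| ≤ 2 ^ c₄ * (1 / 2 ^ G) := by
    intro ω hω t ht
    rw [hzid, abs_mul]
    exact mul_le_mul (hq2b ω hω t ht) (hrel ω hω t ht) (abs_nonneg _) (by positivity)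
  have hz1 : ∀ ω, B ω → |z ω (F.t ω) ^ 2 - (Δ (slam F w ω)).eval (F.t ω)| ≤ 1 / 2 ^ G := by
    intro ω hω
    obtain ⟨t1, t2⟩ := win_selfM F w ω
    rw [hzid, abs_mul]
    have h1 := hrel ω hω _ (hself ω)
    have h2 := hq1 ω hω 2 (by norm_num) _ t1 t2
    calc _ ≤ 1 * (1 / 2 ^ G) := mul_le_mul h2 h1 (abs_nonneg _) (by norm_num)
      _ = _ := one_mul _
  -- the numbers
  obtain ⟨R, hR⟩ : ∃ R, R = Y * M + N := ⟨_, rfl⟩
  have hRY : (w₂ - w) * M + N = R := by rw [hR, hY]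
  rw [hRY]
  have hMY : Y * M + N ≤ (Y + T₀) * (M + 1) := by
    have : (Y + T₀) * (M + 1) = Y * M + Y + T₀ * M + T₀ := by ring
    omega
  obtain ⟨G₂, hG₂⟩ : ∃ G₂, G₂ = c₃ + c₄ + 1 + R := ⟨_, rfl⟩
  have hGG : 2 * G₂ + s + c₄ + R + 8 ≤ G := by
    have e1 : C * (Y + T₀) = (3 * (M + 1) + 10) * (Y + T₀) +
        ((c₂ + 4) * (M + 1) + 3 * (c₁ + c₂ + c₃ + c₄) + M + 27) * (Y + T₀) := by
      rw [hC]; ring
    have e2 : 3 * ((Y + T₀) * (M + 1)) = 3 * (M + 1) * (Y + T₀) := by ring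
    have e3 : (3 * (c₁ + c₂ + c₃ + c₄)) ≤
        ((c₂ + 4) * (M + 1) + 3 * (c₁ + c₂ + c₃ + c₄) + M + 27) * (Y + T₀) := by
      have h1 : 3 * (c₁ + c₂ + c₃ + c₄) ≤ (c₂ + 4) * (M + 1) + 3 * (c₁ + c₂ + c₃ + c₄) + M + 27 :=
        by omega
      exact h1.trans (Nat.le_mul_of_pos_right _ (by omega))
    have e4 : (3 * (M + 1) + 10) * (Y + T₀) = 3 * (M + 1) * (Y + T₀) + 10 * (Y + T₀) := by ring
    omega
  have hvq : ∀ i < 3, ∀ ω, B ω → ∀ t : ℝ, |t - F.t ω| ≤ 2 / 2 ^ w₂ →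
      |(q i (slam F w ω)).eval t - (q i (slam F w ω)).eval (F.t ω)| ≤ 1 / 2 ^ (N + 2) := by
    intro i hi ω hω t ht
    have h1 := hmk1 (F := F) (w := w) (w' := w₂) (K := 1) (P := q i (slam F w ω)) (ω := ω) hw hw₂J
      (hq i hi _) (hq1 ω hω i hi) t ht
    refine h1.trans ?_
    rw [mul_one, div_le_div_iff₀ (by positivity) (by positivity), one_mul, ← pow_add, ← pow_add]
    have := mT (3 * (c₁ + c₂ + c₃ + c₄))
    have e1 : ((c₂ + 4) * (M + 1) + 3 * (c₁ + c₂ + c₃ + c₄) + 4 * M) * T₀ =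
      (c₂ + 4) * (M + 1) * T₀ + 3 * (c₁ + c₂ + c₃ + c₄) * T₀ + 4 * M * T₀ := by ring
    exact pw (by omega)
  -- the closed root
  obtain ⟨ω₀, hω₀⟩ : ∃ ω, B ω := by
    by_contra hcon
    push Not at hcon
    have h1 : Pe F.p B = 0 := by
      unfold Pe
      exact Finset.sum_eq_zero fun ω _ => by simp [hcon ω]
    linarith
  have hPB1 : 0 < Pe F.p B₁ := by linarith
  have key : ∃ (B' : F.Ω → Prop) (μ : LnT F → Polynomial ℝ), Sub B' B₁ ∧
      Pe F.p B₁ / 8 ≤ Pe F.p B' ∧ (∀ s', (μ s').natDegree ≤ 2 ^ M * (2 * D)) ∧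
      (∀ ω, B' ω → ∀ t : ℝ, |t - F.t ω| ≤ 1 / 2 ^ a →
        |z ω t - (μ (slam F w₂ ω)).eval t| ≤ 1 / 2 ^ R) ∧
      (∀ ω, B' ω → ∀ t : ℝ, |t - F.t ω| ≤ 2 / 2 ^ w₂ →
        |(μ (slam F w₂ ω)).eval t - (μ (slam F w₂ ω)).eval (F.t ω)| ≤ 1 / 2 ^ (N + 1)) := by
    rcases pe_or F.isLaw (B := B₁) (A₁ := fun ω => 1 / 2 ^ (2 * G₂) ≤ U (slam F w ω))
      (A₂ := fun ω => U (slam F w ω) ≤ 1 / 2 ^ (2 * G₂)) (fun ω _ => le_total _ _) with hA | hA
    · -- the discriminant is large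
      obtain ⟨A₂, hA₂⟩ : ∃ A₂ : F.Ω → Prop, A₂ = fun ω => B₁ ω ∧
        1 / 2 ^ (2 * G₂) ≤ U (slam F w ω) := ⟨_, rfl⟩
      rw [← hA₂] at hA
      have a1 : Sub A₂ B₁ := fun ω h => by rw [hA₂] at h; exact h.1
      have a2 : ∀ ω, A₂ ω → 1 / 2 ^ (2 * G₂) ≤ U (slam F w ω) := fun ω h => by
        rw [hA₂] at h
        exact h.2
      have hPA : 0 < Pe F.p A₂ := by linarith
      obtain ⟨B₃, b3, p3, hB3⟩ := hlowB (w := w) (s := s) hPA Δ U hwJ hΔd
        (hTm A₂ hPA (fun ω h => b1 ω (a1 ω h)) (by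
          have h1 : 2 ^ 4 * Pe F.p A₂ ≤ 2 ^ C * Pe F.p A₂ :=
            mul_le_mul_of_nonneg_right h2C hPA.le
          linarith)) hθ (hrB'.trans hθJ) (hrB'.trans hθs) (fun ω hω => ⟨by
          have h1 : (0 : ℝ) < 1 / 2 ^ (2 * G₂) := by positivity
          exact h1.trans_le (a2 ω hω), by
          obtain ⟨t, ht, h2⟩ := wmx_mem w (slam F w ω).2.2 (Δ (slam F w ω))
          obtain ⟨h3, h4⟩ := (win_iff hwJ ω t).2 ht
          exact ⟨t, h3, h4, by rw [← h2, hUe]⟩⟩)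
      have sb3 : Sub B₃ B := fun ω h => b1 ω (a1 ω (b3 ω h))
      obtain ⟨rp, hrp⟩ := rep_w (F := F) w₂ (B := B₃) ω₀
      obtain ⟨d₀, hd₀⟩ : ∃ d₀ : LnT F → ℝ, d₀ = fun s' => (Δ (cow w w₂ s')).eval (F.t (rp s')) :=
        ⟨_, rfl⟩
      obtain ⟨ε, hε⟩ : ∃ ε : ℝ, ε = 2 ^ (c₂ + 1 + s) / 2 ^ Y := ⟨_, rfl⟩
      have hlbG : (1 : ℝ) / 2 ^ G < 1 / 2 ^ (2 * G₂ + s) := by
        apply one_div_lt_one_div_of_lt (by positivity)
        exact pow_lt_pow_right₀ (by norm_num) (by omega)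
      -- the reference value
      have hrf : ∀ ω, B₃ ω → 1 / 2 ^ (2 * G₂ + s) ≤ d₀ (slam F w₂ ω) ∧
          U (slam F w ω) ≤ 2 ^ s * d₀ (slam F w₂ ω) ∧ d₀ (slam F w₂ ω) ≤ 4 ∧
          ∀ t : ℝ, |t - F.t ω| ≤ 2 / 2 ^ w₂ →
            |(Δ (slam F w ω)).eval t - d₀ (slam F w₂ ω)| ≤ ε * d₀ (slam F w₂ ω) := by
        intro ω hω
        obtain ⟨r1, r2⟩ := hrp ω hω
        obtain ⟨ω', hω'⟩ : ∃ ω', ω' = rp (slam F w₂ ω) := ⟨_, rfl⟩
        rw [← hω'] at r1 r2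
        have r3 : slam F w ω' = slam F w ω := by
          rw [← cow_slam hw hw₂J ω', r2, cow_slam hw hw₂J ω]
        have e1 : d₀ (slam F w₂ ω) = (Δ (slam F w ω)).eval (F.t ω') := by
          rw [hd₀]
          simp only
          rw [cow_slam hw hw₂J ω, ← hω']
        have k1 := hB3 ω' r1
        rw [r3, ← e1] at k1
        have k2 := hz1 ω' (sb3 ω' r1)
        rw [r3, ← e1] at k2
        have k3 := a2 ω (b3 ω hω)
        have k4 : 1 / 2 ^ (2 * G₂ + s) ≤ |d₀ (slam F w₂ ω)| := by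
          refine le_trans ?_ k1
          rw [pow_add, ← div_div]
          exact div_le_div_of_nonneg_right k3 (by positivity)
        have k5 : 0 < d₀ (slam F w₂ ω) := by
          by_contra hcon
          push Not at hcon
          rw [abs_of_nonpos hcon] at k4
          have h1 := (abs_le.1 k2).2
          have h2 := sq_nonneg (z ω' (F.t ω'))
          linarith
        rw [abs_of_pos k5] at k1 k4
        have k6 : U (slam F w ω) ≤ 2 ^ s * d₀ (slam F w₂ ω) := by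
          rw [div_le_iff₀ (by positivity)] at k1
          linarith
        refine ⟨k4, k6, ?_, ?_⟩
        · obtain ⟨t1, t2⟩ := win_selfM F w ω'
          have h1 := hΔ2 ω' (sb3 ω' r1) _ t1 t2
          rw [r3, ← e1] at h1
          have h2 := (abs_le.1 h1).2
          linarith
        · intro t ht
          have h1 := hmk2 (F := F) (w := w) (w' := w₂) (K := U (slam F w ω))
            (P := Δ (slam F w ω)) (ω := ω) hw hw₂J (hΔd _) (hUw ω)
          have h2 := h1 t ht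
          have h3 := h1 (F.t ω') (by
            have := t_win hw₂J r2
            refine this.trans ?_
            exact div_le_div_of_nonneg_right (by norm_num) (by positivity))
          rw [← e1] at h3
          have e2 : (Δ (slam F w ω)).eval t - d₀ (slam F w₂ ω) =
              ((Δ (slam F w ω)).eval t - (Δ (slam F w ω)).eval (F.t ω)) -
              (d₀ (slam F w₂ ω) - (Δ (slam F w ω)).eval (F.t ω)) := by ring
          rw [e2]
          refine (abs_sub _ _).trans ((add_le_add h2 h3).trans ?_)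
          have e3 : (2 : ℝ) ^ c₂ * 2 ^ w / 2 ^ w₂ = 2 ^ c₂ / 2 ^ Y := by
            rw [hwY, pow_add]
            field_simp
          rw [e3]
          calc 2 ^ c₂ / 2 ^ Y * U (slam F w ω) + 2 ^ c₂ / 2 ^ Y * U (slam F w ω) =
              2 * (2 ^ c₂ / 2 ^ Y) * U (slam F w ω) := by ring
            _ ≤ 2 * (2 ^ c₂ / 2 ^ Y) * (2 ^ s * d₀ (slam F w₂ ω)) :=
              mul_le_mul_of_nonneg_left k6 (by positivity)
            _ = ε * d₀ (slam F w₂ ω) := by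
              rw [hε, show c₂ + 1 + s = c₂ + s + 1 by ring, pow_succ, pow_add]
              ring
      have hε8 : ε ≤ 1 / 8 := by
        rw [hε, div_le_div_iff₀ (by positivity) (by norm_num), one_mul,
          show (8 : ℝ) = 2 ^ 3 by norm_num, ← pow_add]
        have := mT ((c₂ + 4) * (M + 1))
        have e1 : ((c₂ + 4) * (M + 1) + 3 * (c₁ + c₂ + c₃ + c₄) + 4 * M) * T₀ =
          (c₂ + 4) * (M + 1) * T₀ + 3 * (c₁ + c₂ + c₃ + c₄) * T₀ + 4 * M * T₀ := by ring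
        have e2 : c₂ ≤ (c₂ + 4) * (M + 1) := by nlinarith
        exact pw (by omega)
      have hε0 : 0 < ε := by rw [hε]; positivity
      -- the error
      have hρ1 : 4 * (ε * (3 * ε) ^ M) ≤ 1 / 2 ^ (R + 1) := by
        have e0 : ε * (3 * ε) ^ M ≤ (4 * ε) ^ (M + 1) := by
          rw [pow_succ']
          exact mul_le_mul (by linarith) (pow_le_pow_left₀ (by positivity) (by linarith) M)
            (by positivity) (by positivity)
        have e1 : (4 : ℝ) * ε = 2 ^ (c₂ + 3 + s) / 2 ^ Y := by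
          rw [hε, show c₂ + 3 + s = c₂ + 1 + s + 2 by ring, pow_add 2 (c₂ + 1 + s) 2]
          ring
        have e2 : (4 * (4 * ε) ^ (M + 1) : ℝ) ≤ 1 / 2 ^ (R + 1) := by
          rw [e1, div_pow, ← pow_mul, ← pow_mul, show (4 : ℝ) = 2 ^ 2 by norm_num,
            ← mul_div_assoc, ← pow_add, div_le_div_iff₀ (by positivity) (by positivity), one_mul,
            ← pow_add]
          refine pw ?_
          rw [hR]
          have f1 : Y * (M + 1) = Y * M + Y := by ring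
          have f2 : (c₂ + 3 + s) * (M + 1) ≤ (c₂ + 4) * (M + 1) * T₀ := by
            have : c₂ + 3 + s ≤ (c₂ + 4) * T₀ := by
              have := mT c₂
              have e9 : (c₂ + 4) * T₀ = c₂ * T₀ + 4 * T₀ := by ring
              omega
            calc (c₂ + 3 + s) * (M + 1) ≤ (c₂ + 4) * T₀ * (M + 1) := Nat.mul_le_mul_right _ this
              _ = _ := by ring
          have e9 : ((c₂ + 4) * (M + 1) + 3 * (c₁ + c₂ + c₃ + c₄) + 4 * M) * T₀ =
            (c₂ + 4) * (M + 1) * T₀ + 3 * (c₁ + c₂ + c₃ + c₄) * T₀ + 4 * M * T₀ := by ring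
          omega
        calc 4 * (ε * (3 * ε) ^ M) ≤ 4 * (4 * ε) ^ (M + 1) :=
              mul_le_mul_of_nonneg_left e0 (by norm_num)
          _ ≤ _ := e2
      have hρ2 : ∀ ω, B₃ ω → 4 * (2 ^ c₄ * (1 / 2 ^ G)) / d₀ (slam F w₂ ω) ≤ 1 / 2 ^ (R + 1) := by
        intro ω hω
        obtain ⟨k1, -, -, -⟩ := hrf ω hω
        have k0 : 0 < d₀ (slam F w₂ ω) := by
          have : (0 : ℝ) < 1 / 2 ^ (2 * G₂ + s) := by positivity
          linarith
        rw [div_le_iff₀ k0]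
        refine le_trans ?_ (mul_le_mul_of_nonneg_left k1 (by positivity))
        rw [show (4 : ℝ) = 2 ^ 2 by norm_num, div_mul_div_comm, one_mul, ← mul_assoc, ← pow_add,
          mul_one_div, div_le_div_iff₀ (by positivity) (by positivity), one_mul, ← pow_add,
          ← pow_add]
        exact pw (by omega)
      -- the sign
      have hsg : ∀ ω, B₃ ω → ∀ t : ℝ, |t - F.t ω| ≤ 1 / 2 ^ a → z ω t ≠ 0 := by
        intro ω hω t ht h0
        obtain ⟨k1, -, -, k4⟩ := hrf ω hω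
        have h1 := hz2 ω (sb3 ω hω) t ht
        have h2 := k4 t (ht.trans (by
          refine (one_div_le_one_div_of_le (by positivity) (pw hw2a)).trans ?_
          exact div_le_div_of_nonneg_right (by norm_num) (by positivity)))
        rw [h0, zero_pow (by norm_num), zero_sub, abs_neg] at h1
        have k0 : 0 < d₀ (slam F w₂ ω) := by
          have : (0 : ℝ) < 1 / 2 ^ (2 * G₂ + s) := by positivity
          linarith
        have h3 : ε * d₀ (slam F w₂ ω) ≤ 1 / 8 * d₀ (slam F w₂ ω) :=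
          mul_le_mul_of_nonneg_right hε8 k0.le
        have h4 := (abs_le.1 h2).1
        have h5 := (abs_le.1 h1).2
        have h6 : (2 : ℝ) ^ c₄ * (1 / 2 ^ G) ≤ 1 / 2 ^ (2 * G₂ + s + 1) := by
          rw [mul_one_div, div_le_div_iff₀ (by positivity) (by positivity), one_mul, ← pow_add]
          exact pw (by omega)
        have h7 : (1 : ℝ) / 2 ^ (2 * G₂ + s + 1) = 1 / 2 * (1 / 2 ^ (2 * G₂ + s)) := by
          rw [pow_succ]
          field_simp
        rw [h7] at h6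
        obtain ⟨uu, huu⟩ : ∃ uu : ℝ, uu = 1 / 2 ^ (2 * G₂ + s) := ⟨_, rfl⟩
        obtain ⟨vv, hvv⟩ : ∃ vv : ℝ, vv = (2 : ℝ) ^ c₄ * (1 / 2 ^ G) := ⟨_, rfl⟩
        rw [← huu] at h6 k1
        rw [← hvv] at h6 h5
        linarith
      have hsgn : ∀ ω, B₃ ω → ∀ t : ℝ, |t - F.t ω| ≤ 1 / 2 ^ a →
          (0 ≤ z ω (F.t ω) → 0 ≤ z ω t) ∧ (z ω (F.t ω) ≤ 0 → z ω t ≤ 0) := by
        intro ω hω t ht
        have hiv : ∀ x ∈ Set.uIcc (z ω (F.t ω)) (z ω t), ∃ t' : ℝ, |t' - F.t ω| ≤ 1 / 2 ^ a ∧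
            z ω t' = x := by
          intro x hx
          obtain ⟨t', h1, h2⟩ := intermediate_value_uIcc (hzc ω).continuousOn hx
          refine ⟨t', ?_, h2⟩
          have h3 := Set.abs_sub_left_of_mem_uIcc h1
          rw [abs_sub_comm] at ht ⊢
          rw [abs_sub_comm] at h3
          have h4 : |F.t ω - t| = |t - F.t ω| := abs_sub_comm _ _
          exact h3.trans (by rw [abs_sub_comm (t) (F.t ω)] at *; exact ht)
        refine ⟨fun h0 => ?_, fun h0 => ?_⟩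
        · by_contra hcon
          push Not at hcon
          obtain ⟨t', h1, h2⟩ := hiv 0 (Set.mem_uIcc.2 (Or.inr ⟨hcon.le, h0⟩))
          exact hsg ω hω t' h1 h2
        · by_contra hcon
          push Not at hcon
          obtain ⟨t', h1, h2⟩ := hiv 0 (Set.mem_uIcc.2 (Or.inl ⟨h0, hcon.le⟩))
          exact hsg ω hω t' h1 h2
      -- the closed root
      obtain ⟨S, hS⟩ : ∃ S : LnT F → Polynomial ℝ, S = fun s' =>
        (sqp M).comp (Polynomial.C (1 / d₀ s') * Δ (cow w w₂ s') - 1) := ⟨_, rfl⟩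
      have hSd : ∀ s', (S s').natDegree ≤ 2 ^ M * (2 * D) := by
        intro s'
        rw [hS]
        refine Polynomial.natDegree_comp_le.trans (Nat.mul_le_mul (sqp_deg M) ?_)
        refine (Polynomial.natDegree_sub_le _ _).trans (max_le ?_ (by simp))
        exact (Polynomial.natDegree_C_mul_le _ _).trans (hΔd _)
      have hSe : ∀ ω (t : ℝ), (S (slam F w₂ ω)).eval t =
          (sqp M).eval ((Δ (slam F w ω)).eval t / d₀ (slam F w₂ ω) - 1) := by
        intro ω t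
        rw [hS]
        simp only [Polynomial.eval_comp, Polynomial.eval_sub, Polynomial.eval_mul,
          Polynomial.eval_C, Polynomial.eval_one]
        rw [cow_slam hw hw₂J ω]
        congr 2
        ring
      have hmain : ∀ ω, B₃ ω → ∀ t : ℝ, |t - F.t ω| ≤ 1 / 2 ^ a →
          |(|z ω t|) - √(d₀ (slam F w₂ ω)) * (S (slam F w₂ ω)).eval t| ≤ 1 / 2 ^ R := by
        intro ω hω t ht
        obtain ⟨k1, -, k3, k4⟩ := hrf ω hω
        have k0 : 0 < d₀ (slam F w₂ ω) := by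
          have : (0 : ℝ) < 1 / 2 ^ (2 * G₂ + s) := by positivity
          linarith
        have h2 := k4 t (ht.trans (by
          refine (one_div_le_one_div_of_le (by positivity) (pw hw2a)).trans ?_
          exact div_le_div_of_nonneg_right (by norm_num) (by positivity)))
        have h1 := rt_near M k0 k3 hε8 h2 (hz2 ω (sb3 ω hω) t ht)
        rw [hSe]
        refine h1.trans ((add_le_add (hρ2 ω hω) hρ1).trans (le_of_eq ?_))
        rw [pow_succ]
        field_simp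
        norm_num
      have hSv : ∀ ω, B₃ ω → ∀ t : ℝ, |t - F.t ω| ≤ 2 / 2 ^ w₂ →
          |√(d₀ (slam F w₂ ω)) * (S (slam F w₂ ω)).eval t -
            √(d₀ (slam F w₂ ω)) * (S (slam F w₂ ω)).eval (F.t ω)| ≤ 1 / 2 ^ (N + 1) := by
        intro ω hω t ht
        obtain ⟨k1, -, k3, k4⟩ := hrf ω hω
        have k0 : 0 < d₀ (slam F w₂ ω) := by
          have : (0 : ℝ) < 1 / 2 ^ (2 * G₂ + s) := by positivity
          linarith
        have hx : ∀ t : ℝ, |t - F.t ω| ≤ 2 / 2 ^ w₂ →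
            |(Δ (slam F w ω)).eval t / d₀ (slam F w₂ ω) - 1| ≤ ε := by
          intro t ht
          rw [show (Δ (slam F w ω)).eval t / d₀ (slam F w₂ ω) - 1 =
            ((Δ (slam F w ω)).eval t - d₀ (slam F w₂ ω)) / d₀ (slam F w₂ ω) by field_simp,
            abs_div, abs_of_pos k0, div_le_iff₀ k0]
          exact k4 t ht
        have h1 := (sqp_near M (hx t ht) hε8).1
        have h2 := (sqp_near M (hx (F.t ω) (by rw [sub_self, abs_zero]; positivity)) hε8).1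
        rw [← hSe] at h1 h2
        have h3 : √(d₀ (slam F w₂ ω)) ≤ 2 := by
          rw [show (2 : ℝ) = √4 by rw [show (4 : ℝ) = 2 ^ 2 by norm_num]; simp]
          exact Real.sqrt_le_sqrt k3
        rw [← mul_sub, abs_mul, abs_of_nonneg (Real.sqrt_nonneg _)]
        have h4 : |(S (slam F w₂ ω)).eval t - (S (slam F w₂ ω)).eval (F.t ω)| ≤ 4 * ε := by
          rw [show (S (slam F w₂ ω)).eval t - (S (slam F w₂ ω)).eval (F.t ω) =
            ((S (slam F w₂ ω)).eval t - 1) - ((S (slam F w₂ ω)).eval (F.t ω) - 1) by ring]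
          exact (abs_sub _ _).trans (by linarith)
        calc _ ≤ 2 * (4 * ε) := mul_le_mul h3 h4 (abs_nonneg _) (by norm_num)
          _ ≤ _ := by
            rw [hε, show (2 : ℝ) * (4 * (2 ^ (c₂ + 1 + s) / 2 ^ Y)) =
              2 ^ (c₂ + 1 + s + 3) / 2 ^ Y by rw [pow_add 2 (c₂ + 1 + s) 3]; ring,
              div_le_div_iff₀ (by positivity) (by positivity), one_mul, ← pow_add]
            have := mT ((c₂ + 4) * (M + 1))
            have e1 : ((c₂ + 4) * (M + 1) + 3 * (c₁ + c₂ + c₃ + c₄) + 4 * M) * T₀ =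
              (c₂ + 4) * (M + 1) * T₀ + 3 * (c₁ + c₂ + c₃ + c₄) * T₀ + 4 * M * T₀ := by ring
            have e2 : c₂ ≤ (c₂ + 4) * (M + 1) := by nlinarith
            exact pw (by omega)
      rcases pe_or F.isLaw (B := B₃) (A₁ := fun ω => 0 ≤ z ω (F.t ω))
        (A₂ := fun ω => z ω (F.t ω) ≤ 0) (fun ω _ => le_total _ _) with hS1 | hS1
      · refine ⟨fun ω => B₃ ω ∧ 0 ≤ z ω (F.t ω), fun s' => Polynomial.C (√(d₀ s')) * S s',
          fun ω h => a1 ω (b3 ω h.1), by linarith, fun s' =>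
          (Polynomial.natDegree_C_mul_le _ _).trans (hSd s'), ?_, ?_⟩
        · intro ω hω t ht
          have h1 := hmain ω hω.1 t ht
          rw [abs_of_nonneg ((hsgn ω hω.1 t ht).1 hω.2)] at h1
          simpa only [Polynomial.eval_mul, Polynomial.eval_C] using h1
        · intro ω hω t ht
          simpa only [Polynomial.eval_mul, Polynomial.eval_C] using hSv ω hω.1 t ht
      · refine ⟨fun ω => B₃ ω ∧ z ω (F.t ω) ≤ 0, fun s' => Polynomial.C (-√(d₀ s')) * S s',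
          fun ω h => a1 ω (b3 ω h.1), by linarith, fun s' =>
          (Polynomial.natDegree_C_mul_le _ _).trans (hSd s'), ?_, ?_⟩
        · intro ω hω t ht
          have h1 := hmain ω hω.1 t ht
          rw [abs_of_nonpos ((hsgn ω hω.1 t ht).2 hω.2)] at h1
          simp only [Polynomial.eval_mul, Polynomial.eval_C]
          rw [← abs_neg]
          refine le_trans (le_of_eq ?_) h1
          congr 1
          ring
        · intro ω hω t ht
          have h1 := hSv ω hω.1 t ht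
          simp only [Polynomial.eval_mul, Polynomial.eval_C]
          rw [← abs_neg]
          refine le_trans (le_of_eq ?_) h1
          congr 1
          ring
    · -- the discriminant is small
      refine ⟨fun ω => B₁ ω ∧ U (slam F w ω) ≤ 1 / 2 ^ (2 * G₂), fun _ => 0, fun ω h => h.1,
        by linarith, fun s' => by simp, ?_, ?_⟩
      · intro ω hω t ht
        have h1 := hz2 ω (b1 ω hω.1) t ht
        have h2 := hwb2 (F := F) (w := w) (K := 1 / 2 ^ (2 * G₂)) (P := Δ (slam F w ω)) (ω := ω)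
          (by omega) (hΔd _) (fun t t1 t2 => (hUw ω t t1 t2).trans hω.2) t (ht.trans haw)
        simp only [Polynomial.eval_zero, sub_zero]
        have h3 : z ω t ^ 2 ≤ (1 / 2 ^ R) ^ 2 := by
          have e1 : z ω t ^ 2 = (z ω t ^ 2 - (Δ (slam F w ω)).eval t) +
            (Δ (slam F w ω)).eval t := by ring
          have e2 := (abs_le.1 h1).2
          have e3 := (abs_le.1 h2).2
          have e4 : (2 : ℝ) ^ c₄ * (1 / 2 ^ G) ≤ 1 / 2 ^ (2 * R + 1) := by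
            rw [mul_one_div, div_le_div_iff₀ (by positivity) (by positivity), one_mul, ← pow_add]
            exact pw (by omega)
          have e5 : (2 : ℝ) ^ c₃ * (1 / 2 ^ (2 * G₂)) ≤ 1 / 2 ^ (2 * R + 1) := by
            rw [mul_one_div, div_le_div_iff₀ (by positivity) (by positivity), one_mul, ← pow_add]
            exact pw (by omega)
          have e6 : ((1 : ℝ) / 2 ^ R) ^ 2 = 1 / 2 ^ (2 * R + 1) + 1 / 2 ^ (2 * R + 1) := by
            rw [div_pow, one_pow, ← pow_mul, show R * 2 = 2 * R by ring, pow_succ]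
            field_simp
            norm_num
          rw [e6]
          linarith
        exact abs_le_of_sq_le_sq h3 (by positivity)
      · intro ω hω t ht
        simp only [Polynomial.eval_zero, sub_self, abs_zero]
        positivity
  obtain ⟨B', μ, s1, q1', q2', q3, q4⟩ := key
  refine ⟨B', μ, fun ω h => b1 ω (s1 ω h), by linarith, q2', fun ω h => hlow ω (s1 ω h), ?_, ?_⟩
  · intro ω hω t ht
    have h1 := q3 ω hω t ht
    rw [hz] at h1
    exact h1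
  · intro ω hω t ht
    have h1 := q4 ω hω t ht
    have h2 := hvq 1 (by norm_num) ω (b1 ω (s1 ω hω)) t ht
    have h3 := hvq 2 (by norm_num) ω (b1 ω (s1 ω hω)) t ht
    have e1 : (1 : ℝ) / 2 ^ N = 4 * (1 / 2 ^ (N + 2)) := by
      rw [pow_add]
      field_simp
      norm_num
    have e2 : (1 : ℝ) / 2 ^ (N + 1) = 2 * (1 / 2 ^ (N + 2)) := by
      rw [show N + 2 = N + 1 + 1 by ring, pow_succ 2 (N + 1)]
      field_simp
    have h0 : (0 : ℝ) < 1 / 2 ^ (N + 2) := by positivity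
    refine ⟨?_, h3.trans (by linarith)⟩
    have e3 : ((q 1 (slam F w ω)).eval t + (μ (slam F w₂ ω)).eval t) -
        ((q 1 (slam F w ω)).eval (F.t ω) + (μ (slam F w₂ ω)).eval (F.t ω)) =
        ((q 1 (slam F w ω)).eval t - (q 1 (slam F w ω)).eval (F.t ω)) +
        ((μ (slam F w₂ ω)).eval t - (μ (slam F w₂ ω)).eval (F.t ω)) := by ring
    rw [e3]
    exact (abs_add_le _ _).trans (by linarith)

end Pool.NVX
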