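import Pool.Agent.H87.NV.Wmx

/-!
# Polynomials which are near to the square root

`sqp`: the steps of the iteration for the root of `1 + x`. `rt_near`: the root in comparison with it.
-/

set_option autoImplicit false

namespace Pool.NVX

open Real

/-- The polynomials near to the root of `1 + x`. -/
noncomputable def sqp : ℕ → Polynomial ℝ
  | 0 => 1
  | N + 1 => sqp N - Polynomial.C (1 / 2) * (sqp N ^ 2 - 1 - Polynomial.X)

theorem sqp_deg (N : ℕ) : (sqp N).natDegree ≤ 2 ^ N := by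
  induction N with
  | zero => simp [sqp]
  | succ N ih =>
    have h1 : (1 : ℕ) ≤ 2 ^ (N + 1) := Nat.one_le_two_pow
    have h2 : 2 ^ (N + 1) = 2 * 2 ^ N := by ring
    show (sqp N - Polynomial.C (1 / 2) * (sqp N ^ 2 - 1 - Polynomial.X)).natDegree ≤ _
    refine (Polynomial.natDegree_sub_le _ _).trans (max_le (by omega) ?_)
    refine (Polynomial.natDegree_C_mul_le _ _).trans ?_
    refine (Polynomial.natDegree_sub_le _ _).trans (max_le ?_ (by
      rw [Polynomial.natDegree_X]; exact h1))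
    refine (Polynomial.natDegree_sub_le _ _).trans (max_le ?_ (by simp))
    refine Polynomial.natDegree_pow_le.trans ?_
    rw [h2]
    exact Nat.mul_le_mul_left 2 ih

theorem sqp_near (N : ℕ) {x ε : ℝ} (hx : |x| ≤ ε) (hε : ε ≤ 1 / 8) :
    |(sqp N).eval x - 1| ≤ 2 * ε ∧ |(sqp N).eval x ^ 2 - (1 + x)| ≤ ε * (3 * ε) ^ N := by
  have hε0 : 0 ≤ ε := (abs_nonneg _).trans hx
  induction N with
  | zero =>
    have e1 : (sqp 0).eval x = 1 := by simp [sqp]
    rw [e1]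
    refine ⟨by rw [sub_self, abs_zero]; positivity, ?_⟩
    rw [show (1 : ℝ) ^ 2 - (1 + x) = -x by ring, abs_neg, pow_zero, mul_one]
    exact hx
  | succ N ih =>
    obtain ⟨h1, h2⟩ := ih
    obtain ⟨S, hS⟩ : ∃ S, S = (sqp N).eval x := ⟨_, rfl⟩
    obtain ⟨e, he⟩ : ∃ e, e = S ^ 2 - (1 + x) := ⟨_, rfl⟩
    have e1 : (sqp (N + 1)).eval x = S - e / 2 := by
      show (sqp N - Polynomial.C (1 / 2) * (sqp N ^ 2 - 1 - Polynomial.X)).eval x = _
      rw [he, hS]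
      simp only [Polynomial.eval_sub, Polynomial.eval_mul, Polynomial.eval_C, Polynomial.eval_pow,
        Polynomial.eval_one, Polynomial.eval_X]
      ring
    rw [e1]
    rw [← hS] at h1
    rw [← hS, ← he] at h2
    have h3 : (3 * ε) ^ N ≤ 1 := pow_le_one₀ (by linarith) (by linarith)
    have h4 : |e| ≤ ε := h2.trans (by nlinarith)
    have h5 := abs_le.1 h1
    have h6 := abs_le.1 h4
    have h7 := abs_le.1 hx
    have e2 : (S - e / 2) ^ 2 - (1 + x) = e * (1 - S + e / 4) := by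
      rw [he]
      ring
    have h8 : |1 - S + e / 4| ≤ 3 * ε := by
      rw [abs_le]
      constructor <;> linarith [h5.1, h5.2, h6.1, h6.2]
    have h9 : |(S - e / 2) ^ 2 - (1 + x)| ≤ ε * (3 * ε) ^ (N + 1) := by
      rw [e2, abs_mul, pow_succ, ← mul_assoc]
      exact mul_le_mul h2 h8 (abs_nonneg _) (by positivity)
    refine ⟨?_, h9⟩
    have h10 : (3 * ε) ^ (N + 1) ≤ 1 := pow_le_one₀ (by linarith) (by linarith)
    have h11 : |(S - e / 2) ^ 2 - (1 + x)| ≤ ε := h9.trans (by nlinarith)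
    have h12 : |(S - e / 2) ^ 2 - 1| ≤ 2 * ε := by
      have e3 : (S - e / 2) ^ 2 - 1 = ((S - e / 2) ^ 2 - (1 + x)) + x := by ring
      rw [e3]
      exact (abs_add_le _ _).trans (by linarith)
    have h13 : 1 ≤ (S - e / 2) + 1 := by linarith [h5.1, h6.2]
    have e4 : (S - e / 2) ^ 2 - 1 = (S - e / 2 - 1) * (S - e / 2 + 1) := by ring
    rw [e4, abs_mul, abs_of_pos (show 0 < S - e / 2 + 1 by linarith)] at h12
    have h14 : |S - e / 2 - 1| ≤ |S - e / 2 - 1| * (S - e / 2 + 1) := by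
      nlinarith [abs_nonneg (S - e / 2 - 1)]
    linarith

/-- **The root in comparison with the polynomial.** -/
theorem rt_near (N : ℕ) {d₀ d z ε e₁ : ℝ} (hd0 : 0 < d₀) (hd2 : d₀ ≤ 4) (hε : ε ≤ 1 / 8)
    (hd : |d - d₀| ≤ ε * d₀) (hz : |z ^ 2 - d| ≤ e₁) :
    |(|z|) - √d₀ * (sqp N).eval (d / d₀ - 1)| ≤ 4 * e₁ / d₀ + 4 * (ε * (3 * ε) ^ N) := by
  have hx : |d / d₀ - 1| ≤ ε := by
    rw [show d / d₀ - 1 = (d - d₀) / d₀ by field_simp, abs_div, abs_of_pos hd0,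
      div_le_iff₀ hd0]
    exact hd
  obtain ⟨h1, h2⟩ := sqp_near N hx hε
  have hε0 : 0 ≤ ε := (abs_nonneg _).trans hx
  have he1 : 0 ≤ e₁ := (abs_nonneg _).trans hz
  obtain ⟨S, hS⟩ : ∃ S, S = (sqp N).eval (d / d₀ - 1) := ⟨_, rfl⟩
  rw [← hS] at h1 h2 ⊢
  obtain ⟨r, hr⟩ : ∃ r, r = √d₀ := ⟨_, rfl⟩
  have hr0 : 0 < r := by rw [hr]; exact Real.sqrt_pos.2 hd0
  have hr2 : r ^ 2 = d₀ := by rw [hr]; exact Real.sq_sqrt hd0.le
  have hr3 : r ≤ 2 := by
    rw [hr, show (2 : ℝ) = √4 by rw [show (4 : ℝ) = 2 ^ 2 by norm_num]; simp]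
    exact Real.sqrt_le_sqrt hd2
  rw [← hr]
  have h3 := abs_le.1 h1
  have hS2 : 1 / 2 ≤ S := by linarith
  have h4 : |z ^ 2 - (r * S) ^ 2| ≤ e₁ + d₀ * (ε * (3 * ε) ^ N) := by
    have e1 : z ^ 2 - (r * S) ^ 2 = (z ^ 2 - d) - d₀ * (S ^ 2 - (1 + (d / d₀ - 1))) := by
      rw [mul_pow, hr2]
      field_simp
      ring
    rw [e1]
    refine (abs_sub _ _).trans (add_le_add hz ?_)
    rw [abs_mul, abs_of_pos hd0]
    exact mul_le_mul_of_nonneg_left h2 hd0.le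
  have e2 : z ^ 2 - (r * S) ^ 2 = (|z| - r * S) * (|z| + r * S) := by
    rw [← sq_abs z]
    ring
  have h5 : r / 2 ≤ |z| + r * S := by
    have : r / 2 ≤ r * S := by nlinarith
    linarith [abs_nonneg z]
  rw [e2, abs_mul, abs_of_pos (show 0 < |z| + r * S by linarith)] at h4
  have h6 : |(|z|) - r * S| * (r / 2) ≤ e₁ + d₀ * (ε * (3 * ε) ^ N) :=
    (mul_le_mul_of_nonneg_left h5 (abs_nonneg _)).trans h4
  have h7 : |(|z|) - r * S| ≤ (e₁ + d₀ * (ε * (3 * ε) ^ N)) * 2 / r := by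
    rw [le_div_iff₀ hr0]
    linarith
  refine h7.trans ?_
  have h8 : (e₁ + d₀ * (ε * (3 * ε) ^ N)) * 2 / r = 2 * r * e₁ / d₀ +
      2 * r * (ε * (3 * ε) ^ N) := by
    rw [← hr2]
    field_simp
  rw [h8]
  have hq : 0 ≤ ε * (3 * ε) ^ N := by positivity
  refine add_le_add ?_ ?_
  · refine div_le_div_of_nonneg_right ?_ hd0.le
    nlinarith
  · nlinarith

end Pool.NVX
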